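import Mathlib

/-!
# The Chebyshev polynomial on `[0, N]` as a product of linear factors
-/

set_option autoImplicit false

open Finset Polynomial.Chebyshev

namespace Pool.Agent.Work.MP_02e323_xi

/-- The root `N sin² ((2 m + 1) π / (4 k))`. -/
noncomputable def rt (N : ℝ) (k m : ℕ) : ℝ :=
  N * Real.sin ((2 * (m : ℝ) + 1) * (Real.pi / (4 * k))) ^ 2

lemma T_eval_prod (k : ℕ) (y : ℝ) :
    (T ℝ (k : ℤ)).eval y = ∏ m ∈ range k,
      (y - Real.cos ((2 * (m : ℝ) + 1) * Real.pi / (2 * k))) /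
        (1 - Real.cos ((2 * (m : ℝ) + 1) * Real.pi / (2 * k))) := by
  have hinj : Set.InjOn (fun m : ℕ => Real.cos ((2 * (m : ℝ) + 1) * Real.pi / (2 * k)))
      (range k : Finset ℕ) := (Finset.range k).nodup_map_iff_injOn.mp (roots_T_real_nodup k)
  have hcard : Multiset.card (T ℝ (k : ℤ)).roots = (T ℝ (k : ℤ)).natDegree := by
    rw [roots_T_real, Finset.card_val, Finset.card_image_of_injOn hinj, Finset.card_range,
      natDegree_T]
    simp
  have hprod := Polynomial.C_leadingCoeff_mul_prod_multiset_X_sub_C hcard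
  have hev : ∀ z : ℝ, (T ℝ (k : ℤ)).eval z = (T ℝ (k : ℤ)).leadingCoeff *
      ∏ m ∈ range k, (z - Real.cos ((2 * (m : ℝ) + 1) * Real.pi / (2 * k))) := by
    intro z
    conv_lhs => rw [← hprod]
    rw [Polynomial.eval_mul, Polynomial.eval_C, roots_T_real]
    congr 1
    rw [Polynomial.eval_multiset_prod, Multiset.map_map]
    have : (Multiset.map ((Polynomial.eval z) ∘ fun a => Polynomial.X - Polynomial.C a)
        ((range k).image (fun m : ℕ => Real.cos ((2 * (m : ℝ) + 1) * Real.pi / (2 * k)))).val).prod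
        = ∏ a ∈ (range k).image (fun m : ℕ => Real.cos ((2 * (m : ℝ) + 1) * Real.pi / (2 * k))),
          (z - a) := by
      rw [Finset.prod_eq_multiset_prod]
      congr 1
      apply Multiset.map_congr rfl
      intro a _
      simp
    rw [this, Finset.prod_image hinj]
  have h1 : (T ℝ (k : ℤ)).leadingCoeff *
      ∏ m ∈ range k, (1 - Real.cos ((2 * (m : ℝ) + 1) * Real.pi / (2 * k))) = 1 := by
    rw [← hev 1]
    simp
  rw [hev y, prod_div_distrib, eq_div_iff]
  · rw [mul_assoc, mul_comm (∏ m ∈ range k, (y - _)), ← mul_assoc, h1, one_mul]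
  · intro h0
    rw [h0, mul_zero] at h1
    exact zero_ne_one h1

lemma sin_rt_pos {k m : ℕ} (hm : m < k) :
    0 < Real.sin ((2 * (m : ℝ) + 1) * (Real.pi / (4 * k))) := by
  have hk : (0 : ℝ) < k := by
    have : 0 < k := by omega
    exact_mod_cast this
  have hm' : (m : ℝ) + 1 ≤ k := by exact_mod_cast hm
  have hm0 : (0 : ℝ) ≤ m := Nat.cast_nonneg m
  apply Real.sin_pos_of_pos_of_lt_pi
  · have := Real.pi_pos
    positivity
  · rw [← mul_div_assoc, div_lt_iff₀ (by positivity)]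
    nlinarith [Real.pi_pos]

lemma rt_pos {N : ℝ} (hN : 0 < N) {k m : ℕ} (hm : m < k) : 0 < rt N k m := by
  unfold rt
  exact mul_pos hN (pow_pos (sin_rt_pos hm) 2)

theorem prod_rt {N : ℝ} (hN : 0 < N) (k : ℕ) (x : ℝ) :
    ∏ m ∈ range k, (1 - x / rt N k m) = (T ℝ (k : ℤ)).eval (1 - 2 * x / N) := by
  rw [T_eval_prod]
  apply prod_congr rfl
  intro m hm
  rw [mem_range] at hm
  have hs := sin_rt_pos hm
  have hk : (k : ℝ) ≠ 0 := by
    have : k ≠ 0 := by omega
    exact_mod_cast this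
  have hc : Real.cos ((2 * (m : ℝ) + 1) * Real.pi / (2 * k)) =
      1 - 2 * Real.sin ((2 * (m : ℝ) + 1) * (Real.pi / (4 * k))) ^ 2 := by
    have e : (2 * (m : ℝ) + 1) * Real.pi / (2 * k) =
        2 * ((2 * (m : ℝ) + 1) * (Real.pi / (4 * k))) := by
      field_simp
      ring
    rw [e, Real.cos_two_mul, Real.cos_sq']
    ring
  rw [hc]
  unfold rt
  obtain ⟨s, hs'⟩ : ∃ s, s = Real.sin ((2 * (m : ℝ) + 1) * (Real.pi / (4 * k))) := ⟨_, rfl⟩
  rw [← hs'] at hs ⊢
  have hN' := hN.ne'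
  have hs0 := hs.ne'
  field_simp
  ring

end Pool.Agent.Work.MP_02e323_xi
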