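import Mathlib

/-!
# A real-rooted polynomial is unimodal in absolute value between consecutive roots
-/

set_option autoImplicit false

open Finset

namespace Pool.Agent.Work.MP_02e323_xi

variable {ι : Type*}

lemma prod_sign (s : Finset ι) (ζ : ι → ℝ) (hζ : ∀ i ∈ s, 0 < ζ i) (x z : ℝ) (hxz : x ≤ z)
    (h : ∀ i ∈ s, ζ i ≤ x ∨ z ≤ ζ i) :
    0 ≤ (∏ i ∈ s, (1 - x / ζ i)) * ∏ i ∈ s, (1 - z / ζ i) := by
  rw [← prod_mul_distrib]
  apply prod_nonneg
  intro i hi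
  have h0 := hζ i hi
  rcases h i hi with h1 | h1
  · have h2 : 1 ≤ x / ζ i := (one_le_div h0).mpr h1
    have h3 : 1 ≤ z / ζ i := (one_le_div h0).mpr (h1.trans hxz)
    nlinarith
  · have h2 : z / ζ i ≤ 1 := (div_le_one h0).mpr h1
    have h3 : x / ζ i ≤ 1 := (div_le_one h0).mpr (hxz.trans h1)
    nlinarith

lemma prod_qc (s : Finset ι) (ζ : ι → ℝ) (hζ : ∀ i ∈ s, 0 < ζ i) (x y z : ℝ) (hxy : x < y)
    (hyz : y < z) (h : ∀ i ∈ s, ζ i ≤ x ∨ z ≤ ζ i) :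
    min |∏ i ∈ s, (1 - x / ζ i)| |∏ i ∈ s, (1 - z / ζ i)| ≤ |∏ i ∈ s, (1 - y / ζ i)| := by
  obtain ⟨a, ha⟩ : ∃ a : ℝ, a = (z - y) / (z - x) := ⟨_, rfl⟩
  obtain ⟨b, hb⟩ : ∃ b : ℝ, b = (y - x) / (z - x) := ⟨_, rfl⟩
  have hzx : 0 < z - x := by linarith
  have ha0 : 0 ≤ a := by rw [ha]; exact div_nonneg (by linarith) hzx.le
  have hb0 : 0 ≤ b := by rw [hb]; exact div_nonneg (by linarith) hzx.le
  have hab : a + b = 1 := by
    rw [ha, hb, ← add_div]
    rw [div_eq_one_iff_eq hzx.ne']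
    ring
  have hy : y = a * x + b * z := by
    rw [ha, hb]
    field_simp
    ring
  have hfac : ∀ i ∈ s, |1 - x / ζ i| ^ a * |1 - z / ζ i| ^ b ≤ |1 - y / ζ i| := by
    intro i hi
    have h0 := hζ i hi
    refine (Real.geom_mean_le_arith_mean2_weighted ha0 hb0 (abs_nonneg _) (abs_nonneg _) hab).trans
      (le_of_eq ?_)
    have hyy : 1 - y / ζ i = a * (1 - x / ζ i) + b * (1 - z / ζ i) := by
      rw [hy]
      have : a = 1 - b := by linarith
      rw [this]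
      field_simp
      ring
    rw [hyy]
    rcases h i hi with h1 | h1
    · have h2 : 1 ≤ x / ζ i := (one_le_div h0).mpr h1
      have h3 : 1 ≤ z / ζ i := (one_le_div h0).mpr (h1.trans (by linarith))
      rw [abs_of_nonpos (show 1 - x / ζ i ≤ 0 by linarith),
        abs_of_nonpos (show 1 - z / ζ i ≤ 0 by linarith), abs_of_nonpos]
      · ring
      · nlinarith
    · have h2 : z / ζ i ≤ 1 := (div_le_one h0).mpr h1
      have h3 : x / ζ i ≤ 1 := (div_le_one h0).mpr ((by linarith : x ≤ z).trans h1)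
      rw [abs_of_nonneg (show 0 ≤ 1 - x / ζ i by linarith),
        abs_of_nonneg (show 0 ≤ 1 - z / ζ i by linarith), abs_of_nonneg]
      nlinarith
  rw [abs_prod, abs_prod, abs_prod]
  obtain ⟨A, hA⟩ : ∃ A : ℝ, A = ∏ i ∈ s, |1 - x / ζ i| := ⟨_, rfl⟩
  obtain ⟨B, hB⟩ : ∃ B : ℝ, B = ∏ i ∈ s, |1 - z / ζ i| := ⟨_, rfl⟩
  have hA0 : 0 ≤ A := by rw [hA]; exact prod_nonneg (fun i _ => abs_nonneg _)
  have hB0 : 0 ≤ B := by rw [hB]; exact prod_nonneg (fun i _ => abs_nonneg _)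
  have h1 : A ^ a * B ^ b ≤ ∏ i ∈ s, |1 - y / ζ i| := by
    rw [hA, hB, ← Real.finset_prod_rpow _ _ (fun i _ => abs_nonneg _),
      ← Real.finset_prod_rpow _ _ (fun i _ => abs_nonneg _), ← prod_mul_distrib]
    apply prod_le_prod
    · intro i _
      exact mul_nonneg (Real.rpow_nonneg (abs_nonneg _) _) (Real.rpow_nonneg (abs_nonneg _) _)
    · exact hfac
  rw [← hA, ← hB]
  refine le_trans ?_ h1
  have hm : 0 ≤ min A B := le_min hA0 hB0
  calc min A B = min A B ^ (a + b) := by rw [hab, Real.rpow_one]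
    _ = min A B ^ a * min A B ^ b := Real.rpow_add_of_nonneg hm ha0 hb0
    _ ≤ A ^ a * B ^ b := by
        apply mul_le_mul
        · exact Real.rpow_le_rpow hm (min_le_left _ _) ha0
        · exact Real.rpow_le_rpow hm (min_le_right _ _) hb0
        · exact Real.rpow_nonneg hm _
        · exact Real.rpow_nonneg hA0 _

/-- decrease before the first root -/
lemma prod_anti (s : Finset ι) (ζ : ι → ℝ) (hζ : ∀ i ∈ s, 0 < ζ i) (x z : ℝ) (hxz : x ≤ z)
    (h : ∀ i ∈ s, z ≤ ζ i) :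
    ∏ i ∈ s, (1 - z / ζ i) ≤ ∏ i ∈ s, (1 - x / ζ i) := by
  apply prod_le_prod
  · intro i hi
    have h2 : z / ζ i ≤ 1 := (div_le_one (hζ i hi)).mpr (h i hi)
    linarith
  · intro i hi
    have h2 : x / ζ i ≤ z / ζ i := div_le_div_of_nonneg_right hxz (hζ i hi).le
    linarith

lemma prod_nonneg_before (s : Finset ι) (ζ : ι → ℝ) (hζ : ∀ i ∈ s, 0 < ζ i) (z : ℝ)
    (h : ∀ i ∈ s, z ≤ ζ i) :
    0 ≤ ∏ i ∈ s, (1 - z / ζ i) := by
  apply prod_nonneg
  intro i hi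
  have h2 : z / ζ i ≤ 1 := (div_le_one (hζ i hi)).mpr (h i hi)
  linarith

end Pool.Agent.Work.MP_02e323_xi
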