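import Mathlib

/-!
# Trigonometric estimates
-/

set_option autoImplicit false

open Finset

namespace Pool.Agent.Work.MP_02e323_xi

/-- the step `π / (4 k)` -/
noncomputable def st (k : ℕ) : ℝ := Real.pi / (4 * k)

lemma st_pos {k : ℕ} (hk : 1 ≤ k) : 0 < st k := by
  unfold st
  have : (0 : ℝ) < k := by exact_mod_cast hk
  have := Real.pi_pos
  positivity

lemma k_mul_st {k : ℕ} (hk : 1 ≤ k) : (k : ℝ) * st k = Real.pi / 4 := by
  unfold st
  have : (k : ℝ) ≠ 0 := by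
    have : k ≠ 0 := by omega
    exact_mod_cast this
  field_simp

lemma st_le {k : ℕ} (hk : 12 ≤ k) : st k ≤ 0.0655 := by
  have h1 := k_mul_st (show 1 ≤ k by omega)
  have h2 : (12 : ℝ) ≤ k := by exact_mod_cast hk
  have h3 := Real.pi_lt_d6
  have h4 := st_pos (show 1 ≤ k by omega)
  nlinarith

/-- `cos u ≤ 1.042 (1 - 0.261 u)` on `[0, π / 2]` -/
lemma cos_le_lin {u : ℝ} (h0 : 0 ≤ u) (h1 : u ≤ Real.pi / 2) :
    Real.cos u ≤ 1.042 * (1 - 0.261 * u) := by
  rcases le_or_gt u 1 with h | h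
  · have hb := Real.cos_bound (x := u) (by rw [abs_of_nonneg h0]; exact h)
    rw [abs_of_nonneg h0] at hb
    have hb2 := (abs_le.mp hb).2
    have hu2 : u ^ 4 ≤ u ^ 2 := by
      have : u ^ 2 ≤ 1 := by nlinarith
      nlinarith [sq_nonneg u]
    nlinarith [sq_nonneg (u - 0.3037)]
  · have h2 : Real.cos u ≤ Real.cos 1 := by
      apply Real.cos_le_cos_of_nonneg_of_le_pi
      · norm_num
      · linarith [Real.pi_pos]
      · exact h.le
    have h3 := Real.cos_one_le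
    have h4 := Real.pi_lt_d6
    nlinarith

lemma sin_five (a : ℝ) : Real.sin (5 * a) =
    Real.sin a * (5 - 20 * Real.sin a ^ 2 + 16 * (Real.sin a ^ 2) ^ 2) := by
  have e : 5 * a = 3 * a + 2 * a := by ring
  rw [e, Real.sin_add, Real.sin_three_mul, Real.cos_three_mul, Real.cos_two_mul, Real.sin_two_mul]
  have h := Real.sin_sq_add_cos_sq a
  have h2 : Real.cos a ^ 2 = 1 - Real.sin a ^ 2 := by linarith
  have h3 : Real.cos a ^ 4 = (1 - Real.sin a ^ 2) ^ 2 := by rw [← h2]; ring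
  have e2 : (3 * Real.sin a - 4 * Real.sin a ^ 3) * (2 * Real.cos a ^ 2 - 1) +
      (4 * Real.cos a ^ 3 - 3 * Real.cos a) * (2 * Real.sin a * Real.cos a) =
      (3 * Real.sin a - 4 * Real.sin a ^ 3) * (2 * Real.cos a ^ 2 - 1) +
      2 * Real.sin a * (4 * Real.cos a ^ 4 - 3 * Real.cos a ^ 2) := by ring
  rw [e2, h3, h2]
  ring

lemma cos_five (a : ℝ) : Real.cos (5 * a) =
    Real.cos a * (1 - 12 * Real.sin a ^ 2 + 16 * (Real.sin a ^ 2) ^ 2) := by
  have e : 5 * a = 3 * a + 2 * a := by ring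
  rw [e, Real.cos_add, Real.sin_three_mul, Real.cos_three_mul, Real.cos_two_mul, Real.sin_two_mul]
  have h := Real.sin_sq_add_cos_sq a
  have h2 : Real.cos a ^ 2 = 1 - Real.sin a ^ 2 := by linarith
  have e2 : (4 * Real.cos a ^ 3 - 3 * Real.cos a) * (2 * Real.cos a ^ 2 - 1) -
      (3 * Real.sin a - 4 * Real.sin a ^ 3) * (2 * Real.sin a * Real.cos a) =
      Real.cos a * ((4 * Real.cos a ^ 2 - 3) * (2 * Real.cos a ^ 2 - 1) -
        2 * Real.sin a ^ 2 * (3 - 4 * Real.sin a ^ 2)) := by ring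
  rw [e2, h2]
  ring

lemma sin_st_lower {k : ℕ} (hk : 12 ≤ k) : 0.9992 * st k ≤ Real.sin (st k) := by
  have h1 := st_pos (show 1 ≤ k by omega)
  have h2 := st_le hk
  have h3 := Real.sin_gt_sub_cube h1
  have h4 : st k ^ 3 ≤ 0.0655 ^ 2 * st k := by
    have : st k ^ 2 ≤ 0.0655 ^ 2 := by nlinarith
    nlinarith
  nlinarith

lemma sin_sq_st_le {k : ℕ} (hk : 12 ≤ k) : Real.sin (st k) ^ 2 ≤ 0.0043 := by
  have h1 := st_pos (show 1 ≤ k by omega)
  have h2 := st_le hk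
  have h3 := Real.sin_lt h1
  have h4 : 0 < Real.sin (st k) := Real.sin_pos_of_pos_of_lt_pi h1 (by linarith [Real.pi_gt_three])
  nlinarith

lemma cos_st_lower {k : ℕ} (hk : 12 ≤ k) : 0.9978 ≤ Real.cos (st k) := by
  have h1 := st_pos (show 1 ≤ k by omega)
  have h2 := st_le hk
  have h3 := Real.one_sub_sq_div_two_le_cos (x := st k)
  nlinarith

lemma sin_pos_of {k : ℕ} (hk : 12 ≤ k) {x : ℝ} (h0 : 0 < x) (h1 : x ≤ (2 * k + 1) * st k) :
    0 < Real.sin x := by
  have h2 := k_mul_st (show 1 ≤ k by omega)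
  have h3 := st_le hk
  apply Real.sin_pos_of_pos_of_lt_pi h0
  have := Real.pi_gt_three
  nlinarith

/-- `k cos a sin (5 a) ≥ 1 / 0.261` -/
lemma k_sin_five {k : ℕ} (hk : 12 ≤ k) :
    1 ≤ 0.261 * ((k : ℝ) * Real.cos (st k) * Real.sin (5 * st k)) := by
  have hk0 : (0 : ℝ) ≤ k := Nat.cast_nonneg k
  have h1 := sin_st_lower hk
  have h2 := sin_sq_st_le hk
  have h3 := cos_st_lower hk
  have h4 := k_mul_st (show 1 ≤ k by omega)
  have h5 := Real.pi_gt_d6
  have h6 := st_pos (show 1 ≤ k by omega)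
  rw [sin_five]
  obtain ⟨s, hs⟩ : ∃ s, s = Real.sin (st k) := ⟨_, rfl⟩
  obtain ⟨c, hc⟩ : ∃ c, c = Real.cos (st k) := ⟨_, rfl⟩
  rw [← hs] at h1 h2 ⊢
  rw [← hc] at h3 ⊢
  have h7 : 0.78454 ≤ (k : ℝ) * s := by
    have h71 : (k : ℝ) * (0.9992 * st k) ≤ k * s := mul_le_mul_of_nonneg_left h1 hk0
    have h72 : (k : ℝ) * (0.9992 * st k) = 0.9992 * (Real.pi / 4) := by rw [← h4]; ring
    rw [h72] at h71
    linarith
  have h8 : (4.914 : ℝ) ≤ 5 - 20 * s ^ 2 + 16 * (s ^ 2) ^ 2 := by nlinarith [sq_nonneg (s ^ 2)]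
  have h9 : (0.78454 : ℝ) * 4.914 ≤ (k : ℝ) * s * (5 - 20 * s ^ 2 + 16 * (s ^ 2) ^ 2) :=
    mul_le_mul h7 h8 (by norm_num) (by nlinarith)
  have h10 : (0.78454 : ℝ) * 4.914 * 0.9978 ≤
      (k : ℝ) * s * (5 - 20 * s ^ 2 + 16 * (s ^ 2) ^ 2) * c :=
    mul_le_mul h9 h3 (by norm_num) (by nlinarith)
  nlinarith

/-- The bound on the lobe number `m`. -/
lemma lobe {k m : ℕ} (hk : 12 ≤ k) (hm3 : 3 ≤ m) (hmk : m ≤ k) {φ : ℝ}
    (h1 : (2 * (m : ℝ) - 1) * st k ≤ φ) (h2 : φ ≤ Real.pi / 2) :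
    |Real.cos (2 * k * φ)| *
      (Real.sin ((2 * (m : ℝ) + 1) * st k) * Real.sin ((2 * (m : ℝ) - 1) * st k)) ≤
      1.042 * (Real.sin φ ^ 2 - Real.sin (st k) ^ 2) := by
  have ha := st_pos (show 1 ≤ k by omega)
  have hka := k_mul_st (show 1 ≤ k by omega)
  have hk0 : (0 : ℝ) < k := by
    have : 0 < k := by omega
    exact_mod_cast this
  have hm3' : (3 : ℝ) ≤ m := by exact_mod_cast hm3
  have hmk' : (m : ℝ) ≤ k := by exact_mod_cast hmk
  have hpi := Real.pi_pos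
  have hma : 2 * (m : ℝ) * st k ≤ Real.pi / 2 := by nlinarith
  obtain ⟨a, hadef⟩ : ∃ a, a = st k := ⟨_, rfl⟩
  have hcosa := cos_st_lower hk
  have hk5 := k_sin_five hk
  have hstle := st_le hk
  rw [← hadef] at ha hka hma h1 hcosa hk5 hstle ⊢
  -- the product of sines
  have hD : Real.sin ((2 * (m : ℝ) + 1) * a) * Real.sin ((2 * (m : ℝ) - 1) * a) =
      Real.sin (2 * m * a) ^ 2 - Real.sin a ^ 2 := by
    have e1 : (2 * (m : ℝ) + 1) * a = 2 * m * a + a := by ring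
    have e2 : (2 * (m : ℝ) - 1) * a = 2 * m * a - a := by ring
    rw [e1, e2, Real.sin_add, Real.sin_sub]
    have h := Real.sin_sq_add_cos_sq a
    have h' := Real.sin_sq_add_cos_sq (2 * m * a)
    have hc : Real.cos a ^ 2 = 1 - Real.sin a ^ 2 := by linarith
    have hc' : Real.cos (2 * m * a) ^ 2 = 1 - Real.sin (2 * m * a) ^ 2 := by linarith
    have : (Real.sin (2 * m * a) * Real.cos a + Real.cos (2 * m * a) * Real.sin a) *
        (Real.sin (2 * m * a) * Real.cos a - Real.cos (2 * m * a) * Real.sin a) =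
        Real.sin (2 * m * a) ^ 2 * Real.cos a ^ 2 - Real.cos (2 * m * a) ^ 2 * Real.sin a ^ 2 := by
      ring
    rw [this, hc, hc']
    ring
  have hsm : 0 < Real.sin ((2 * (m : ℝ) - 1) * a) := by
    apply Real.sin_pos_of_pos_of_lt_pi
    · nlinarith
    · nlinarith
  have hsp : 0 < Real.sin ((2 * (m : ℝ) + 1) * a) := by
    apply Real.sin_pos_of_pos_of_lt_pi
    · nlinarith
    · nlinarith [Real.pi_gt_three]
  have hs2 : 0 < Real.sin (2 * m * a) := by
    apply Real.sin_pos_of_pos_of_lt_pi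
    · nlinarith
    · nlinarith
  rcases le_or_gt (2 * (m : ℝ) * a) φ with hcase | hcase
  · -- right of the peak
    have hmono : Real.sin (2 * m * a) ≤ Real.sin φ :=
      Real.sin_le_sin_of_le_of_le_pi_div_two (by nlinarith) h2 hcase
    have h3 : Real.sin (2 * m * a) ^ 2 ≤ Real.sin φ ^ 2 := by nlinarith
    have h4 : |Real.cos (2 * k * φ)| ≤ 1 := Real.abs_cos_le_one _
    have h5 : 0 < Real.sin ((2 * (m : ℝ) + 1) * a) * Real.sin ((2 * (m : ℝ) - 1) * a) :=
      mul_pos hsp hsm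
    have h6 := mul_le_mul_of_nonneg_right h4 h5.le
    rw [hD] at h5 h6 ⊢
    nlinarith
  · -- left of the peak
    obtain ⟨δ, hδ⟩ : ∃ δ, δ = 2 * m * a - φ := ⟨_, rfl⟩
    have hδ0 : 0 < δ := by rw [hδ]; linarith
    have hδa : δ ≤ a := by rw [hδ]; linarith
    have hφ : φ = 2 * m * a - δ := by rw [hδ]; ring
    obtain ⟨u, hu⟩ : ∃ u, u = 2 * k * δ := ⟨_, rfl⟩
    have hu0 : 0 ≤ u := by rw [hu]; positivity
    have hu1 : u ≤ Real.pi / 2 := by
      rw [hu]
      have : (k : ℝ) * δ ≤ k * a := mul_le_mul_of_nonneg_left hδa hk0.le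
      linarith
    have hcos : |Real.cos (2 * k * φ)| = Real.cos u := by
      have e : 2 * (k : ℝ) * φ = m * Real.pi - u := by
        rw [hφ, hu]
        have : 2 * (k : ℝ) * (2 * m * a - δ) = 4 * m * (k * a) - 2 * k * δ := by ring
        rw [this, hka]
        ring
      rw [e, Real.cos_nat_mul_pi_sub, abs_mul, abs_pow, abs_neg, abs_one, one_pow, one_mul]
      exact abs_of_nonneg (Real.cos_nonneg_of_neg_pi_div_two_le_of_le (by linarith) hu1)
    -- the loss in the denominator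
    have hdiff : Real.sin φ ^ 2 = Real.sin (2 * m * a) ^ 2 -
        Real.sin (2 * (2 * m * a - δ / 2)) * Real.sin δ := by
      have e1 : 2 * m * a = (2 * m * a - δ / 2) + δ / 2 := by ring
      have e2 : φ = (2 * m * a - δ / 2) - δ / 2 := by rw [hφ]; ring
      have e3 : Real.sin δ = Real.sin (2 * (δ / 2)) := by congr 1; ring
      rw [e2, e3, Real.sin_two_mul, Real.sin_two_mul]
      have e4 : Real.sin (2 * m * a) = Real.sin ((2 * m * a - δ / 2) + δ / 2) := by
        rw [← e1]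
      rw [e4, Real.sin_add, Real.sin_sub]
      ring
    have hle : Real.sin (2 * (2 * m * a - δ / 2)) * Real.sin δ ≤ 2 * Real.sin (2 * m * a) * δ := by
      have h3 : Real.sin δ ≤ δ := (Real.sin_lt hδ0).le
      have h4 : 0 ≤ Real.sin δ := Real.sin_nonneg_of_nonneg_of_le_pi hδ0.le
        (by linarith [Real.pi_gt_three])
      have h5 : Real.sin (2 * (2 * m * a - δ / 2)) ≤ 2 * Real.sin (2 * m * a) := by
        rw [Real.sin_two_mul]
        have h6 : Real.sin (2 * m * a - δ / 2) ≤ Real.sin (2 * m * a) :=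
          Real.sin_le_sin_of_le_of_le_pi_div_two (by nlinarith) hma (by linarith)
        have h7 : 0 ≤ Real.sin (2 * m * a - δ / 2) :=
          Real.sin_nonneg_of_nonneg_of_le_pi (by nlinarith) (by nlinarith)
        have h8 : Real.cos (2 * m * a - δ / 2) ≤ 1 := Real.cos_le_one _
        nlinarith
      calc Real.sin (2 * (2 * m * a - δ / 2)) * Real.sin δ
          ≤ 2 * Real.sin (2 * m * a) * Real.sin δ := mul_le_mul_of_nonneg_right h5 h4
        _ ≤ 2 * Real.sin (2 * m * a) * δ := mul_le_mul_of_nonneg_left h3 (by linarith)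
    -- sine estimate
    have h5a : Real.sin (5 * a) ≤ Real.sin ((2 * (m : ℝ) - 1) * a) := by
      apply Real.sin_le_sin_of_le_of_le_pi_div_two
      · nlinarith
      · nlinarith
      · nlinarith
    have hs5 : 0 < Real.sin (5 * a) := by
      apply Real.sin_pos_of_pos_of_lt_pi
      · linarith
      · linarith [Real.pi_gt_three]
    have hc2 : 0 ≤ Real.cos (2 * m * a) :=
      Real.cos_nonneg_of_neg_pi_div_two_le_of_le (by nlinarith) hma
    have hsina : 0 < Real.sin a :=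
      Real.sin_pos_of_pos_of_lt_pi ha (by linarith [Real.pi_gt_three])
    have hsp2 : Real.sin (2 * m * a) * Real.cos a ≤ Real.sin ((2 * (m : ℝ) + 1) * a) := by
      have e1 : (2 * (m : ℝ) + 1) * a = 2 * m * a + a := by ring
      rw [e1, Real.sin_add]
      have := mul_nonneg hc2 hsina.le
      linarith
    have hkey : Real.sin (2 * m * a) ≤ 0.261 * (k * (Real.sin ((2 * (m : ℝ) + 1) * a) *
        Real.sin ((2 * (m : ℝ) - 1) * a))) := by
      have h3 : (Real.sin (2 * m * a) * Real.cos a) * Real.sin (5 * a) ≤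
          Real.sin ((2 * (m : ℝ) + 1) * a) * Real.sin ((2 * (m : ℝ) - 1) * a) :=
        mul_le_mul hsp2 h5a hs5.le hsp.le
      have h4 := mul_le_mul_of_nonneg_left h3 hk0.le
      have h5 := mul_le_mul_of_nonneg_right hk5 hs2.le
      nlinarith
    rw [hcos]
    obtain ⟨D, hDdef⟩ : ∃ D, D = Real.sin ((2 * (m : ℝ) + 1) * a) *
        Real.sin ((2 * (m : ℝ) - 1) * a) := ⟨_, rfl⟩
    have hDpos : 0 < D := by rw [hDdef]; exact mul_pos hsp hsm
    rw [← hDdef] at hkey hD ⊢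
    have hlin := cos_le_lin hu0 hu1
    have h3 := mul_le_mul_of_nonneg_right hlin hDpos.le
    -- 2 sin(2ma) δ ≤ 0.261 u D
    have h4 : 2 * Real.sin (2 * m * a) * δ ≤ 0.261 * u * D := by
      have h5 := mul_le_mul_of_nonneg_right hkey (show 0 ≤ 2 * δ by linarith)
      rw [hu]
      nlinarith
    have h6 : Real.sin φ ^ 2 - Real.sin a ^ 2 ≥ D * (1 - 0.261 * u) := by
      rw [hdiff]
      nlinarith
    nlinarith

/-- The telescoping sum. -/
lemma tele {k : ℕ} (hk : 12 ≤ k) : ∀ M, 3 ≤ M → M ≤ k + 1 →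
    ∑ m ∈ Ico 3 M, 2 * Real.sin (st k) ^ 2 /
      (Real.sin ((2 * (m : ℝ) + 1) * st k) * Real.sin ((2 * (m : ℝ) - 1) * st k)) =
    Real.sin (st k) / Real.cos (st k) * (Real.cos (5 * st k) / Real.sin (5 * st k) -
      Real.cos ((2 * (M : ℝ) - 1) * st k) / Real.sin ((2 * (M : ℝ) - 1) * st k)) := by
  intro M hM
  induction M, hM using Nat.le_induction with
  | base =>
    intro _
    have e : (2 * ((3 : ℕ) : ℝ) - 1) * st k = 5 * st k := by push_cast; ring
    rw [e]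
    simp
  | succ M hM ih =>
    intro hMk
    have ha := st_pos (show 1 ≤ k by omega)
    have hcosa := cos_st_lower hk
    have hM3 : (3 : ℝ) ≤ M := by exact_mod_cast hM
    have hMk' : (M : ℝ) ≤ k := by
      have : M ≤ k := by omega
      exact_mod_cast this
    rw [sum_Ico_succ_top hM, ih (by omega)]
    have hA : 0 < Real.sin ((2 * (M : ℝ) - 1) * st k) := by
      apply sin_pos_of hk
      · nlinarith
      · apply mul_le_mul_of_nonneg_right _ ha.le
        linarith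
    have hB : 0 < Real.sin ((2 * (M : ℝ) + 1) * st k) := by
      apply sin_pos_of hk
      · nlinarith
      · apply mul_le_mul_of_nonneg_right _ ha.le
        linarith
    have e : (2 * ((M + 1 : ℕ) : ℝ) - 1) * st k = (2 * (M : ℝ) + 1) * st k := by
      push_cast; ring
    rw [e]
    have hsub : Real.sin (2 * st k) = Real.sin ((2 * (M : ℝ) + 1) * st k) *
        Real.cos ((2 * (M : ℝ) - 1) * st k) - Real.cos ((2 * (M : ℝ) + 1) * st k) *
        Real.sin ((2 * (M : ℝ) - 1) * st k) := by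
      rw [← Real.sin_sub]
      congr 1
      ring
    rw [Real.sin_two_mul] at hsub
    have hc0 : Real.cos (st k) ≠ 0 := by
      intro h
      rw [h] at hcosa
      norm_num at hcosa
    have hA' := hA.ne'
    have hB' := hB.ne'
    obtain ⟨A, hAd⟩ : ∃ A, A = Real.sin ((2 * (M : ℝ) - 1) * st k) := ⟨_, rfl⟩
    obtain ⟨B, hBd⟩ : ∃ B, B = Real.sin ((2 * (M : ℝ) + 1) * st k) := ⟨_, rfl⟩
    obtain ⟨A1, hA1⟩ : ∃ A1, A1 = Real.cos ((2 * (M : ℝ) - 1) * st k) := ⟨_, rfl⟩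
    obtain ⟨B1, hB1⟩ : ∃ B1, B1 = Real.cos ((2 * (M : ℝ) + 1) * st k) := ⟨_, rfl⟩
    obtain ⟨s, hs⟩ : ∃ s, s = Real.sin (st k) := ⟨_, rfl⟩
    obtain ⟨c, hc⟩ : ∃ c, c = Real.cos (st k) := ⟨_, rfl⟩
    rw [← hAd, ← hBd, ← hA1, ← hB1, ← hs, ← hc] at hsub
    rw [← hAd] at hA'
    rw [← hBd] at hB'
    rw [← hc] at hc0
    rw [← hAd, ← hBd, ← hA1, ← hB1, ← hs, ← hc]
    have hterm : 2 * s ^ 2 / (B * A) = s / c * (A1 / A - B1 / B) := by
      rw [div_sub_div _ _ hA' hB', div_mul_div_comm, div_eq_div_iff (by positivity) (by positivity)]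
      linear_combination (s * A * B) * hsub
    rw [hterm]
    ring

lemma tele_le {k : ℕ} (hk : 12 ≤ k) :
    ∑ m ∈ Ico 3 (k + 1), 2 * Real.sin (st k) ^ 2 /
      (Real.sin ((2 * (m : ℝ) + 1) * st k) * Real.sin ((2 * (m : ℝ) - 1) * st k)) ≤ 1 / 5 := by
  rw [tele hk (k + 1) (by omega) (le_refl _)]
  have ha := st_pos (show 1 ≤ k by omega)
  have hka := k_mul_st (show 1 ≤ k by omega)
  have hcosa := cos_st_lower hk
  have hq := sin_sq_st_le hk
  have hsina : 0 < Real.sin (st k) := sin_pos_of hk ha (by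
    have : (0 : ℝ) ≤ k := Nat.cast_nonneg k
    nlinarith)
  have e : (2 * ((k + 1 : ℕ) : ℝ) - 1) * st k = st k + Real.pi / 2 := by
    push_cast
    linear_combination 2 * hka
  rw [e, Real.cos_add_pi_div_two, Real.sin_add_pi_div_two, sin_five, cos_five]
  have hcs := Real.sin_sq_add_cos_sq (st k)
  obtain ⟨s, hs⟩ : ∃ s, s = Real.sin (st k) := ⟨_, rfl⟩
  obtain ⟨c, hc⟩ : ∃ c, c = Real.cos (st k) := ⟨_, rfl⟩
  rw [← hs] at hq hsina hcs ⊢
  rw [← hc] at hcosa hcs ⊢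
  have hc0 : 0 < c := by linarith
  have hc2 : c ^ 2 = 1 - s ^ 2 := by linarith
  obtain ⟨q, hqd⟩ : ∃ q, q = s ^ 2 := ⟨_, rfl⟩
  have hq0 : 0 ≤ q := by rw [hqd]; positivity
  have hD : 0 < 5 - 20 * q + 16 * q ^ 2 := by
    rw [← hqd] at hq
    nlinarith
  rw [← hqd] at hq hc2 ⊢
  have hval : s / c * (c * (1 - 12 * q + 16 * q ^ 2) / (s * (5 - 20 * q + 16 * q ^ 2)) - -s / c) =
      (1 - 12 * q + 16 * q ^ 2) / (5 - 20 * q + 16 * q ^ 2) + q / (1 - q) := by
    have h1 : s / c * (c * (1 - 12 * q + 16 * q ^ 2) / (s * (5 - 20 * q + 16 * q ^ 2))) =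
        (1 - 12 * q + 16 * q ^ 2) / (5 - 20 * q + 16 * q ^ 2) := by
      have hD' := hD.ne'
      have hs' := hsina.ne'
      have hc' := hc0.ne'
      field_simp
    have h2 : s / c * (s / c) = q / (1 - q) := by
      rw [div_mul_div_comm, ← hc2, hqd]
      ring
    rw [mul_sub, h1, neg_div, mul_neg, h2]
    ring
  have hq1 : (1 : ℝ) - q ≠ 0 := by
    intro h
    linarith
  rw [hval, div_add_div _ _ hD.ne' hq1, div_le_div_iff₀]
  · nlinarith
  · exact mul_pos hD (by linarith)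
  · norm_num

end Pool.Agent.Work.MP_02e323_xi
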