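import Mathlib

/-!
# The variation of a sequence which is unimodal in absolute value on each of `K` lobes
-/

set_option autoImplicit false

open Finset

namespace Pool.Agent.Work.MP_02e323_xi

lemma variation_aux (n : ℕ) (g : ℕ → ℝ) (L : ℕ → ℕ) (μ : ℕ → ℝ)
    (hLmono : ∀ i j, 1 ≤ i → i ≤ j → j ≤ n → L i ≤ L j)
    (hL1 : ∀ j, 1 ≤ j → j ≤ n → 1 ≤ L j)
    (hμ : ∀ m, 0 ≤ μ m)
    (hb : ∀ j, 1 ≤ j → j ≤ n → |g j| ≤ μ (L j))
    (hsign : ∀ i j, 1 ≤ i → i ≤ j → j ≤ n → L i = L j → 0 ≤ g i * g j)
    (hqc : ∀ i j l, 1 ≤ i → i < j → j < l → l ≤ n → L i = L l → min |g i| |g l| ≤ |g j|) :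
    ∀ k, 1 ≤ k → k ≤ n → ∃ i, 1 ≤ i ∧ i ≤ k ∧ L i = L k ∧
      (∀ i', 1 ≤ i' → i' ≤ k → L i' = L k → |g i'| ≤ |g i|) ∧
      ∑ j ∈ Ico 1 k, |g j - g (j + 1)| + |g k| ≤
        2 * ∑ m ∈ Ico 1 (L k), μ m + 2 * |g i| - |g 1| := by
  intro k
  induction k with
  | zero => intro h; omega
  | succ k ih =>
    intro _ hkn
    rcases Nat.eq_zero_or_pos k with hk0 | hk0
    · subst hk0
      refine ⟨1, le_refl _, le_refl _, rfl, ?_, ?_⟩
      · intro i' h1 h2 _
        have : i' = 1 := by omega
        rw [this]
      · have h1 : 0 ≤ ∑ m ∈ Ico 1 (L (0 + 1)), μ m := sum_nonneg (fun m _ => hμ m)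
        simp only [zero_add, Ico_self, sum_empty] at h1 ⊢
        linarith
    · obtain ⟨i, hi1, hik, hLi, himax, hsum⟩ := ih hk0 (by omega)
      have hstep : ∑ j ∈ Ico 1 (k + 1), |g j - g (j + 1)| =
          ∑ j ∈ Ico 1 k, |g j - g (j + 1)| + |g k - g (k + 1)| := by
        rw [sum_Ico_succ_top hk0]
      rw [hstep]
      by_cases hLL : L (k + 1) = L k
      · -- same lobe
        have hs := hsign k (k + 1) hk0 (by omega) hkn hLL.symm
        have habs : |g k - g (k + 1)| = |(|g k| - |g (k + 1)|)| := by
          rcases le_total 0 (g k) with h1 | h1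
          · rcases le_total 0 (g (k + 1)) with h2 | h2
            · rw [abs_of_nonneg h1, abs_of_nonneg h2]
            · rcases eq_or_lt_of_le h1 with h3 | h3
              · rw [← h3]; simp
              · have h4 : g (k + 1) = 0 := by
                  have : 0 ≤ g (k + 1) := by
                    by_contra hc
                    push Not at hc
                    nlinarith
                  linarith
                rw [h4, abs_of_nonneg h1]; simp
          · rcases le_total 0 (g (k + 1)) with h2 | h2
            · rcases eq_or_lt_of_le h1 with h3 | h3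
              · rw [h3]; simp
              · have h4 : g (k + 1) = 0 := by
                  have : g (k + 1) ≤ 0 := by
                    by_contra hc
                    push Not at hc
                    nlinarith
                  linarith
                rw [h4]; simp
            · rw [abs_of_nonpos h1, abs_of_nonpos h2, ← abs_neg]
              congr 1
              ring
        rcases le_or_gt |g (k + 1)| |g k| with hle | hgt
        · -- decreasing
          refine ⟨i, hi1, by omega, by rw [hLi, hLL], ?_, ?_⟩
          · intro i' h1 h2 h3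
            rcases Nat.lt_or_ge k i' with h4 | h4
            · have : i' = k + 1 := by omega
              rw [this]
              exact hle.trans (himax k hk0 (le_refl _) rfl)
            · exact himax i' h1 h4 (by rw [h3, hLL])
          · rw [habs, abs_of_nonneg (by linarith), hLL]
            linarith
        · -- increasing: the maximum so far is at `k`
          have hgi : |g i| ≤ |g k| := by
            rcases Nat.lt_or_ge i k with h1 | h1
            · have h2 := hqc i k (k + 1) hi1 h1 (by omega) hkn (by rw [hLi, hLL])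
              rcases min_le_iff.mp h2 with h3 | h3
              · exact h3
              · linarith
            · have : i = k := by omega
              rw [this]
          refine ⟨k + 1, by omega, le_refl _, rfl, ?_, ?_⟩
          · intro i' h1 h2 h3
            rcases Nat.lt_or_ge k i' with h4 | h4
            · have : i' = k + 1 := by omega
              rw [this]
            · have := himax i' h1 h4 (by rw [h3, hLL])
              linarith
          · rw [habs, abs_of_nonpos (by linarith), hLL]
            linarith
      · -- new lobe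
        have hlt : L k < L (k + 1) :=
          lt_of_le_of_ne (hLmono k (k + 1) hk0 (by omega) hkn) (fun e => hLL e.symm)
        refine ⟨k + 1, by omega, le_refl _, rfl, ?_, ?_⟩
        · intro i' h1 h2 h3
          rcases Nat.lt_or_ge k i' with h4 | h4
          · have : i' = k + 1 := by omega
            rw [this]
          · exfalso
            have := hLmono i' k h1 h4 (by omega)
            omega
        · have h1 : |g k - g (k + 1)| ≤ |g k| + |g (k + 1)| := abs_sub _ _
          have h2 : ∑ m ∈ Ico 1 (L k), μ m + μ (L k) ≤ ∑ m ∈ Ico 1 (L (k + 1)), μ m := by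
            rw [← sum_Ico_succ_top (hL1 k hk0 (by omega))]
            apply sum_le_sum_of_subset_of_nonneg
            · apply Ico_subset_Ico_right
              omega
            · intro m _ _
              exact hμ m
          have h3 : |g i| ≤ μ (L k) := by
            rw [← hLi]
            exact hb i hi1 (by omega)
          linarith

/-- The variation over the lobes `1, ..., K`. -/
theorem variation (n K : ℕ) (hn : 1 ≤ n) (g : ℕ → ℝ) (L : ℕ → ℕ) (μ : ℕ → ℝ)
    (hLmono : ∀ i j, 1 ≤ i → i ≤ j → j ≤ n → L i ≤ L j)
    (hL1 : ∀ j, 1 ≤ j → j ≤ n → 1 ≤ L j) (hLK : L n ≤ K)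
    (hμ : ∀ m, 0 ≤ μ m)
    (hb : ∀ j, 1 ≤ j → j ≤ n → |g j| ≤ μ (L j))
    (hsign : ∀ i j, 1 ≤ i → i ≤ j → j ≤ n → L i = L j → 0 ≤ g i * g j)
    (hqc : ∀ i j l, 1 ≤ i → i < j → j < l → l ≤ n → L i = L l → min |g i| |g l| ≤ |g j|) :
    ∑ j ∈ Ico 1 n, |g j - g (j + 1)| ≤ 2 * ∑ m ∈ Icc 1 K, μ m - |g 1| := by
  obtain ⟨i, hi1, hik, hLi, himax, hsum⟩ :=
    variation_aux n g L μ hLmono hL1 hμ hb hsign hqc n hn (le_refl _)
  have h1 : ∑ m ∈ Ico 1 (L n), μ m + μ (L n) ≤ ∑ m ∈ Icc 1 K, μ m := by
    rw [← sum_Ico_succ_top (hL1 n hn (le_refl _))]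
    apply sum_le_sum_of_subset_of_nonneg
    · intro m hm
      rw [mem_Ico] at hm
      rw [mem_Icc]
      omega
    · intro m _ _
      exact hμ m
  have h2 : |g i| ≤ μ (L n) := by
    rw [← hLi]
    exact hb i hi1 hik
  have h3 := abs_nonneg (g n)
  linarith

end Pool.Agent.Work.MP_02e323_xi
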