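import Mathlib
import Pool.Agent.Work.MP_02e323_xi.Var
import Pool.Agent.Work.MP_02e323_xi.Prod
import Pool.Agent.Work.MP_02e323_xi.Cheb
import Pool.Agent.Work.MP_02e323_xi.Trig

/-!
# The polynomial of degree `k - 2` for `k ≥ 12`
-/

set_option autoImplicit false

open Finset Polynomial.Chebyshev

namespace Pool.Agent.Work.MP_02e323_xi

/-- the length `2 k² / 5` -/
noncomputable def NN (k : ℕ) : ℝ := 2 / 5 * (k : ℝ) ^ 2

/-- the function `T_k (1 - 2 x / N) / (1 - x / x₁)` -/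
noncomputable def FF (k : ℕ) (x : ℝ) : ℝ := ∏ m ∈ Ico 1 k, (1 - x / rt (NN k) k m)

/-- the angle -/
noncomputable def ph (k : ℕ) (x : ℝ) : ℝ := Real.arcsin (√(x / NN k))

lemma NN_pos {k : ℕ} (hk : 12 ≤ k) : 0 < NN k := by
  unfold NN
  have : (0 : ℝ) < k := by
    have : 0 < k := by omega
    exact_mod_cast this
  positivity

lemma rt_eq (k m : ℕ) : rt (NN k) k m = NN k * Real.sin ((2 * (m : ℝ) + 1) * st k) ^ 2 := rfl

lemma ph_mem (k : ℕ) (x : ℝ) : 0 ≤ ph k x ∧ ph k x ≤ Real.pi / 2 :=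
  ⟨Real.arcsin_nonneg.mpr (Real.sqrt_nonneg _), Real.arcsin_le_pi_div_two _⟩

lemma sin_ph {k : ℕ} (hk : 12 ≤ k) {x : ℝ} (h1 : x ≤ NN k) :
    Real.sin (ph k x) = √(x / NN k) := by
  unfold ph
  apply Real.sin_arcsin
  · have := Real.sqrt_nonneg (x / NN k)
    linarith
  · rw [Real.sqrt_le_iff]
    refine ⟨by norm_num, ?_⟩
    rw [one_pow]
    exact (div_le_one (NN_pos hk)).mpr h1

lemma sin_sq_ph {k : ℕ} (hk : 12 ≤ k) {x : ℝ} (h0 : 0 ≤ x) (h1 : x ≤ NN k) :
    NN k * Real.sin (ph k x) ^ 2 = x := by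
  have hN := NN_pos hk
  rw [sin_ph hk h1, Real.sq_sqrt (div_nonneg h0 hN.le)]
  field_simp

/-- a root is at most `x` iff its angle is at most the angle of `x` -/
lemma rt_le {k m : ℕ} (hk : 12 ≤ k) {x : ℝ} (h0 : 0 ≤ x) (h1 : x ≤ NN k)
    (h : (2 * (m : ℝ) + 1) * st k ≤ ph k x) : rt (NN k) k m ≤ x := by
  have ha := st_pos (show 1 ≤ k by omega)
  have hN := NN_pos hk
  have hm0 : (0 : ℝ) ≤ m := Nat.cast_nonneg m
  have hp := ph_mem k x
  rw [rt_eq]
  conv_rhs => rw [← sin_sq_ph hk h0 h1]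
  apply mul_le_mul_of_nonneg_left _ hN.le
  have h2 : 0 ≤ Real.sin ((2 * (m : ℝ) + 1) * st k) := by
    apply Real.sin_nonneg_of_nonneg_of_le_pi
    · positivity
    · linarith [Real.pi_pos]
  have h3 : Real.sin ((2 * (m : ℝ) + 1) * st k) ≤ Real.sin (ph k x) := by
    apply Real.sin_le_sin_of_le_of_le_pi_div_two _ hp.2 h
    have : 0 ≤ (2 * (m : ℝ) + 1) * st k := by positivity
    linarith [Real.pi_pos]
  exact pow_le_pow_left₀ h2 h3 2

lemma le_rt {k m : ℕ} (hk : 12 ≤ k) (hm : m < k) {x : ℝ} (h0 : 0 ≤ x) (h1 : x ≤ NN k)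
    (h : ph k x ≤ (2 * (m : ℝ) + 1) * st k) : x ≤ rt (NN k) k m := by
  have ha := st_pos (show 1 ≤ k by omega)
  have hka := k_mul_st (show 1 ≤ k by omega)
  have hN := NN_pos hk
  have hm' : (m : ℝ) + 1 ≤ k := by exact_mod_cast hm
  have hp := ph_mem k x
  rw [rt_eq]
  nth_rewrite 1 [← sin_sq_ph hk h0 h1]
  apply mul_le_mul_of_nonneg_left _ hN.le
  have h2 : 0 ≤ Real.sin (ph k x) :=
    Real.sin_nonneg_of_nonneg_of_le_pi hp.1 (by linarith [Real.pi_pos])
  have h4 : (2 * (m : ℝ) + 1) * st k ≤ Real.pi / 2 := by nlinarith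
  have h3 : Real.sin (ph k x) ≤ Real.sin ((2 * (m : ℝ) + 1) * st k) :=
    Real.sin_le_sin_of_le_of_le_pi_div_two (by linarith [Real.pi_pos]) h4 h
  exact pow_le_pow_left₀ h2 h3 2

/-- the number of the lobe -/
noncomputable def lb (k : ℕ) (j : ℕ) : ℕ := ⌊(ph k j + st k) / (2 * st k)⌋₊

lemma lb_lower {k : ℕ} (hk : 12 ≤ k) (j m : ℕ) (h : m < lb k j) :
    (2 * (m : ℝ) + 1) * st k ≤ ph k j := by
  have ha := st_pos (show 1 ≤ k by omega)
  unfold lb at h
  have h1 : ((m + 1 : ℕ) : ℝ) ≤ (ph k j + st k) / (2 * st k) := by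
    rw [← Nat.le_floor_iff]
    · exact h
    · have := (ph_mem k j).1
      positivity
  rw [le_div_iff₀ (by positivity)] at h1
  push_cast at h1
  linarith

lemma lb_upper {k : ℕ} (hk : 12 ≤ k) (j m : ℕ) (h : lb k j ≤ m) :
    ph k j ≤ (2 * (m : ℝ) + 1) * st k := by
  have ha := st_pos (show 1 ≤ k by omega)
  unfold lb at h
  have h1 : (ph k j + st k) / (2 * st k) < ((m + 1 : ℕ) : ℝ) := by
    have h2 := Nat.lt_floor_add_one ((ph k j + st k) / (2 * st k))
    have h3 : ((⌊(ph k j + st k) / (2 * st k)⌋₊ : ℕ) : ℝ) ≤ m := by exact_mod_cast h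
    push_cast
    linarith
  rw [div_lt_iff₀ (by positivity)] at h1
  push_cast at h1
  linarith

lemma x1_bounds {k : ℕ} (hk : 12 ≤ k) :
    0.2463 ≤ rt (NN k) k 0 ∧ rt (NN k) k 0 ≤ 0.24675 := by
  have ha := st_pos (show 1 ≤ k by omega)
  have hka := k_mul_st (show 1 ≤ k by omega)
  have hk0 : (0 : ℝ) < k := by
    have : 0 < k := by omega
    exact_mod_cast this
  have h1 := sin_st_lower hk
  have h2 := (Real.sin_lt ha).le
  have h3 : rt (NN k) k 0 = 2 / 5 * ((k : ℝ) * Real.sin (st k)) ^ 2 := by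
    rw [rt_eq, NN]
    have : (2 * ((0 : ℕ) : ℝ) + 1) * st k = st k := by push_cast; ring
    rw [this]
    ring
  have h4 : (k : ℝ) * Real.sin (st k) ≤ Real.pi / 4 := by
    rw [← hka]
    exact mul_le_mul_of_nonneg_left h2 hk0.le
  have h5 : 0.9992 * (Real.pi / 4) ≤ (k : ℝ) * Real.sin (st k) := by
    rw [← hka]
    have := mul_le_mul_of_nonneg_left h1 hk0.le
    linarith
  have h6 := Real.pi_gt_d6
  have h7 := Real.pi_lt_d6
  rw [h3]
  constructor
  · nlinarith
  · nlinarith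

lemma rt_one {k : ℕ} (hk : 12 ≤ k) : 2 < rt (NN k) k 1 := by
  have ha := st_pos (show 1 ≤ k by omega)
  have hx := x1_bounds hk
  have hq := sin_sq_st_le hk
  have h0 : rt (NN k) k 0 = NN k * Real.sin (st k) ^ 2 := by
    rw [rt_eq]
    have : (2 * ((0 : ℕ) : ℝ) + 1) * st k = st k := by push_cast; ring
    rw [this]
  have h1 : rt (NN k) k 1 = rt (NN k) k 0 * (3 - 4 * Real.sin (st k) ^ 2) ^ 2 := by
    rw [h0, rt_eq]
    have : (2 * ((1 : ℕ) : ℝ) + 1) * st k = 3 * st k := by push_cast; ring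
    rw [this, Real.sin_three_mul]
    ring
  rw [h1]
  obtain ⟨q, hqd⟩ : ∃ q, q = Real.sin (st k) ^ 2 := ⟨_, rfl⟩
  have hq0 : 0 ≤ q := by rw [hqd]; positivity
  rw [← hqd] at hq ⊢
  nlinarith

/-- `F (x) (1 - x / x₁) = cos (2 k φ)` -/
lemma FF_mul {k : ℕ} (hk : 12 ≤ k) {x : ℝ} (h0 : 0 ≤ x) (h1 : x ≤ NN k) :
    FF k x * (1 - x / rt (NN k) k 0) = Real.cos (2 * k * ph k x) := by
  have hN := NN_pos hk
  have h2 := prod_rt hN k x
  rw [Finset.range_eq_Ico, Finset.prod_eq_prod_Ico_succ_bot (by omega)] at h2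
  have h3 : 1 - 2 * x / NN k = Real.cos (2 * ph k x) := by
    rw [Real.cos_two_mul, Real.cos_sq', ]
    have := sin_sq_ph hk h0 h1
    have h4 : x / NN k = Real.sin (ph k x) ^ 2 := by
      rw [div_eq_iff hN.ne']
      linarith
    rw [mul_div_assoc, h4]
    ring
  rw [h3, T_real_cos] at h2
  unfold FF
  rw [mul_comm]
  simp only [zero_add] at h2
  rw [h2]
  congr 1
  push_cast
  ring

lemma FF_zero (k : ℕ) : FF k 0 = 1 := by
  unfold FF
  simp

lemma FF_abs {k : ℕ} (hk : 12 ≤ k) {x : ℝ} (h0 : 1 ≤ x) (h1 : x ≤ NN k) :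
    |FF k x| * (x / rt (NN k) k 0 - 1) = |Real.cos (2 * k * ph k x)| := by
  have hx := x1_bounds hk
  rw [← FF_mul hk (by linarith) h1, abs_mul, abs_sub_comm]
  congr 1
  rw [abs_of_nonneg]
  have : 1 ≤ x / rt (NN k) k 0 := by
    rw [le_div_iff₀ (by linarith)]
    linarith
  linarith

/-- the angle of `3` -/
lemma cos_three {k : ℕ} (hk : 12 ≤ k) (h3N : 3 ≤ NN k) :
    |Real.cos (2 * k * ph k 3)| ≤ 0.7386 := by
  have hk0 : (12 : ℝ) ≤ k := by exact_mod_cast hk
  have hN := NN_pos hk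
  have hs2 := sin_sq_ph hk (show (0 : ℝ) ≤ 3 by norm_num) h3N
  have hp := ph_mem k 3
  have hsn : 0 ≤ Real.sin (ph k 3) :=
    Real.sin_nonneg_of_nonneg_of_le_pi hp.1 (by linarith [Real.pi_pos])
  have hks : ((k : ℝ) * Real.sin (ph k 3)) ^ 2 = 7.5 := by
    unfold NN at hs2
    linarith
  have hks0 : 0 ≤ (k : ℝ) * Real.sin (ph k 3) := by positivity
  obtain ⟨w, hw⟩ : ∃ w, w = 2 * (k : ℝ) * ph k 3 := ⟨_, rfl⟩
  -- lower bound
  have hlow : 5.477 ≤ w := by
    have h1 : Real.sin (ph k 3) ≤ ph k 3 := Real.sin_le hp.1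
    have h2 : (k : ℝ) * Real.sin (ph k 3) ≤ k * ph k 3 :=
      mul_le_mul_of_nonneg_left h1 (by linarith)
    have h3 : 2.7385 ≤ (k : ℝ) * Real.sin (ph k 3) := by
      by_contra hc
      push Not at hc
      nlinarith
    rw [hw]
    linarith
  -- upper bound
  have hup : w ≤ 5.538 := by
    by_contra hc
    push Not at hc
    have h1 : 2.769 / (k : ℝ) ≤ ph k 3 := by
      rw [div_le_iff₀ (by linarith)]
      rw [hw] at hc
      linarith
    have h2 : 0 < 2.769 / (k : ℝ) := by positivity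
    have h3 : Real.sin (2.769 / (k : ℝ)) ≤ Real.sin (ph k 3) :=
      Real.sin_le_sin_of_le_of_le_pi_div_two (by linarith [Real.pi_pos]) hp.2 h1
    have h4 := Real.sin_gt_sub_cube h2
    have h5 : 2.769 / (k : ℝ) ≤ 0.23075 := by
      rw [div_le_iff₀ (by linarith)]
      linarith
    obtain ⟨y, hy⟩ : ∃ y, y = 2.769 / (k : ℝ) := ⟨_, rfl⟩
    rw [← hy] at h2 h3 h4 h5
    have hky : (k : ℝ) * y = 2.769 := by
      rw [hy]
      field_simp
    have h6 : y ^ 3 ≤ 0.23075 ^ 2 * y := by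
      have : y ^ 2 ≤ 0.23075 ^ 2 := by nlinarith
      nlinarith
    have h7 : 0.9911 * y ≤ Real.sin (ph k 3) := by nlinarith
    have h8 : (k : ℝ) * (0.9911 * y) ≤ (k : ℝ) * Real.sin (ph k 3) :=
      mul_le_mul_of_nonneg_left h7 (by linarith)
    have h9 : 2.744 ≤ (k : ℝ) * Real.sin (ph k 3) := by nlinarith
    nlinarith
  rw [← hw]
  have h6 := Real.pi_gt_d6
  have h7 := Real.pi_lt_d6
  obtain ⟨v, hv⟩ : ∃ v, v = 2 * Real.pi - w := ⟨_, rfl⟩
  have hwv : w = 2 * Real.pi - v := by rw [hv]; ring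
  rw [hwv, Real.cos_two_pi_sub]
  have hv0 : 0.745 ≤ v := by rw [hv]; linarith
  have hv1 : v ≤ 0.81 := by rw [hv]; linarith
  rw [abs_of_nonneg (Real.cos_nonneg_of_neg_pi_div_two_le_of_le (by linarith) (by linarith))]
  have h8 : Real.cos v ≤ Real.cos 0.745 :=
    Real.cos_le_cos_of_nonneg_of_le_pi (by norm_num) (by linarith) hv0
  have h9 := Real.cos_bound (x := 0.745) (by rw [abs_of_nonneg] <;> norm_num)
  rw [abs_of_nonneg (show (0 : ℝ) ≤ 0.745 by norm_num)] at h9
  have h10 := (abs_le.mp h9).2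
  norm_num at h10
  norm_num at h8
  norm_num
  linarith

/-- the bounds for the lobes -/
noncomputable def mu (k m : ℕ) : ℝ :=
  if m ≤ 1 then FF k 1 else if m = 2 then 0.0662 else
    if m ≤ k then 1.042 * Real.sin (st k) ^ 2 /
      (Real.sin ((2 * (m : ℝ) + 1) * st k) * Real.sin ((2 * (m : ℝ) - 1) * st k)) else 0

lemma rt_ge_two {k m : ℕ} (hk : 12 ≤ k) (h1 : 1 ≤ m) (hm : m < k) : 2 ≤ rt (NN k) k m := by
  have ha := st_pos (show 1 ≤ k by omega)
  have hka := k_mul_st (show 1 ≤ k by omega)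
  have hN := NN_pos hk
  have hm' : (m : ℝ) + 1 ≤ k := by exact_mod_cast hm
  have hm1 : (1 : ℝ) ≤ m := by exact_mod_cast h1
  refine (rt_one hk).le.trans ?_
  rw [rt_eq, rt_eq]
  apply mul_le_mul_of_nonneg_left _ hN.le
  have h2 : 0 ≤ Real.sin ((2 * ((1 : ℕ) : ℝ) + 1) * st k) := by
    apply Real.sin_nonneg_of_nonneg_of_le_pi
    · positivity
    · push_cast
      nlinarith [Real.pi_pos]
  have h3 : Real.sin ((2 * ((1 : ℕ) : ℝ) + 1) * st k) ≤ Real.sin ((2 * (m : ℝ) + 1) * st k) := by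
    apply Real.sin_le_sin_of_le_of_le_pi_div_two
    · push_cast
      nlinarith [Real.pi_pos]
    · nlinarith [Real.pi_pos]
    · push_cast
      nlinarith
  exact pow_le_pow_left₀ h2 h3 2

lemma FF_one_pos {k : ℕ} (hk : 12 ≤ k) : 0 ≤ FF k 1 := by
  have hN := NN_pos hk
  unfold FF
  apply prod_nonneg_before
  · intro m hm
    rw [mem_Ico] at hm
    exact rt_pos hN hm.2
  · intro m hm
    rw [mem_Ico] at hm
    linarith [rt_ge_two hk hm.1 hm.2]

lemma NN_ge {k : ℕ} (hk : 12 ≤ k) : 57 ≤ NN k := by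
  have hk0 : (12 : ℝ) ≤ k := by exact_mod_cast hk
  unfold NN
  nlinarith

lemma FF_one_le {k : ℕ} (hk : 12 ≤ k) : FF k 1 ≤ 0.3277 := by
  have h1 := FF_abs hk (le_refl 1) (by linarith [NN_ge hk])
  have h2 := FF_one_pos hk
  have h3 : |Real.cos (2 * k * ph k 1)| ≤ 1 := Real.abs_cos_le_one _
  have hx := x1_bounds hk
  rw [abs_of_nonneg h2] at h1
  rw [← h1] at h3
  have h4 : 4.0526 ≤ 1 / rt (NN k) k 0 := by
    rw [le_div_iff₀ (by linarith)]
    nlinarith
  nlinarith

lemma mu_nonneg {k : ℕ} (hk : 12 ≤ k) (m : ℕ) : 0 ≤ mu k m := by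
  have ha := st_pos (show 1 ≤ k by omega)
  unfold mu
  split_ifs with h1 h2 h3
  · exact FF_one_pos hk
  · norm_num
  · have hm3 : 3 ≤ m := by omega
    have hm3' : (3 : ℝ) ≤ m := by exact_mod_cast hm3
    have hmk' : (m : ℝ) ≤ k := by exact_mod_cast h3
    have hA : 0 < Real.sin ((2 * (m : ℝ) - 1) * st k) := by
      apply sin_pos_of hk
      · nlinarith
      · apply mul_le_mul_of_nonneg_right _ ha.le
        linarith
    have hB : 0 < Real.sin ((2 * (m : ℝ) + 1) * st k) := by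
      apply sin_pos_of hk
      · nlinarith
      · apply mul_le_mul_of_nonneg_right _ ha.le
        linarith
    positivity
  · exact le_refl _

lemma lb_pos {k : ℕ} (hk : 12 ≤ k) (j : ℕ) (hj : 1 ≤ j) (hjN : (j : ℝ) ≤ NN k) :
    1 ≤ lb k j := by
  by_contra hc
  push Not at hc
  have hj' : (1 : ℝ) ≤ j := by exact_mod_cast hj
  have h1 := lb_upper hk j 0 (by omega)
  have h2 := le_rt hk (show 0 < k by omega) (show (0 : ℝ) ≤ j by linarith) hjN h1
  have := x1_bounds hk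
  linarith

lemma lb_le {k : ℕ} (hk : 12 ≤ k) (j : ℕ) : lb k j ≤ k := by
  by_contra hc
  push Not at hc
  have ha := st_pos (show 1 ≤ k by omega)
  have hka := k_mul_st (show 1 ≤ k by omega)
  have h1 := lb_lower hk j k hc
  have h2 := (ph_mem k j).2
  nlinarith

lemma ph_mono {k : ℕ} (hk : 12 ≤ k) {x y : ℝ} (h : x ≤ y) : ph k x ≤ ph k y := by
  unfold ph
  apply Real.monotone_arcsin
  apply Real.sqrt_le_sqrt
  exact div_le_div_of_nonneg_right h (NN_pos hk).le

lemma lb_mono {k : ℕ} (hk : 12 ≤ k) {i j : ℕ} (h : i ≤ j) : lb k i ≤ lb k j := by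
  have ha := st_pos (show 1 ≤ k by omega)
  have hij : (i : ℝ) ≤ j := by exact_mod_cast h
  unfold lb
  apply Nat.floor_le_floor
  apply div_le_div_of_nonneg_right _ (by positivity)
  linarith [ph_mono hk hij]

/-- the roots do not separate two points of a lobe -/
lemma no_root {k : ℕ} (hk : 12 ≤ k) {i j : ℕ} (hij : i ≤ j) (hjN : (j : ℝ) ≤ NN k)
    (h : lb k i = lb k j) : ∀ m ∈ Ico 1 k, rt (NN k) k m ≤ i ∨ (j : ℝ) ≤ rt (NN k) k m := by
  intro m hm
  rw [mem_Ico] at hm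
  have hij' : (i : ℝ) ≤ j := by exact_mod_cast hij
  rcases Nat.lt_or_ge m (lb k i) with h1 | h1
  · left
    exact rt_le hk (Nat.cast_nonneg _) (by linarith) (lb_lower hk i m h1)
  · right
    exact le_rt hk hm.2 (Nat.cast_nonneg _) hjN (lb_upper hk j m (by omega))

lemma bound {k : ℕ} (hk : 12 ≤ k) (j : ℕ) (hj : 1 ≤ j) (hjN : (j : ℝ) ≤ NN k) :
    |FF k j| ≤ mu k (lb k j) := by
  have hN := NN_pos hk
  have ha := st_pos (show 1 ≤ k by omega)
  have hx := x1_bounds hk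
  have hj' : (1 : ℝ) ≤ j := by exact_mod_cast hj
  have hL := lb_pos hk j hj hjN
  have hLk := lb_le hk j
  have habs := FF_abs hk hj' hjN
  unfold mu
  split_ifs with h1 h2
  · -- first lobe
    have hr : ∀ m ∈ Ico 1 k, (j : ℝ) ≤ rt (NN k) k m := by
      intro m hm
      rw [mem_Ico] at hm
      exact le_rt hk hm.2 (by linarith) hjN (lb_upper hk j m (by omega))
    have hp : ∀ m ∈ Ico 1 k, 0 < rt (NN k) k m := by
      intro m hm
      rw [mem_Ico] at hm
      exact rt_pos hN hm.2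
    have h3 : 0 ≤ FF k j := prod_nonneg_before _ _ hp _ hr
    rw [abs_of_nonneg h3]
    exact prod_anti _ _ hp 1 j hj' hr
  · -- second lobe
    have h3 := rt_le hk (show (0 : ℝ) ≤ j by linarith) hjN (lb_lower hk j 1 (by omega))
    have h4 := rt_one hk
    have h5 : 3 ≤ j := by
      have : (2 : ℝ) < j := by linarith
      have : 2 < j := by exact_mod_cast this
      omega
    have hinv : 4.0526 * (j : ℝ) ≤ j / rt (NN k) k 0 := by
      rw [le_div_iff₀ (by linarith)]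
      nlinarith
    rcases Nat.lt_or_ge 3 j with h6 | h6
    · have h7 : (4 : ℝ) ≤ j := by exact_mod_cast h6
      have h8 : |Real.cos (2 * k * ph k j)| ≤ 1 := Real.abs_cos_le_one _
      rw [← habs] at h8
      have h9 := abs_nonneg (FF k j)
      by_contra hc
      push Not at hc
      nlinarith
    · have h7 : j = 3 := by omega
      subst h7
      have h8 := cos_three hk (by linarith [NN_ge hk])
      push_cast at habs hinv ⊢
      rw [← habs] at h8
      have h9 := abs_nonneg (FF k 3)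
      by_contra hc
      push Not at hc
      nlinarith
  · -- the other lobes
    obtain ⟨m, hm⟩ : ∃ m, m = lb k j := ⟨_, rfl⟩
    rw [← hm] at h1 h2 hLk hL ⊢
    have hm3 : 3 ≤ m := by omega
    have hm3' : (3 : ℝ) ≤ m := by exact_mod_cast hm3
    have hmk' : (m : ℝ) ≤ k := by exact_mod_cast hLk
    have hA : 0 < Real.sin ((2 * (m : ℝ) - 1) * st k) := by
      apply sin_pos_of hk
      · nlinarith
      · apply mul_le_mul_of_nonneg_right _ ha.le
        linarith
    have hB : 0 < Real.sin ((2 * (m : ℝ) + 1) * st k) := by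
      apply sin_pos_of hk
      · nlinarith
      · apply mul_le_mul_of_nonneg_right _ ha.le
        linarith
    have h3 : (2 * (m : ℝ) - 1) * st k ≤ ph k j := by
      have := lb_lower hk j (m - 1) (by omega)
      rw [Nat.cast_sub (by omega)] at this
      push_cast at this
      have e : 2 * ((m : ℝ) - 1) + 1 = 2 * m - 1 := by ring
      rw [e] at this
      exact this
    have h4 := lobe hk hm3 hLk h3 (ph_mem k j).2
    rw [← habs] at h4
    have hs := sin_sq_ph hk (show (0 : ℝ) ≤ j by linarith) hjN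
    have hr0 : rt (NN k) k 0 = NN k * Real.sin (st k) ^ 2 := by
      rw [rt_eq]
      have : (2 * ((0 : ℕ) : ℝ) + 1) * st k = st k := by push_cast; ring
      rw [this]
    have hsa : 0 < Real.sin (st k) ^ 2 := by
      by_contra hc
      push Not at hc
      nlinarith
    have hval : (j : ℝ) / rt (NN k) k 0 - 1 =
        (Real.sin (ph k j) ^ 2 - Real.sin (st k) ^ 2) / Real.sin (st k) ^ 2 := by
      rw [hr0]
      nth_rewrite 1 [← hs]
      have hN' := hN.ne'
      have hsa' := hsa.ne'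
      rw [mul_div_mul_left _ _ hN', sub_div, div_self hsa']
    have hX : 0 < (j : ℝ) / rt (NN k) k 0 - 1 := by
      have : 1 < (j : ℝ) / rt (NN k) k 0 := by
        rw [lt_div_iff₀ (by linarith)]
        linarith
      linarith
    rw [hval] at hX h4
    obtain ⟨X, hXd⟩ : ∃ X, X = Real.sin (ph k j) ^ 2 - Real.sin (st k) ^ 2 := ⟨_, rfl⟩
    obtain ⟨S, hSd⟩ : ∃ S, S = Real.sin (st k) ^ 2 := ⟨_, rfl⟩
    obtain ⟨D, hDd⟩ : ∃ D, D = Real.sin ((2 * (m : ℝ) + 1) * st k) *
      Real.sin ((2 * (m : ℝ) - 1) * st k) := ⟨_, rfl⟩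
    have hD0 : 0 < D := by rw [hDd]; exact mul_pos hB hA
    rw [← hXd] at hX h4
    rw [← hSd] at hX h4 hsa ⊢
    rw [← hDd] at h4 ⊢
    have hX0 : 0 < X := by
      by_contra hc
      push Not at hc
      have : X / S ≤ 0 := div_nonpos_of_nonpos_of_nonneg hc hsa.le
      linarith
    rw [le_div_iff₀ hD0]
    have h5 : |FF k j| * D * X ≤ 1.042 * S * X := by
      have h6 : |FF k j| * (X / S) * D = |FF k j| * D * X / S := by ring
      rw [h6, div_le_iff₀ hsa] at h4
      linarith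
    exact le_of_mul_le_mul_right h5 hX0

/-- the total of the bounds -/
lemma mu_sum {k : ℕ} (hk : 12 ≤ k) : ∑ m ∈ Icc 1 k, mu k m ≤ FF k 1 + 0.0662 + 0.1042 := by
  have h1 : ∑ m ∈ Icc 1 k, mu k m = mu k 1 + (mu k 2 + ∑ m ∈ Ico 3 (k + 1), mu k m) := by
    have : Icc 1 k = Ico 1 (k + 1) := by
      ext x; simp only [mem_Icc, mem_Ico]; omega
    rw [this, Finset.sum_eq_sum_Ico_succ_bot (by omega),
      Finset.sum_eq_sum_Ico_succ_bot (by omega)]
  have h2 : mu k 1 = FF k 1 := by unfold mu; simp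
  have h3 : mu k 2 = 0.0662 := by unfold mu; simp
  have h4 : ∑ m ∈ Ico 3 (k + 1), mu k m = 0.521 * ∑ m ∈ Ico 3 (k + 1), 2 * Real.sin (st k) ^ 2 /
      (Real.sin ((2 * (m : ℝ) + 1) * st k) * Real.sin ((2 * (m : ℝ) - 1) * st k)) := by
    rw [mul_sum]
    apply sum_congr rfl
    intro m hm
    rw [mem_Ico] at hm
    unfold mu
    rw [if_neg (by omega), if_neg (by omega), if_pos (by omega)]
    ring
  have h5 := tele_le hk
  rw [h1, h2, h3, h4]
  linarith

/-- The polynomial `∏ (1 - X / rt m)`. -/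
noncomputable def PP (k : ℕ) : Polynomial ℝ :=
  ∏ m ∈ Ico 1 k, (1 - Polynomial.C (1 / rt (NN k) k m) * Polynomial.X)

lemma PP_eval (k : ℕ) (x : ℝ) : (PP k).eval x = FF k x := by
  unfold PP FF
  rw [Polynomial.eval_prod]
  apply prod_congr rfl
  intro m _
  simp
  ring

lemma PP_deg (k : ℕ) : (PP k).natDegree ≤ k - 1 := by
  unfold PP
  refine (Polynomial.natDegree_prod_le _ _).trans ?_
  calc ∑ m ∈ Ico 1 k, (1 - Polynomial.C (1 / rt (NN k) k m) * Polynomial.X :
        Polynomial ℝ).natDegree ≤ ∑ m ∈ Ico 1 k, 1 := by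
        apply sum_le_sum
        intro m _
        refine (Polynomial.natDegree_sub_le _ _).trans ?_
        rw [Polynomial.natDegree_one]
        have h := Polynomial.natDegree_C_mul_le (1 / rt (NN k) k m) (Polynomial.X : Polynomial ℝ)
        rw [Polynomial.natDegree_X] at h
        exact max_le (Nat.zero_le _) h
    _ = k - 1 := by simp

lemma diff_deg (p : Polynomial ℝ) (d : ℕ) (hp : p.natDegree ≤ d + 1) :
    (p - Polynomial.taylor 1 p).natDegree ≤ d := by
  rw [Polynomial.natDegree_le_iff_coeff_eq_zero]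
  intro n hn
  rw [Polynomial.coeff_sub]
  rcases Nat.lt_or_ge p.natDegree n with h | h
  · rw [Polynomial.coeff_eq_zero_of_natDegree_lt h,
      Polynomial.coeff_eq_zero_of_natDegree_lt (by rw [Polynomial.natDegree_taylor]; exact h)]
    ring
  · have : n = p.natDegree := by omega
    rw [this, Polynomial.coeff_taylor_natDegree]
    simp

/-- **The dominating polynomial.** -/
theorem big {k n : ℕ} (hk : 12 ≤ k) (hn : 5 * n ≤ 2 * k ^ 2) :
    ∃ p : Polynomial ℝ, p.natDegree < k - 1 ∧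
      ∑ j ∈ Ico 1 n, |p.eval ((j : ℕ) : ℝ)| < p.eval 0 := by
  refine ⟨PP k - Polynomial.taylor 1 (PP k), ?_, ?_⟩
  · have := diff_deg (PP k) (k - 2) (by have := PP_deg k; omega)
    omega
  · have hev : ∀ x : ℝ, (PP k - Polynomial.taylor 1 (PP k)).eval x = FF k x - FF k (x + 1) := by
      intro x
      rw [Polynomial.eval_sub, Polynomial.taylor_eval, PP_eval, PP_eval]
    simp only [hev]
    have h1 := FF_one_le hk
    rw [FF_zero, zero_add]
    rcases Nat.eq_zero_or_pos n with hn0 | hn0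
    · subst hn0
      simp only [show Ico 1 0 = (∅ : Finset ℕ) by rfl, sum_empty]
      linarith
    · have hnN : (n : ℝ) ≤ NN k := by
        have : (5 : ℝ) * n ≤ 2 * (k : ℝ) ^ 2 := by exact_mod_cast hn
        unfold NN
        linarith
      have hjN : ∀ j, j ≤ n → (j : ℝ) ≤ NN k := by
        intro j hj
        have : (j : ℝ) ≤ n := by exact_mod_cast hj
        linarith
      have hN := NN_pos hk
      have hp : ∀ m ∈ Ico 1 k, 0 < rt (NN k) k m := by
        intro m hm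
        rw [mem_Ico] at hm
        exact rt_pos hN hm.2
      have hv := variation n k hn0 (fun j => FF k (j : ℝ)) (lb k) (mu k)
        (fun i j _ h _ => lb_mono hk h)
        (fun j h1 h2 => lb_pos hk j h1 (hjN j h2)) (lb_le hk n) (mu_nonneg hk)
        (fun j h1 h2 => bound hk j h1 (hjN j h2))
        (fun i j _ h2 h3 h4 => prod_sign _ _ hp _ _ (by exact_mod_cast h2)
          (no_root hk h2 (hjN j h3) h4))
        (fun i j l _ h2 h3 h4 h5 => prod_qc _ _ hp _ _ _ (by exact_mod_cast h2)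
          (by exact_mod_cast h3) (no_root hk (by omega) (hjN l h4) h5))
      have hs := mu_sum hk
      simp only [Nat.cast_one] at hv
      rw [abs_of_nonneg (FF_one_pos hk)] at hv
      have hsum : ∑ j ∈ Ico 1 n, |FF k ((j : ℕ) : ℝ) - FF k (((j : ℕ) : ℝ) + 1)| =
          ∑ j ∈ Ico 1 n, |FF k ((j : ℕ) : ℝ) - FF k (((j + 1 : ℕ)) : ℝ)| := by
        apply sum_congr rfl
        intro j _
        push_cast
        rfl
      rw [hsum]
      linarith

end Pool.Agent.Work.MP_02e323_xi
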