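import Mathlib
import Pool.Agent.Work.MP_02e323_helper33.Pol

/-!
# A polynomial whose value at `0` dominates its values at `1, ..., n - 1` separates words
-/

set_option autoImplicit false

open Finset

namespace Pool.Agent.Work.MP_02e323_xi

open Pool.Agent.Work.MP_02e323_helper29 (occ)
open Pool.Agent.Work.MP_02e323_helper33

variable {α : Type*}

lemma isPol_length : IsPol 1 (fun w : List α => ((w.length : ℕ) : ℝ)) := by
  intro c w
  simp

lemma isPol_length_pow (i : ℕ) : IsPol i (fun w : List α => ((w.length : ℕ) : ℝ) ^ i) := by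
  induction i with
  | zero => intro w; simp
  | succ i ih =>
    have h := ih.mul (isPol_length (α := α))
    have e : (fun w : List α => ((w.length : ℕ) : ℝ) ^ (i + 1)) =
        (fun w : List α => ((w.length : ℕ) : ℝ) ^ i * ((w.length : ℕ) : ℝ)) := by
      funext w; rw [pow_succ]
    rw [e]; exact h

lemma isPol_eval {D : ℕ} (q : Polynomial ℝ) (hq : q.natDegree ≤ D) :
    IsPol D (fun w : List α => q.eval ((w.length : ℕ) : ℝ)) := by
  have e : (fun w : List α => q.eval ((w.length : ℕ) : ℝ)) =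
      (fun w : List α => ∑ i ∈ range (D + 1), q.coeff i * ((w.length : ℕ) : ℝ) ^ i) := by
    funext w
    rw [Polynomial.eval_eq_sum_range' (show q.natDegree < D + 1 by omega)]
  rw [e]
  apply IsPol.sum
  intro i hi
  rw [mem_range] at hi
  exact ((isPol_length_pow i).smul (q.coeff i)).mono (by omega)

/-- **Moment criterion.** -/
theorem det_of_poly [Fintype α] {t n : ℕ} (p : Polynomial ℝ) (hp : p.natDegree < t)
    (hsum : ∑ j ∈ Ico 1 n, |p.eval ((j : ℕ) : ℝ)| < p.eval 0) (v v' : Fin n → α)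
    (hs : ∀ u : List α, u.length ≤ t → occ u (List.ofFn v) = occ u (List.ofFn v')) : v = v' := by
  classical
  by_contra hne
  have hex : (univ.filter (fun i => v i ≠ v' i)).Nonempty := by
    by_contra hc
    rw [not_nonempty_iff_eq_empty, filter_eq_empty_iff] at hc
    apply hne
    funext i
    by_contra h
    exact hc (mem_univ i) h
  obtain ⟨i0, hi0, hmax⟩ := exists_max_image _ (fun i : Fin n => (i : ℕ)) hex
  rw [mem_filter] at hi0
  have hi0 := hi0.2
  have hmax' : ∀ i : Fin n, (i0 : ℕ) < i → v i = v' i := by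
    intro i hi
    by_contra h
    have := hmax i (mem_filter.mpr ⟨mem_univ _, h⟩)
    omega
  -- the polynomial, shifted
  obtain ⟨m, hm⟩ : ∃ m : ℕ, m = n - 1 - i0 := ⟨_, rfl⟩
  obtain ⟨g, hg⟩ : ∃ g : Polynomial ℝ, g = p.comp (Polynomial.X - Polynomial.C (m : ℝ)) :=
    ⟨_, rfl⟩
  have hgd : g.natDegree ≤ t - 1 := by
    rw [hg]
    refine (Polynomial.natDegree_comp_le).trans ?_
    rw [Polynomial.natDegree_X_sub_C]
    omega
  have hge : ∀ x : ℝ, g.eval x = p.eval (x - m) := by
    intro x; rw [hg]; simp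
  have hpol : IsPol t (J (v i0) (fun w : List α => g.eval ((w.length : ℕ) : ℝ))) := by
    have h := isPol_J (isPol_eval (α := α) g hgd) (v i0)
    exact h.mono (by omega)
  have heq := pol_eq_of_occ (R := ℝ) (w := List.ofFn v) (w' := List.ofFn v') (t := t)
    (fun u hu => by rw [hs u hu]) _ hpol
  rw [J_ofFn, J_ofFn] at heq
  simp only [List.length_drop, List.length_ofFn] at heq
  set d : Fin n → ℝ := fun i => (if v i = v i0 then 1 else 0) - (if v' i = v i0 then 1 else 0)
    with hd
  have hsum0 : ∑ i : Fin n, d i * g.eval (((n - ((i : ℕ) + 1) : ℕ)) : ℝ) = 0 := by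
    rw [← sub_eq_zero] at heq
    rw [← heq, ← sum_sub_distrib]
    apply sum_congr rfl
    intro i _
    simp only [hd]
    split_ifs <;> ring
  have hd0 : d i0 = 1 := by
    have h1 : ¬ (v' i0 = v i0) := fun h => hi0 h.symm
    simp [hd, h1]
  have hdabs : ∀ i, |d i| ≤ 1 := by
    intro i
    simp only [hd]
    split_ifs <;> simp
  have hdz : ∀ i : Fin n, (i0 : ℕ) < i → d i = 0 := by
    intro i hi
    simp only [hd, hmax' i hi]
    ring
  have hterm : ∀ i : Fin n, i ≠ i0 →
      |d i * g.eval (((n - ((i : ℕ) + 1) : ℕ)) : ℝ)| ≤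
        if (i : ℕ) < i0 then |p.eval (((i0 : ℕ) - (i : ℕ) : ℕ) : ℝ)| else 0 := by
    intro i hi
    by_cases h : (i : ℕ) < i0
    · rw [if_pos h, abs_mul, hge]
      have hb := i0.2
      have e : ((((n - ((i : ℕ) + 1) : ℕ)) : ℝ) - m) = (((i0 : ℕ) - (i : ℕ) : ℕ) : ℝ) := by
        rw [sub_eq_iff_eq_add, ← Nat.cast_add]
        congr 1
        omega
      rw [e]
      calc |d i| * |p.eval (((i0 : ℕ) - (i : ℕ) : ℕ) : ℝ)|
          ≤ 1 * |p.eval (((i0 : ℕ) - (i : ℕ) : ℕ) : ℝ)| :=
            mul_le_mul_of_nonneg_right (hdabs i) (abs_nonneg _)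
        _ = _ := one_mul _
    · rw [if_neg h]
      have hne' : (i : ℕ) ≠ i0 := fun e => hi (Fin.ext e)
      rw [hdz i (by omega)]
      simp
  have h0 : p.eval 0 = - ∑ i ∈ univ.erase i0, d i * g.eval (((n - ((i : ℕ) + 1) : ℕ)) : ℝ) := by
    rw [← add_sum_erase _ _ (mem_univ i0), hd0, one_mul, hge] at hsum0
    have e : ((((n - ((i0 : ℕ) + 1) : ℕ)) : ℝ) - m) = 0 := by
      rw [hm, sub_eq_zero]
      congr 1
      omega
    rw [e] at hsum0
    linarith
  have hle : p.eval 0 ≤ ∑ i : Fin n,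
      if (i : ℕ) < i0 then |p.eval (((i0 : ℕ) - (i : ℕ) : ℕ) : ℝ)| else 0 := by
    calc p.eval 0 ≤ |p.eval 0| := le_abs_self _
      _ = |∑ i ∈ univ.erase i0, d i * g.eval (((n - ((i : ℕ) + 1) : ℕ)) : ℝ)| := by
          rw [h0, abs_neg]
      _ ≤ ∑ i ∈ univ.erase i0, |d i * g.eval (((n - ((i : ℕ) + 1) : ℕ)) : ℝ)| :=
          abs_sum_le_sum_abs _ _
      _ ≤ ∑ i ∈ univ.erase i0,
          (if (i : ℕ) < i0 then |p.eval (((i0 : ℕ) - (i : ℕ) : ℕ) : ℝ)| else 0) :=
          sum_le_sum (fun i hi => hterm i (ne_of_mem_erase hi))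
      _ ≤ _ := by
          apply sum_le_sum_of_subset_of_nonneg (erase_subset _ _)
          intro i _ _
          split_ifs
          · exact abs_nonneg _
          · exact le_refl _
  have hre : (∑ i : Fin n,
      if (i : ℕ) < i0 then |p.eval (((i0 : ℕ) - (i : ℕ) : ℕ) : ℝ)| else 0) ≤
      ∑ j ∈ Ico 1 n, |p.eval ((j : ℕ) : ℝ)| := by
    rw [← sum_filter]
    have hinj : Set.InjOn (fun i : Fin n => (i0 : ℕ) - (i : ℕ))
        (univ.filter (fun i : Fin n => (i : ℕ) < i0) : Finset (Fin n)) := by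
      intro i hi j hj hij
      rw [mem_coe, mem_filter] at hi hj
      have hi := hi.2
      have hj := hj.2
      simp only at hij
      apply Fin.ext
      omega
    rw [← sum_image (f := fun j : ℕ => |p.eval ((j : ℕ) : ℝ)|) hinj]
    apply sum_le_sum_of_subset_of_nonneg
    · intro j hj
      rw [mem_image] at hj
      obtain ⟨i, hi, rfl⟩ := hj
      rw [mem_filter] at hi
      have := i0.2
      rw [mem_Ico]
      omega
    · intro _ _ _
      exact abs_nonneg _
  linarith

end Pool.Agent.Work.MP_02e323_xi
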