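import Mathlib

/-!
# Explicit dominating polynomials for `t ≤ 10`
-/

set_option autoImplicit false

open Finset

namespace Pool.Agent.Work.MP_02e323_xi

/-- value of the polynomial with the given coefficients -/
def ev : List ℤ → ℤ → ℤ
  | [], _ => 0
  | c :: l, x => c + x * ev l x

/-- `|ev l 1| + ... + |ev l m|` -/
def sm (l : List ℤ) : ℕ → ℤ
  | 0 => 0
  | m + 1 => sm l m + ((ev l ((m : ℤ) + 1)).natAbs : ℤ)

/-- the polynomial with the given coefficients -/
noncomputable def pl : List ℤ → Polynomial ℝ
  | [] => 0
  | c :: l => Polynomial.C (c : ℝ) + Polynomial.X * pl l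

lemma pl_eval (l : List ℤ) (x : ℤ) : (pl l).eval (x : ℝ) = (ev l x : ℝ) := by
  induction l with
  | nil => simp [pl, ev]
  | cons c l ih => simp [pl, ev, ih]

lemma pl_deg (l : List ℤ) : (pl l).natDegree ≤ l.length - 1 := by
  induction l with
  | nil => simp [pl]
  | cons c l ih =>
    unfold pl
    refine (Polynomial.natDegree_add_le _ _).trans (max_le ?_ ?_)
    · rw [Polynomial.natDegree_C]; exact Nat.zero_le _
    · rcases l with _ | ⟨d, l⟩
      · simp [pl]
      · refine (Polynomial.natDegree_mul_le).trans ?_
        rw [Polynomial.natDegree_X]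
        simp only [List.length_cons] at ih ⊢
        omega

lemma sm_eq (l : List ℤ) (m : ℕ) :
    ∑ j ∈ Ico 1 (m + 1), |(pl l).eval ((j : ℕ) : ℝ)| = (sm l m : ℝ) := by
  induction m with
  | zero => simp [sm]
  | succ m ih =>
    rw [sum_Ico_succ_top (by omega), ih]
    have h := pl_eval l ((m : ℤ) + 1)
    push_cast at h ⊢
    rw [h, sm]
    push_cast
    rfl

lemma small_of (l : List ℤ) (t n : ℕ) (ht : 1 ≤ t) (hl : l.length ≤ t) (hn : 1 ≤ n)
    (h : sm l (n - 1) < ev l 0) {n' : ℕ} (hn' : n' ≤ n) :
    ∃ p : Polynomial ℝ, p.natDegree < t ∧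
      ∑ j ∈ Ico 1 n', |p.eval ((j : ℕ) : ℝ)| < p.eval 0 := by
  refine ⟨pl l, ?_, ?_⟩
  · have := pl_deg l
    omega
  · have h0 := pl_eval l 0
    rw [Int.cast_zero] at h0
    rw [h0]
    obtain ⟨m, rfl⟩ : ∃ m, n = m + 1 := ⟨n - 1, by omega⟩
    calc ∑ j ∈ Ico 1 n', |(pl l).eval ((j : ℕ) : ℝ)|
        ≤ ∑ j ∈ Ico 1 (m + 1), |(pl l).eval ((j : ℕ) : ℝ)| := by
          apply sum_le_sum_of_subset_of_nonneg (Ico_subset_Ico_right hn')
          intro _ _ _
          exact abs_nonneg _
      _ = (sm l m : ℝ) := sm_eq l m
      _ < (ev l 0 : ℝ) := by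
          simp only [Nat.add_sub_cancel] at h
          exact_mod_cast h

/-- **The dominating polynomials for `t ≤ 10`.** -/
theorem small {t n : ℕ} (ht : 1 ≤ t) (ht10 : t ≤ 10) (hn : 5 * n ≤ 2 * (t + 1) ^ 2) :
    ∃ p : Polynomial ℝ, p.natDegree < t ∧
      ∑ j ∈ Ico 1 n, |p.eval ((j : ℕ) : ℝ)| < p.eval 0 := by
  interval_cases t
  · exact small_of [1]
      1 1 (by decide) (by decide) (by decide) (by decide +kernel) (by omega)
  · exact small_of [2, -1]
      2 3 (by decide) (by decide) (by decide) (by decide +kernel) (by omega)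
  · exact small_of [64, -38, 5]
      3 6 (by decide) (by decide) (by decide) (by decide +kernel) (by omega)
  · exact small_of [4096, -2523, 455, -25]
      4 10 (by decide) (by decide) (by decide) (by decide +kernel) (by omega)
  · exact small_of [262144, -177625, 38951, -3426, 105]
      5 14 (by decide) (by decide) (by decide) (by decide +kernel) (by omega)
  · exact small_of [16777216, -11812778, 2833403, -303461, 14932, -275]
      6 19 (by decide) (by decide) (by decide) (by decide +kernel) (by omega)
  · exact small_of [268435456, -192548526, 48502604, -5769561, 352191, -10669, 127]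
      7 25 (by decide) (by decide) (by decide) (by decide +kernel) (by omega)
  · exact small_of [549755813888, -393994952733, 101158003413, -12687321787, 865847749, -32819871, 649110,
      -5223]
      8 32 (by decide) (by decide) (by decide) (by decide +kernel) (by omega)
  · exact small_of [8796093022208, -6303398347216, 1640587470740, -213277799186, 15635002819, -676022917,
      17090505, -233547, 1332]
      9 40 (by decide) (by decide) (by decide) (by decide +kernel) (by omega)
  · exact small_of [9007199254740992, -6558679763491688, 1751033714951332, -237106493800546,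
      18537229135768, -886847470375, 26368079102, -475249884, 4753292, -20239]
      10 48 (by decide) (by decide) (by decide) (by decide +kernel) (by omega)

end Pool.Agent.Work.MP_02e323_xi
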