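import Mathlib
import Pool.Agent.Work.MP_02e323_xi.Det
import Pool.Agent.Work.MP_02e323_xi.Small
import Pool.Agent.Work.MP_02e323_xi.Big

/-!
# Words of length at most `2 (t + 1)² / 5` are determined by their `t`-spectra
-/

set_option autoImplicit false

open Finset

namespace Pool.Agent.Work.MP_02e323_xi

open Pool.Agent.Work.MP_02e323_helper29 (occ)
open Pool.Agent.Work.MP_02e323_helper33

/-- For `5 n ≤ 2 (t + 1)²` there is a real polynomial `p` of degree less than `t` with
`|p 1| + ... + |p (n - 1)| < p 0`. -/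
theorem exists_poly {t n : ℕ} (ht : 1 ≤ t) (hn : 5 * n ≤ 2 * (t + 1) ^ 2) :
    ∃ p : Polynomial ℝ, p.natDegree < t ∧
      ∑ j ∈ Ico 1 n, |p.eval ((j : ℕ) : ℝ)| < p.eval 0 := by
  rcases Nat.lt_or_ge 10 t with h | h
  · obtain ⟨p, h1, h2⟩ := big (k := t + 1) (n := n) (by omega) hn
    exact ⟨p, by simpa using h1, h2⟩
  · exact small ht h hn

theorem length_eq {α : Type*} [Fintype α] {t : ℕ} (ht : 1 ≤ t) (w w' : List α)
    (h : ∀ u : List α, u.length ≤ t → occ u w = occ u w') : w.length = w'.length := by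
  have := pol_eq_of_occ (R := ℝ) (w := w) (w' := w') (t := t)
    (fun u hu => by rw [h u hu]) _ ((isPol_length (α := α)).mono ht)
  exact_mod_cast this

theorem main {α : Type*} [Fintype α] {t : ℕ} (ht : 1 ≤ t) (w w' : List α)
    (hn : 5 * w.length ≤ 2 * (t + 1) ^ 2)
    (h : ∀ u : List α, u.length ≤ t → occ u w = occ u w') : w = w' := by
  have hl := length_eq ht w w' h
  obtain ⟨p, h1, h2⟩ := exists_poly ht hn
  obtain ⟨n, hn'⟩ : ∃ n, n = w.length := ⟨_, rfl⟩
  have e1 : w = List.ofFn (fun i : Fin n => w.get (i.cast hn')) := by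
    subst hn'
    simp
  have e2 : w' = List.ofFn (fun i : Fin n => w'.get (i.cast (hn'.trans hl))) := by
    apply List.ext_get
    · simp [hn', hl]
    · intro m h3 h4
      simp
  rw [← hn'] at h2
  rw [e1, e2] at h
  have := det_of_poly p h1 h2 _ _ h
  rw [e1, e2, this]

end Pool.Agent.Work.MP_02e323_xi
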