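import Mathlib

/-!
# Duality between dominated polynomials and bounded solutions of the moment equations
-/

set_option autoImplicit false

open Finset

namespace Pool.Agent.Work.MP_02e323_xi

/-- **Duality.** -/
theorem duality (t n : ℕ) (hn : 1 ≤ n) (h : ∀ f : Polynomial ℝ, f.natDegree < t →
    |f.eval 0| ≤ ∑ j ∈ Ico 1 n, |f.eval (j : ℝ)|) :
    ∃ d : ℕ → ℝ, d 0 = 1 ∧ (∀ j, |d j| ≤ 1) ∧
      ∀ i < t, ∑ j ∈ range n, d j * (j : ℝ) ^ i = 0 := by
  classical
  -- the space of values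
  obtain ⟨i0, hi0⟩ : ∃ i0 : Fin n, i0 = ⟨0, hn⟩ := ⟨_, rfl⟩
  let ev : Polynomial ℝ →ₗ[ℝ] (Fin n → ℝ) :=
    LinearMap.pi (fun j => (Polynomial.leval ((j : ℕ) : ℝ)))
  let W : Submodule ℝ (Fin n → ℝ) := (Polynomial.degreeLT ℝ t).map ev
  let Nn : (Fin n → ℝ) → ℝ := fun x => ∑ j ∈ univ.filter (fun j : Fin n => j ≠ i0), |x j|
  let F : (Fin n → ℝ) →ₗ.[ℝ] ℝ := (LinearMap.proj (R := ℝ) (φ := fun _ : Fin n => ℝ) i0).toPMap W
  have hsumN : ∀ x : ℕ → ℝ, ∑ j ∈ univ.filter (fun j : Fin n => j ≠ i0), |x (j : ℕ)| =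
      ∑ j ∈ Ico 1 n, |x j| := by
    intro x
    have h1 : ∑ j : Fin n, |x (j : ℕ)| = ∑ j ∈ range n, |x j| :=
      Fin.sum_univ_eq_sum_range (fun j => |x j|) n
    have h2 : ∑ j : Fin n, |x (j : ℕ)| = |x 0| +
        ∑ j ∈ univ.filter (fun j : Fin n => j ≠ i0), |x (j : ℕ)| := by
      rw [← sum_filter_add_sum_filter_not univ (fun j : Fin n => j = i0)]
      congr 1
      rw [filter_eq' univ i0, if_pos (mem_univ _), sum_singleton, hi0]
    have h3 : ∑ j ∈ range n, |x j| = |x 0| + ∑ j ∈ Ico 1 n, |x j| := by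
      rw [← sum_range_add_sum_Ico _ hn, sum_range_one]
    linarith
  obtain ⟨g, hg1, hg2⟩ := exists_extension_of_le_sublinear F Nn
    (by
      intro c hc x
      simp only [Nn]
      rw [mul_sum]
      apply sum_congr rfl
      intro j _
      rw [Pi.smul_apply, smul_eq_mul, abs_mul, abs_of_pos hc])
    (by
      intro x y
      simp only [Nn]
      rw [← sum_add_distrib]
      exact sum_le_sum (fun j _ => abs_add_le _ _))
    (by
      rintro ⟨x, hx⟩
      obtain ⟨p, hp, hpx⟩ := hx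
      have hp' : p.degree < t := Polynomial.mem_degreeLT.mp hp
      have e0 : F ⟨x, ⟨p, hp, hpx⟩⟩ = p.eval 0 := by
        have : F ⟨x, ⟨p, hp, hpx⟩⟩ = x i0 := rfl
        rw [this, ← hpx, hi0]
        simp [ev]
      have e1 : Nn x = ∑ j ∈ Ico 1 n, |p.eval (j : ℝ)| := by
        rw [← hsumN (fun j => p.eval (j : ℝ))]
        simp only [Nn]
        rw [← hpx]
        rfl
      rw [e0]
      change p.eval 0 ≤ Nn x
      rw [e1]
      by_cases hp0 : p = 0
      · rw [hp0]
        simp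
      · refine (le_abs_self _).trans (h p ?_)
        rwa [Polynomial.natDegree_lt_iff_degree_lt hp0])
  obtain ⟨b, hb⟩ : ∃ b : Fin n → ℝ, b = fun j => g (Pi.single j 1) := ⟨_, rfl⟩
  have hgx : ∀ x : Fin n → ℝ, g x = ∑ j, x j * b j := by
    intro x
    conv_lhs => rw [← Finset.univ_sum_single x]
    rw [map_sum]
    apply sum_congr rfl
    intro j _
    have : (Pi.single j (x j) : Fin n → ℝ) = x j • (Pi.single j 1 : Fin n → ℝ) := by
      rw [← Pi.single_smul]
      simp
    rw [this, map_smul, smul_eq_mul, hb]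
  have hNs : ∀ j : Fin n, Nn (Pi.single j 1) ≤ 1 ∧ Nn (-Pi.single j 1) ≤ 1 := by
    intro j
    have h1 : Nn (Pi.single j 1) ≤ 1 := by
      simp only [Nn]
      calc ∑ i ∈ univ.filter (fun i : Fin n => i ≠ i0), |(Pi.single j 1 : Fin n → ℝ) i|
          ≤ ∑ i : Fin n, |(Pi.single j 1 : Fin n → ℝ) i| :=
            sum_le_sum_of_subset_of_nonneg (filter_subset _ _) (fun _ _ _ => abs_nonneg _)
        _ = 1 := by
            rw [sum_eq_single j]
            · simp
            · intro i _ hi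
              simp [Pi.single_eq_of_ne hi]
            · intro h; exact absurd (mem_univ _) h
    refine ⟨h1, ?_⟩
    have : Nn (-Pi.single j 1) = Nn (Pi.single j 1) := by
      simp only [Nn, Pi.neg_apply, abs_neg]
    rw [this]
    exact h1
  have hb1 : ∀ j, |b j| ≤ 1 := by
    intro j
    rw [abs_le]
    have h1 := hg2 (Pi.single j 1)
    have h2 := hg2 (-Pi.single j 1)
    rw [map_neg] at h2
    rw [hb]
    obtain ⟨h3, h4⟩ := hNs j
    constructor <;> simp only <;> linarith
  have hb0 : b i0 = 0 := by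
    have h0 : Nn (Pi.single i0 1) = 0 := by
      simp only [Nn]
      apply sum_eq_zero
      intro i hi
      rw [mem_filter] at hi
      simp [Pi.single_eq_of_ne hi.2]
    have h1 := hg2 (Pi.single i0 1)
    have h2 := hg2 (-Pi.single i0 1)
    have h3 : Nn (-Pi.single i0 1) = 0 := by
      rw [← h0]
      simp only [Nn, Pi.neg_apply, abs_neg]
    rw [map_neg, h3] at h2
    rw [h0] at h1
    rw [hb]
    simp only
    linarith
  refine ⟨fun j => if j = 0 then 1 else if hj : j < n then -b ⟨j, hj⟩ else 0, ?_, ?_, ?_⟩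
  · simp
  · intro j
    by_cases h0 : j = 0
    · simp [h0]
    · by_cases hj : j < n
      · simp only [h0, hj, if_false, dif_pos, abs_neg]
        exact hb1 _
      · simp [h0, hj]
  · intro i hi
    have hp : (Polynomial.X ^ i : Polynomial ℝ) ∈ Polynomial.degreeLT ℝ t := by
      rw [Polynomial.mem_degreeLT, Polynomial.degree_X_pow]
      exact_mod_cast hi
    have hW : ev (Polynomial.X ^ i) ∈ W := ⟨_, hp, rfl⟩
    have h1 := hg1 ⟨ev (Polynomial.X ^ i), hW⟩
    have h2 : F ⟨ev (Polynomial.X ^ i), hW⟩ = ((0 : ℕ) : ℝ) ^ i := by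
      have : F ⟨ev (Polynomial.X ^ i), hW⟩ = ev (Polynomial.X ^ i) i0 := rfl
      rw [this, hi0]
      simp [ev]
    have h3 : g (ev (Polynomial.X ^ i)) = ∑ j : Fin n, ((j : ℕ) : ℝ) ^ i * b j := by
      rw [hgx]
      apply sum_congr rfl
      intro j _
      simp [ev]
    have h4 : g (ev (Polynomial.X ^ i)) = ((0 : ℕ) : ℝ) ^ i := by rw [← h2]; exact h1
    rw [h3] at h4
    have h5 : ∑ j ∈ range n, (if j = 0 then (1 : ℝ) else if hj : j < n then -b ⟨j, hj⟩ else 0) *
        (j : ℝ) ^ i = ∑ j : Fin n, (if j = i0 then (1 : ℝ) else -b j) * ((j : ℕ) : ℝ) ^ i := by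
      rw [← Fin.sum_univ_eq_sum_range (fun j => (if j = 0 then (1 : ℝ) else
        if hj : j < n then -b ⟨j, hj⟩ else 0) * (j : ℝ) ^ i) n]
      apply sum_congr rfl
      intro j _
      congr 1
      by_cases hj0 : j = i0
      · rw [if_pos hj0, if_pos]
        rw [hj0, hi0]
      · rw [if_neg hj0, if_neg, dif_pos j.2]
        intro h
        apply hj0
        rw [hi0]
        exact Fin.ext h
    rw [h5]
    have h6 : ∀ j : Fin n, (if j = i0 then (1 : ℝ) else -b j) * ((j : ℕ) : ℝ) ^ i =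
        (if j = i0 then ((j : ℕ) : ℝ) ^ i else 0) - ((j : ℕ) : ℝ) ^ i * b j := by
      intro j
      by_cases hj0 : j = i0
      · rw [if_pos hj0, if_pos hj0, hj0, hb0]
        ring
      · rw [if_neg hj0, if_neg hj0]
        ring
    simp only [h6]
    rw [sum_sub_distrib, h4, sum_ite_eq' univ i0, if_pos (mem_univ _), hi0]
    simp

end Pool.Agent.Work.MP_02e323_xi
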