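import Mathlib
import Pool.Agent.Work.MP_02e323_xi.Var
import Pool.Agent.Work.MP_02e323_xi.Prod
import Pool.Agent.Work.MP_02e323_xi.Cheb
import Pool.Agent.Work.MP_02e323_xi.Trig

/-!
# The function `T_k (1 - 2 x / N) / (1 - x / x₁)` for a general length `N`
-/

set_option autoImplicit false

open Finset Polynomial.Chebyshev

namespace Pool.Agent.Work.MP_02e323_xi

/-- the function `T_k (1 - 2 x / N) / (1 - x / x₁)` -/
noncomputable def FG (N : ℝ) (k : ℕ) (x : ℝ) : ℝ := ∏ m ∈ Ico 1 k, (1 - x / rt N k m)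

/-- the angle -/
noncomputable def pg (N : ℝ) (x : ℝ) : ℝ := Real.arcsin (√(x / N))

lemma rt_eqG (N : ℝ) (k m : ℕ) : rt N k m = N * Real.sin ((2 * (m : ℝ) + 1) * st k) ^ 2 := rfl

lemma pg_mem (N : ℝ) (x : ℝ) : 0 ≤ pg N x ∧ pg N x ≤ Real.pi / 2 :=
  ⟨Real.arcsin_nonneg.mpr (Real.sqrt_nonneg _), Real.arcsin_le_pi_div_two _⟩

lemma sin_pg {N : ℝ} (hN : 0 < N) {x : ℝ} (h1 : x ≤ N) :
    Real.sin (pg N x) = √(x / N) := by
  unfold pg
  apply Real.sin_arcsin
  · have := Real.sqrt_nonneg (x / N)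
    linarith
  · rw [Real.sqrt_le_iff]
    refine ⟨by norm_num, ?_⟩
    rw [one_pow]
    exact (div_le_one hN).mpr h1

lemma sin_sq_pg {N : ℝ} (hN : 0 < N) {x : ℝ} (h0 : 0 ≤ x) (h1 : x ≤ N) :
    N * Real.sin (pg N x) ^ 2 = x := by
  rw [sin_pg hN h1, Real.sq_sqrt (div_nonneg h0 hN.le)]
  field_simp

/-- a root is at most `x` iff its angle is at most the angle of `x` -/
lemma rt_leG {N : ℝ} (hN : 0 < N) {k m : ℕ} (hk : 1 ≤ k) {x : ℝ} (h0 : 0 ≤ x) (h1 : x ≤ N)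
    (h : (2 * (m : ℝ) + 1) * st k ≤ pg N x) : rt N k m ≤ x := by
  have ha := st_pos hk
  have hm0 : (0 : ℝ) ≤ m := Nat.cast_nonneg m
  have hp := pg_mem N x
  rw [rt_eqG]
  conv_rhs => rw [← sin_sq_pg hN h0 h1]
  apply mul_le_mul_of_nonneg_left _ hN.le
  have h2 : 0 ≤ Real.sin ((2 * (m : ℝ) + 1) * st k) := by
    apply Real.sin_nonneg_of_nonneg_of_le_pi
    · positivity
    · linarith [Real.pi_pos]
  have h3 : Real.sin ((2 * (m : ℝ) + 1) * st k) ≤ Real.sin (pg N x) := by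
    apply Real.sin_le_sin_of_le_of_le_pi_div_two _ hp.2 h
    have : 0 ≤ (2 * (m : ℝ) + 1) * st k := by positivity
    linarith [Real.pi_pos]
  exact pow_le_pow_left₀ h2 h3 2

lemma le_rtG {N : ℝ} (hN : 0 < N) {k m : ℕ} (hk : 1 ≤ k) (hm : m < k) {x : ℝ} (h0 : 0 ≤ x)
    (h1 : x ≤ N) (h : pg N x ≤ (2 * (m : ℝ) + 1) * st k) : x ≤ rt N k m := by
  have ha := st_pos hk
  have hka := k_mul_st hk
  have hm' : (m : ℝ) + 1 ≤ k := by exact_mod_cast hm
  have hp := pg_mem N x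
  rw [rt_eqG]
  nth_rewrite 1 [← sin_sq_pg hN h0 h1]
  apply mul_le_mul_of_nonneg_left _ hN.le
  have h2 : 0 ≤ Real.sin (pg N x) :=
    Real.sin_nonneg_of_nonneg_of_le_pi hp.1 (by linarith [Real.pi_pos])
  have h4 : (2 * (m : ℝ) + 1) * st k ≤ Real.pi / 2 := by nlinarith
  have h3 : Real.sin (pg N x) ≤ Real.sin ((2 * (m : ℝ) + 1) * st k) :=
    Real.sin_le_sin_of_le_of_le_pi_div_two (by linarith [Real.pi_pos]) h4 h
  exact pow_le_pow_left₀ h2 h3 2

/-- the number of the lobe -/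
noncomputable def lg (N : ℝ) (k : ℕ) (j : ℕ) : ℕ := ⌊(pg N j + st k) / (2 * st k)⌋₊

lemma lg_lower (N : ℝ) {k : ℕ} (hk : 1 ≤ k) (j m : ℕ) (h : m < lg N k j) :
    (2 * (m : ℝ) + 1) * st k ≤ pg N j := by
  have ha := st_pos hk
  unfold lg at h
  have h1 : ((m + 1 : ℕ) : ℝ) ≤ (pg N j + st k) / (2 * st k) := by
    rw [← Nat.le_floor_iff]
    · exact h
    · have := (pg_mem N j).1
      positivity
  rw [le_div_iff₀ (by positivity)] at h1
  push_cast at h1
  linarith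

lemma lg_upper (N : ℝ) {k : ℕ} (hk : 1 ≤ k) (j m : ℕ) (h : lg N k j ≤ m) :
    pg N j ≤ (2 * (m : ℝ) + 1) * st k := by
  have ha := st_pos hk
  unfold lg at h
  have h1 : (pg N j + st k) / (2 * st k) < ((m + 1 : ℕ) : ℝ) := by
    have h2 := Nat.lt_floor_add_one ((pg N j + st k) / (2 * st k))
    have h3 : ((⌊(pg N j + st k) / (2 * st k)⌋₊ : ℕ) : ℝ) ≤ m := by exact_mod_cast h
    push_cast
    linarith
  rw [div_lt_iff₀ (by positivity)] at h1
  push_cast at h1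
  linarith

/-- `F (x) (1 - x / x₁) = cos (2 k φ)` -/
lemma FG_mul {N : ℝ} (hN : 0 < N) {k : ℕ} (hk : 1 ≤ k) {x : ℝ} (h0 : 0 ≤ x) (h1 : x ≤ N) :
    FG N k x * (1 - x / rt N k 0) = Real.cos (2 * k * pg N x) := by
  have h2 := prod_rt hN k x
  rw [Finset.range_eq_Ico, Finset.prod_eq_prod_Ico_succ_bot (by omega)] at h2
  have h3 : 1 - 2 * x / N = Real.cos (2 * pg N x) := by
    rw [Real.cos_two_mul, Real.cos_sq', ]
    have := sin_sq_pg hN h0 h1
    have h4 : x / N = Real.sin (pg N x) ^ 2 := by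
      rw [div_eq_iff hN.ne']
      linarith
    rw [mul_div_assoc, h4]
    ring
  rw [h3, T_real_cos] at h2
  unfold FG
  rw [mul_comm]
  simp only [zero_add] at h2
  rw [h2]
  congr 1
  push_cast
  ring

lemma FG_zero (N : ℝ) (k : ℕ) : FG N k 0 = 1 := by
  unfold FG
  simp

lemma FG_abs {N : ℝ} (hN : 0 < N) {k : ℕ} (hk : 1 ≤ k) (hr : rt N k 0 ≤ 1) {x : ℝ} (h0 : 1 ≤ x)
    (h1 : x ≤ N) :
    |FG N k x| * (x / rt N k 0 - 1) = |Real.cos (2 * k * pg N x)| := by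
  have hr0 := rt_pos hN (show 0 < k by omega)
  rw [← FG_mul hN hk (by linarith) h1, abs_mul, abs_sub_comm]
  congr 1
  rw [abs_of_nonneg]
  have : 1 ≤ x / rt N k 0 := by
    rw [le_div_iff₀ (by linarith)]
    linarith
  linarith

lemma lg_pos {N : ℝ} (hN : 0 < N) {k : ℕ} (hk : 1 ≤ k) (hr : rt N k 0 < 1) (j : ℕ) (hj : 1 ≤ j)
    (hjN : (j : ℝ) ≤ N) : 1 ≤ lg N k j := by
  by_contra hc
  push Not at hc
  have hj' : (1 : ℝ) ≤ j := by exact_mod_cast hj
  have h1 := lg_upper N hk j 0 (by omega)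
  have h2 := le_rtG hN hk (show 0 < k by omega) (show (0 : ℝ) ≤ j by linarith) hjN h1
  linarith

lemma lg_le (N : ℝ) {k : ℕ} (hk : 1 ≤ k) (j : ℕ) : lg N k j ≤ k := by
  by_contra hc
  push Not at hc
  have ha := st_pos hk
  have hka := k_mul_st hk
  have h1 := lg_lower N hk j k hc
  have h2 := (pg_mem N j).2
  nlinarith

lemma pg_mono {N : ℝ} (hN : 0 < N) {x y : ℝ} (h : x ≤ y) : pg N x ≤ pg N y := by
  unfold pg
  apply Real.monotone_arcsin
  apply Real.sqrt_le_sqrt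
  exact div_le_div_of_nonneg_right h hN.le

lemma lg_mono {N : ℝ} (hN : 0 < N) {k : ℕ} (hk : 1 ≤ k) {i j : ℕ} (h : i ≤ j) :
    lg N k i ≤ lg N k j := by
  have ha := st_pos hk
  have hij : (i : ℝ) ≤ j := by exact_mod_cast h
  unfold lg
  apply Nat.floor_le_floor
  apply div_le_div_of_nonneg_right _ (by positivity)
  linarith [pg_mono hN hij]

/-- the roots do not separate two points of a lobe -/
lemma no_rootG {N : ℝ} (hN : 0 < N) {k : ℕ} (hk : 1 ≤ k) {i j : ℕ} (hij : i ≤ j)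
    (hjN : (j : ℝ) ≤ N)
    (h : lg N k i = lg N k j) : ∀ m ∈ Ico 1 k, rt N k m ≤ i ∨ (j : ℝ) ≤ rt N k m := by
  intro m hm
  rw [mem_Ico] at hm
  have hij' : (i : ℝ) ≤ j := by exact_mod_cast hij
  rcases Nat.lt_or_ge m (lg N k i) with h1 | h1
  · left
    exact rt_leG hN hk (Nat.cast_nonneg _) (by linarith) (lg_lower N hk i m h1)
  · right
    exact le_rtG hN hk hm.2 (Nat.cast_nonneg _) hjN (lg_upper N hk j m (by omega))

/-- The polynomial `∏ (1 - X / rt m)`. -/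
noncomputable def PG (N : ℝ) (k : ℕ) : Polynomial ℝ :=
  ∏ m ∈ Ico 1 k, (1 - Polynomial.C (1 / rt N k m) * Polynomial.X)

lemma PG_eval (N : ℝ) (k : ℕ) (x : ℝ) : (PG N k).eval x = FG N k x := by
  unfold PG FG
  rw [Polynomial.eval_prod]
  apply prod_congr rfl
  intro m _
  simp
  ring

lemma PG_deg (N : ℝ) (k : ℕ) : (PG N k).natDegree ≤ k - 1 := by
  unfold PG
  refine (Polynomial.natDegree_prod_le _ _).trans ?_
  calc ∑ m ∈ Ico 1 k, (1 - Polynomial.C (1 / rt N k m) * Polynomial.X :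
        Polynomial ℝ).natDegree ≤ ∑ m ∈ Ico 1 k, 1 := by
        apply sum_le_sum
        intro m _
        refine (Polynomial.natDegree_sub_le _ _).trans ?_
        rw [Polynomial.natDegree_one]
        have h := Polynomial.natDegree_C_mul_le (1 / rt N k m) (Polynomial.X : Polynomial ℝ)
        rw [Polynomial.natDegree_X] at h
        exact max_le (Nat.zero_le _) h
    _ = k - 1 := by simp

/-- `D_m = sin ((2 m + 1) a) sin ((2 m - 1) a) = sin² (2 m a) - sin² a` -/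
noncomputable def Dm (k m : ℕ) : ℝ :=
  Real.sin ((2 * (m : ℝ) + 1) * st k) * Real.sin ((2 * (m : ℝ) - 1) * st k)

lemma Dm_eq (k m : ℕ) : Dm k m = Real.sin (2 * m * st k) ^ 2 - Real.sin (st k) ^ 2 := by
  unfold Dm
  have e1 : (2 * (m : ℝ) + 1) * st k = 2 * m * st k + st k := by ring
  have e2 : (2 * (m : ℝ) - 1) * st k = 2 * m * st k - st k := by ring
  rw [e1, e2, Real.sin_add, Real.sin_sub]
  have h := Real.sin_sq_add_cos_sq (st k)
  have h' := Real.sin_sq_add_cos_sq (2 * m * st k)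
  have hc : Real.cos (st k) ^ 2 = 1 - Real.sin (st k) ^ 2 := by linarith
  have hc' : Real.cos (2 * m * st k) ^ 2 = 1 - Real.sin (2 * m * st k) ^ 2 := by linarith
  have : (Real.sin (2 * m * st k) * Real.cos (st k) + Real.cos (2 * m * st k) * Real.sin (st k)) *
      (Real.sin (2 * m * st k) * Real.cos (st k) - Real.cos (2 * m * st k) * Real.sin (st k)) =
      Real.sin (2 * m * st k) ^ 2 * Real.cos (st k) ^ 2 -
        Real.cos (2 * m * st k) ^ 2 * Real.sin (st k) ^ 2 := by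
    ring
  rw [this, hc, hc']
  ring

lemma Dm_pos {k m : ℕ} (hk : 12 ≤ k) (hm : 1 ≤ m) (hmk : m ≤ k) : 0 < Dm k m := by
  have ha := st_pos (show 1 ≤ k by omega)
  have hka := k_mul_st (show 1 ≤ k by omega)
  have hm1 : (1 : ℝ) ≤ m := by exact_mod_cast hm
  have hmk' : (m : ℝ) ≤ k := by exact_mod_cast hmk
  unfold Dm
  apply mul_pos
  · apply sin_pos_of hk
    · positivity
    · apply mul_le_mul_of_nonneg_right _ ha.le
      linarith
  · apply sin_pos_of hk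
    · have : 0 < 2 * (m : ℝ) - 1 := by linarith
      positivity
    · apply mul_le_mul_of_nonneg_right _ ha.le
      linarith

/-- `sin² (2 m a) - sin² φ ≤ 2 sin (2 m a) (2 m a - φ)` -/
lemma sin_sq_diff {A φ : ℝ} (h0 : 0 ≤ φ) (h1 : φ ≤ A) (hA : A ≤ Real.pi / 2) :
    Real.sin A ^ 2 - Real.sin φ ^ 2 ≤ 2 * Real.sin A * (A - φ) := by
  have hpi := Real.pi_pos
  have hs : Real.sin φ ≤ Real.sin A :=
    Real.sin_le_sin_of_le_of_le_pi_div_two (by linarith) hA h1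
  have hs0 : 0 ≤ Real.sin φ := Real.sin_nonneg_of_nonneg_of_le_pi h0 (by linarith)
  have hd : Real.sin A - Real.sin φ ≤ A - φ := by
    have h3 : |Real.sin A - Real.sin φ| ≤ |A - φ| := by
      have := Real.abs_sin_sub_sin_le A φ
      exact this
    rw [abs_of_nonneg (by linarith), abs_of_nonneg (by linarith)] at h3
    exact h3
  have h4 : Real.sin A ^ 2 - Real.sin φ ^ 2 = (Real.sin A + Real.sin φ) * (Real.sin A - Real.sin φ) := by
    ring
  rw [h4]
  calc (Real.sin A + Real.sin φ) * (Real.sin A - Real.sin φ)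
      ≤ (2 * Real.sin A) * (Real.sin A - Real.sin φ) :=
        mul_le_mul_of_nonneg_right (by linarith) (by linarith)
    _ ≤ (2 * Real.sin A) * (A - φ) := mul_le_mul_of_nonneg_left hd (by linarith)

/-- The bound on the lobe number `m`, general form. -/
lemma lobeG {k m : ℕ} (hk : 12 ≤ k) (hm2 : 1 ≤ m) (hmk : m ≤ k) {φ σ C : ℝ} (hC1 : 1 ≤ C)
    (h1 : (2 * (m : ℝ) - 1) * st k ≤ φ) (h2 : φ ≤ Real.pi / 2)
    (hσ : Real.sin (2 * m * st k) ≤ σ * (k * Dm k m))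
    (hC : ∀ u, u = 2 * k * (2 * m * st k - φ) → 0 ≤ u → u ≤ Real.pi / 2 →
      Real.cos u ≤ C * (1 - σ * u)) :
    |Real.cos (2 * k * φ)| * Dm k m ≤ C * (Real.sin φ ^ 2 - Real.sin (st k) ^ 2) := by
  have ha := st_pos (show 1 ≤ k by omega)
  have hka := k_mul_st (show 1 ≤ k by omega)
  have hk0 : (0 : ℝ) < k := by
    have : 0 < k := by omega
    exact_mod_cast this
  have hm3' : (1 : ℝ) ≤ m := by exact_mod_cast hm2
  have hmk' : (m : ℝ) ≤ k := by exact_mod_cast hmk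
  have hpi := Real.pi_pos
  have hma : 2 * (m : ℝ) * st k ≤ Real.pi / 2 := by nlinarith
  have hDp := Dm_pos hk hm2 hmk
  have hD := Dm_eq k m
  obtain ⟨a, hadef⟩ : ∃ a, a = st k := ⟨_, rfl⟩
  rw [← hadef] at ha hka hma h1 hσ hC hD ⊢
  have hma0 : 0 < 2 * (m : ℝ) * a := by positivity
  have hφ0 : 0 ≤ φ := by
    have : 0 ≤ (2 * (m : ℝ) - 1) * a := mul_nonneg (by linarith) ha.le
    linarith
  rcases le_or_gt (2 * (m : ℝ) * a) φ with hcase | hcase
  · -- right of the peak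
    have hmono : Real.sin (2 * m * a) ≤ Real.sin φ :=
      Real.sin_le_sin_of_le_of_le_pi_div_two (by linarith) h2 hcase
    have hs2 : 0 ≤ Real.sin (2 * m * a) :=
      Real.sin_nonneg_of_nonneg_of_le_pi hma0.le (by linarith)
    have h3 : Real.sin (2 * m * a) ^ 2 ≤ Real.sin φ ^ 2 := pow_le_pow_left₀ hs2 hmono 2
    have h4 : |Real.cos (2 * k * φ)| ≤ 1 := Real.abs_cos_le_one _
    have h6 := mul_le_mul_of_nonneg_right h4 hDp.le
    have h7 : Dm k m ≤ Real.sin φ ^ 2 - Real.sin a ^ 2 := by rw [hD]; linarith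
    have h8 : 1 * (Real.sin φ ^ 2 - Real.sin a ^ 2) ≤ C * (Real.sin φ ^ 2 - Real.sin a ^ 2) :=
      mul_le_mul_of_nonneg_right hC1 (by linarith)
    linarith
  · -- left of the peak
    obtain ⟨u, hu⟩ : ∃ u, u = 2 * k * (2 * m * a - φ) := ⟨_, rfl⟩
    have hu0 : 0 ≤ u := by
      rw [hu]
      have : 0 ≤ 2 * m * a - φ := by linarith
      positivity
    have hδa : 2 * m * a - φ ≤ a := by linarith
    have hu1 : u ≤ Real.pi / 2 := by
      rw [hu]
      have : (k : ℝ) * (2 * m * a - φ) ≤ k * a := mul_le_mul_of_nonneg_left hδa hk0.le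
      linarith
    have hcos : |Real.cos (2 * k * φ)| = Real.cos u := by
      have e : 2 * (k : ℝ) * φ = m * Real.pi - u := by
        rw [hu]
        have : (m : ℝ) * Real.pi = 4 * m * (k * a) := by rw [hka]; ring
        rw [this]
        ring
      rw [e, Real.cos_nat_mul_pi_sub, abs_mul, abs_pow, abs_neg, abs_one, one_pow, one_mul]
      exact abs_of_nonneg (Real.cos_nonneg_of_neg_pi_div_two_le_of_le (by linarith) hu1)
    have hdiff := sin_sq_diff hφ0 hcase.le hma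
    have hlin := hC u hu hu0 hu1
    rw [hcos]
    have h3 := mul_le_mul_of_nonneg_right hlin hDp.le
    -- 2 sin(2ma) δ ≤ σ u D
    have h4 : 2 * Real.sin (2 * m * a) * (2 * m * a - φ) ≤ σ * u * Dm k m := by
      have h5 := mul_le_mul_of_nonneg_right hσ (show 0 ≤ 2 * (2 * m * a - φ) by linarith)
      rw [hu]
      linarith
    have h6 : Dm k m * (1 - σ * u) ≤ Real.sin φ ^ 2 - Real.sin a ^ 2 := by
      linarith
    have h7 := mul_le_mul_of_nonneg_left h6 (show 0 ≤ C by linarith)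
    linarith

/-- The telescoping sum. -/
lemma tele2 {k : ℕ} (hk : 12 ≤ k) : ∀ M, 2 ≤ M → M ≤ k + 1 →
    ∑ m ∈ Ico 2 M, 2 * Real.sin (st k) ^ 2 / Dm k m =
    Real.sin (st k) / Real.cos (st k) * (Real.cos (3 * st k) / Real.sin (3 * st k) -
      Real.cos ((2 * (M : ℝ) - 1) * st k) / Real.sin ((2 * (M : ℝ) - 1) * st k)) := by
  intro M hM
  induction M, hM using Nat.le_induction with
  | base =>
    intro _
    have e : (2 * ((2 : ℕ) : ℝ) - 1) * st k = 3 * st k := by push_cast; ring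
    rw [e]
    simp
  | succ M hM ih =>
    intro hMk
    have ha := st_pos (show 1 ≤ k by omega)
    have hcosa := cos_st_lower hk
    have hM3 : (2 : ℝ) ≤ M := by exact_mod_cast hM
    have hMk' : (M : ℝ) ≤ k := by
      have : M ≤ k := by omega
      exact_mod_cast this
    rw [sum_Ico_succ_top hM, ih (by omega)]
    unfold Dm
    have hA : 0 < Real.sin ((2 * (M : ℝ) - 1) * st k) := by
      apply sin_pos_of hk
      · nlinarith
      · apply mul_le_mul_of_nonneg_right _ ha.le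
        linarith
    have hB : 0 < Real.sin ((2 * (M : ℝ) + 1) * st k) := by
      apply sin_pos_of hk
      · nlinarith
      · apply mul_le_mul_of_nonneg_right _ ha.le
        linarith
    have e : (2 * ((M + 1 : ℕ) : ℝ) - 1) * st k = (2 * (M : ℝ) + 1) * st k := by
      push_cast; ring
    rw [e]
    have hsub : Real.sin (2 * st k) = Real.sin ((2 * (M : ℝ) + 1) * st k) *
        Real.cos ((2 * (M : ℝ) - 1) * st k) - Real.cos ((2 * (M : ℝ) + 1) * st k) *
        Real.sin ((2 * (M : ℝ) - 1) * st k) := by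
      rw [← Real.sin_sub]
      congr 1
      ring
    rw [Real.sin_two_mul] at hsub
    have hc0 : Real.cos (st k) ≠ 0 := by
      intro h
      rw [h] at hcosa
      norm_num at hcosa
    have hA' := hA.ne'
    have hB' := hB.ne'
    obtain ⟨A, hAd⟩ : ∃ A, A = Real.sin ((2 * (M : ℝ) - 1) * st k) := ⟨_, rfl⟩
    obtain ⟨B, hBd⟩ : ∃ B, B = Real.sin ((2 * (M : ℝ) + 1) * st k) := ⟨_, rfl⟩
    obtain ⟨A1, hA1⟩ : ∃ A1, A1 = Real.cos ((2 * (M : ℝ) - 1) * st k) := ⟨_, rfl⟩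
    obtain ⟨B1, hB1⟩ : ∃ B1, B1 = Real.cos ((2 * (M : ℝ) + 1) * st k) := ⟨_, rfl⟩
    obtain ⟨s, hs⟩ : ∃ s, s = Real.sin (st k) := ⟨_, rfl⟩
    obtain ⟨c, hc⟩ : ∃ c, c = Real.cos (st k) := ⟨_, rfl⟩
    rw [← hAd, ← hBd, ← hA1, ← hB1, ← hs, ← hc] at hsub
    rw [← hAd] at hA'
    rw [← hBd] at hB'
    rw [← hc] at hc0
    rw [← hAd, ← hBd, ← hA1, ← hB1, ← hs, ← hc]
    have hterm : 2 * s ^ 2 / (B * A) = s / c * (A1 / A - B1 / B) := by
      rw [div_sub_div _ _ hA' hB', div_mul_div_comm, div_eq_div_iff (by positivity) (by positivity)]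
      linear_combination (s * A * B) * hsub
    rw [hterm]
    ring

lemma tele2_le {k : ℕ} (hk : 12 ≤ k) :
    ∑ m ∈ Ico 2 (k + 1), 2 * Real.sin (st k) ^ 2 / Dm k m ≤ 1 / 3 + 1.01 * st k ^ 2 := by
  rw [tele2 hk (k + 1) (by omega) (le_refl _)]
  have ha := st_pos (show 1 ≤ k by omega)
  have hka := k_mul_st (show 1 ≤ k by omega)
  have hcosa := cos_st_lower hk
  have hq := sin_sq_st_le hk
  have hsle : Real.sin (st k) ≤ st k := Real.sin_le ha.le
  have hsina : 0 < Real.sin (st k) := sin_pos_of hk ha (by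
    have : (0 : ℝ) ≤ k := Nat.cast_nonneg k
    nlinarith)
  have e : (2 * ((k + 1 : ℕ) : ℝ) - 1) * st k = st k + Real.pi / 2 := by
    push_cast
    linear_combination 2 * hka
  rw [e, Real.cos_add_pi_div_two, Real.sin_add_pi_div_two, Real.sin_three_mul, Real.cos_three_mul]
  have hcs := Real.sin_sq_add_cos_sq (st k)
  obtain ⟨s, hs⟩ : ∃ s, s = Real.sin (st k) := ⟨_, rfl⟩
  obtain ⟨c, hc⟩ : ∃ c, c = Real.cos (st k) := ⟨_, rfl⟩
  rw [← hs] at hq hsina hcs hsle ⊢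
  rw [← hc] at hcosa hcs ⊢
  have hc0 : 0 < c := by linarith
  have hc2 : c ^ 2 = 1 - s ^ 2 := by linarith
  have h1 : s / c * ((4 * c ^ 3 - 3 * c) / (3 * s - 4 * s ^ 3) - -s / c) =
      (4 * c ^ 2 - 3) / (3 - 4 * s ^ 2) + s ^ 2 / c ^ 2 := by
    have h3 : (3 - 4 * s ^ 2) ≠ 0 := by
      intro h
      linarith
    have h4 : 3 * s - 4 * s ^ 3 = s * (3 - 4 * s ^ 2) := by ring
    rw [h4]
    field_simp
    ring
  rw [h1]
  have h2 : (4 * c ^ 2 - 3) / (3 - 4 * s ^ 2) ≤ 1 / 3 := by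
    rw [div_le_div_iff₀ (by linarith) (by norm_num), hc2]
    have := sq_nonneg s
    linarith
  have h3 : s ^ 2 / c ^ 2 ≤ 1.01 * st k ^ 2 := by
    rw [div_le_iff₀ (by positivity)]
    have h5 : s ^ 2 ≤ st k ^ 2 := pow_le_pow_left₀ hsina.le hsle 2
    have h6 : 0.9957 ≤ c ^ 2 := by rw [hc2]; linarith
    have h7 : 1.01 * st k ^ 2 * 0.9957 ≤ 1.01 * st k ^ 2 * c ^ 2 :=
      mul_le_mul_of_nonneg_left h6 (by positivity)
    have h8 : 0 ≤ st k ^ 2 := by positivity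
    linarith
  linarith

end Pool.Agent.Work.MP_02e323_xi
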