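import Mathlib
import Pool.Agent.Work.MP_02e323_xi.GenN

/-!
# Trigonometric estimates for `N = (1 - 1 / k) 4 k² / π²`, `9 M² ≤ k ≤ 9 (M + 1)²`
-/

set_option autoImplicit false

open Finset

namespace Pool.Agent.Work.MP_02e323_xi

lemma cos_le_four {u : ℝ} (h0 : 0 ≤ u) (h1 : u ≤ 2) :
    Real.cos u ≤ 1 - u * (u / 2 - u ^ 3 / 24) := by
  rcases eq_or_lt_of_le h0 with h | h
  · rw [← h]; simp
  · have h2 := (Real.sin_gt_sub_cube (show 0 < u / 2 by linarith)).le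
    have h3 : Real.cos u = 1 - 2 * Real.sin (u / 2) ^ 2 := by
      have e : u = 2 * (u / 2) := by ring
      conv_lhs => rw [e]
      rw [Real.cos_two_mul, Real.cos_sq']
      ring
    have h4 : 0 ≤ u / 2 - (u / 2) ^ 3 / 6 := by
      have h5 : (u / 2) ^ 3 = u / 2 * (u / 2) ^ 2 := by ring
      have h6 : (u / 2) ^ 2 ≤ 1 := by
        have : u / 2 ≤ 1 := by linarith
        exact pow_le_one₀ (by linarith) this
      have h7 : u / 2 * (u / 2) ^ 2 ≤ u / 2 * 1 := mul_le_mul_of_nonneg_left h6 (by linarith)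
      rw [h5]
      linarith
    have h5 : (u / 2 - (u / 2) ^ 3 / 6) ^ 2 ≤ Real.sin (u / 2) ^ 2 := pow_le_pow_left₀ h4 h2 2
    rw [h3]
    have h6 : (u / 2 - (u / 2) ^ 3 / 6) ^ 2 = u ^ 2 / 4 - u ^ 4 / 48 + u ^ 6 / 2304 := by ring
    have h7 : 0 ≤ u ^ 6 := by positivity
    rw [h6] at h5
    have h8 : u * (u / 2 - u ^ 3 / 24) = u ^ 2 / 2 - u ^ 4 / 24 := by ring
    rw [h8]
    linarith

/-- monotonicity of `u / 2 - u³ / 24` on `[0, 2]` -/
lemma f_mono {u v : ℝ} (h0 : 0 ≤ v) (h1 : v ≤ u) (h2 : u ≤ 2) :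
    v / 2 - v ^ 3 / 24 ≤ u / 2 - u ^ 3 / 24 := by
  have h3 : u / 2 - u ^ 3 / 24 - (v / 2 - v ^ 3 / 24) =
      (u - v) * (12 - (u ^ 2 + u * v + v ^ 2)) / 24 := by ring
  have hu2 : u ^ 2 ≤ 4 := by
    have : u ^ 2 ≤ 2 ^ 2 := pow_le_pow_left₀ (by linarith) h2 2
    linarith
  have hv2 : v ^ 2 ≤ 4 := by
    have : v ^ 2 ≤ 2 ^ 2 := pow_le_pow_left₀ h0 (by linarith) 2
    linarith
  have huv : u * v ≤ 2 * 2 := mul_le_mul h2 (by linarith) h0 (by norm_num)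
  have h4 : 0 ≤ (u - v) * (12 - (u ^ 2 + u * v + v ^ 2)) :=
    mul_nonneg (by linarith) (by linarith)
  linarith

lemma cos_le_sig {u σ : ℝ} (h0 : 0 ≤ u) (h1 : u ≤ Real.pi / 2) (hσ0 : 0 ≤ σ) (hσ : σ ≤ 0.2234) :
    Real.cos u ≤ (1 + 0.7 * σ ^ 2) * (1 - σ * u) := by
  have hpiu := Real.pi_lt_d6
  have hu : u ≤ 1.5708 := by linarith
  have h2 := cos_le_four h0 (by linarith)
  have h3 : u ^ 2 ≤ 2.4675 := by
    have : u ^ 2 ≤ 1.5708 ^ 2 := pow_le_pow_left₀ h0 hu 2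
    norm_num at this ⊢
    linarith
  have h4 : u ^ 2 * u ^ 2 ≤ u ^ 2 * 2.4675 := mul_le_mul_of_nonneg_left h3 (sq_nonneg u)
  have e0 : u * (u / 2 - u ^ 3 / 24) = u ^ 2 / 2 - u ^ 2 * u ^ 2 / 24 := by ring
  rw [e0] at h2
  have h5 : σ ^ 2 ≤ 0.05 := by
    have : σ ^ 2 ≤ 0.2234 ^ 2 := pow_le_pow_left₀ hσ0 hσ 2
    norm_num at this ⊢
    linarith
  have h8 : 0 ≤ σ * u := mul_nonneg hσ0 h0
  have h6 : 0.7 * σ ^ 2 * (σ * u) ≤ 0.035 * (σ * u) := by
    apply mul_le_mul_of_nonneg_right _ h8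
    linarith
  have h7 : 0 ≤ (0.8366 * σ - 0.63 * u) ^ 2 := sq_nonneg _
  have h9 : 0 ≤ σ ^ 2 := sq_nonneg _
  have h10 : 0 ≤ u ^ 2 := sq_nonneg _
  have e1 : (1 + 0.7 * σ ^ 2) * (1 - σ * u) =
      1 - σ * u + 0.7 * σ ^ 2 - 0.7 * σ ^ 2 * (σ * u) := by ring
  have e2 : (0.8366 * σ - 0.63 * u) ^ 2 =
      0.69989956 * σ ^ 2 - 1.054116 * (σ * u) + 0.3969 * u ^ 2 := by ring
  rw [e1]
  rw [e2] at h7
  linarith

/-- the parameters -/
structure Par (M k : ℕ) (N : ℝ) : Prop where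
  hM : 2 ≤ M
  hk0 : 76 ≤ k
  hk : 9 * M ^ 2 ≤ k
  hk2 : k ≤ 9 * (M + 1) ^ 2
  hN : 4 * st k ^ 2 * N = 1 - 1 / (k : ℝ)

namespace Par

variable {M k : ℕ} {N : ℝ}

lemma k12 (h : Par M k N) : 12 ≤ k := by
  have h1 := h.hk0
  omega

lemma k1 (h : Par M k N) : 1 ≤ k := by have := h.k12; omega

lemma kr (h : Par M k N) : (76 : ℝ) ≤ k := by exact_mod_cast h.hk0

lemma Mr (h : Par M k N) : (2 : ℝ) ≤ M := by exact_mod_cast h.hM

lemma Mk (h : Par M k N) : M + 1 ≤ k := by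
  have h1 := h.hM
  have h2 := h.hk
  nlinarith

lemma a_pos (h : Par M k N) : 0 < st k := st_pos h.k1

lemma Ma (h : Par M k N) : (M : ℝ) ^ 2 * st k ≤ 0.0873 := by
  have h1 := k_mul_st h.k1
  have h2 : (9 : ℝ) * (M : ℝ) ^ 2 ≤ k := by exact_mod_cast h.hk
  have h3 := Real.pi_lt_d6
  have h4 := mul_le_mul_of_nonneg_right h2 h.a_pos.le
  linarith

lemma a_le (h : Par M k N) : st k ≤ 0.0104 := by
  have h1 := k_mul_st h.k1
  have h2 := mul_le_mul_of_nonneg_right h.kr h.a_pos.le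
  have h3 := Real.pi_lt_d6
  linarith

lemma beta (h : Par M k N) : 0 < 1 / (k : ℝ) ∧ 1 / (k : ℝ) ≤ 1 / 76 := by
  have h1 := h.kr
  constructor
  · positivity
  · exact div_le_div_of_nonneg_left (by norm_num) (by norm_num) h1

lemma betaM (h : Par M k N) : 1 / (k : ℝ) * (M : ℝ) ^ 2 ≤ 1 / 9 := by
  have h1 := h.kr
  have h2 : (9 : ℝ) * (M : ℝ) ^ 2 ≤ k := by exact_mod_cast h.hk
  rw [div_mul_eq_mul_div, one_mul, div_le_div_iff₀ (by linarith) (by norm_num)]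
  linarith

lemma N_pos (h : Par M k N) : 0 < N := by
  have h1 := h.hN
  have h2 := h.beta
  have h3 := h.a_pos
  by_contra hc
  push Not at hc
  have : 4 * st k ^ 2 * N ≤ 0 := mul_nonpos_of_nonneg_of_nonpos (by positivity) hc
  linarith [h2.2]

lemma N_ge (h : Par M k N) : 1000 ≤ N := by
  have h1 := h.hN
  have h2 := h.beta
  have h3 := h.a_pos
  have h4 := h.a_le
  by_contra hc
  push Not at hc
  have h5 : st k ^ 2 ≤ 0.0104 ^ 2 := pow_le_pow_left₀ h3.le h4 2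
  have h6 : 4 * st k ^ 2 * N ≤ 4 * 0.0104 ^ 2 * 1000 :=
    mul_le_mul (by linarith) hc.le h.N_pos.le (by positivity)
  norm_num at h6
  linarith [h2.2]

lemma rt_zero (h : Par M k N) : rt N k 0 ≤ (1 - 1 / (k : ℝ)) / 4 := by
  have h1 := h.hN
  have h3 := h.a_pos
  rw [rt_eqG]
  have e : (2 * ((0 : ℕ) : ℝ) + 1) * st k = st k := by push_cast; ring
  rw [e]
  have h4 : Real.sin (st k) ≤ st k := Real.sin_le h3.le
  have h5 : 0 ≤ Real.sin (st k) := Real.sin_nonneg_of_nonneg_of_le_pi h3.le (by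
    have := h.a_le
    linarith [Real.pi_gt_three])
  have h6 : Real.sin (st k) ^ 2 ≤ st k ^ 2 := pow_le_pow_left₀ h5 h4 2
  have h7 := mul_le_mul_of_nonneg_left h6 h.N_pos.le
  linarith

lemma sin_low (h : Par M k N) {c : ℝ} (h0 : 0 ≤ c) (hc : c ≤ 4 * M) :
    0.99 * (c * st k) ≤ Real.sin (c * st k) := by
  have ha := h.a_pos
  rcases eq_or_lt_of_le h0 with h1 | h1
  · rw [← h1]; simp
  · have hx : 0 < c * st k := mul_pos h1 ha
    have hx1 : c * st k ≤ 0.175 := by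
      have h2 := h.Ma
      have h3 := h.Mr
      have h4 : (2 : ℝ) * (M * st k) ≤ 0.0873 := by
        have h5 : (2 : ℝ) * (M * st k) ≤ M * (M * st k) :=
          mul_le_mul_of_nonneg_right h3 (by positivity)
        linarith
      have h5 : c * st k ≤ 4 * M * st k := mul_le_mul_of_nonneg_right hc ha.le
      norm_num
      norm_num at h4
      linarith
    have h2 := (Real.sin_gt_sub_cube hx).le
    have h3 : (c * st k) ^ 3 ≤ 0.175 ^ 2 * (c * st k) := by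
      have h4 : (c * st k) ^ 2 ≤ 0.175 ^ 2 := pow_le_pow_left₀ hx.le hx1 2
      have h5 : (c * st k) ^ 3 = (c * st k) ^ 2 * (c * st k) := by ring
      rw [h5]
      exact mul_le_mul_of_nonneg_right h4 hx.le
    linarith

lemma rt_one (h : Par M k N) : 2 ≤ rt N k 1 := by
  have h1 := h.hN
  have h3 := h.a_pos
  have h4 := h.sin_low (c := 3) (by norm_num) (by linarith [h.Mr])
  have h5 : (0.99 * (3 * st k)) ^ 2 ≤ Real.sin (3 * st k) ^ 2 :=
    pow_le_pow_left₀ (by positivity) h4 2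
  rw [rt_eqG]
  have e : (2 * ((1 : ℕ) : ℝ) + 1) * st k = 3 * st k := by push_cast; ring
  rw [e]
  have h7 := mul_le_mul_of_nonneg_left h5 h.N_pos.le
  have h8 : N * (0.99 * (3 * st k)) ^ 2 = 2.205225 * (4 * st k ^ 2 * N) := by ring
  rw [h8, h1] at h7
  linarith [h.beta.2]

lemma rt_ge_two (h : Par M k N) {m : ℕ} (h1 : 1 ≤ m) (hm : m < k) : 2 ≤ rt N k m := by
  have ha := h.a_pos
  have hka := k_mul_st h.k1
  have hN := h.N_pos
  have hm' : (m : ℝ) + 1 ≤ k := by exact_mod_cast hm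
  have hm1 : (1 : ℝ) ≤ m := by exact_mod_cast h1
  refine h.rt_one.trans ?_
  rw [rt_eqG, rt_eqG]
  apply mul_le_mul_of_nonneg_left _ hN.le
  have hak := h.a_le
  have h2 : 0 ≤ Real.sin ((2 * ((1 : ℕ) : ℝ) + 1) * st k) := by
    apply Real.sin_nonneg_of_nonneg_of_le_pi
    · positivity
    · push_cast
      linarith [Real.pi_gt_three]
  have h3 : Real.sin ((2 * ((1 : ℕ) : ℝ) + 1) * st k) ≤ Real.sin ((2 * (m : ℝ) + 1) * st k) := by
    have h5 := mul_le_mul_of_nonneg_right hm' ha.le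
    apply Real.sin_le_sin_of_le_of_le_pi_div_two
    · push_cast
      linarith [Real.pi_gt_three]
    · linarith
    · push_cast
      apply mul_le_mul_of_nonneg_right _ ha.le
      linarith
  exact pow_le_pow_left₀ h2 h3 2

lemma F_one_pos (h : Par M k N) : 0 ≤ FG N k 1 := by
  have hN := h.N_pos
  unfold FG
  apply prod_nonneg_before
  · intro m hm
    rw [mem_Ico] at hm
    exact rt_pos hN hm.2
  · intro m hm
    rw [mem_Ico] at hm
    linarith [h.rt_ge_two hm.1 hm.2]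

lemma F_one_le (h : Par M k N) : FG N k 1 * (3 + 4 * (1 / (k : ℝ))) ≤ 1 := by
  have hr := h.rt_zero
  have hb := h.beta
  have hr0 := rt_pos h.N_pos (show 0 < k by have := h.k1; omega)
  have h1 := FG_abs h.N_pos h.k1 (by linarith) (le_refl 1) (by linarith [h.N_ge])
  have h2 := h.F_one_pos
  have h3 : |Real.cos (2 * k * pg N 1)| ≤ 1 := Real.abs_cos_le_one _
  rw [abs_of_nonneg h2] at h1
  rw [← h1] at h3
  obtain ⟨β, hβ⟩ : ∃ β, β = 1 / (k : ℝ) := ⟨_, rfl⟩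
  rw [← hβ] at hr hb ⊢
  have h4 : 4 * (1 + β) ≤ 1 / rt N k 0 := by
    rw [le_div_iff₀ hr0]
    have h5 : 4 * (1 + β) * rt N k 0 ≤ 4 * (1 + β) * ((1 - β) / 4) :=
      mul_le_mul_of_nonneg_left hr (by linarith)
    have h6 : 4 * (1 + β) * ((1 - β) / 4) = 1 - β ^ 2 := by ring
    have h7 : 0 ≤ β ^ 2 := sq_nonneg _
    linarith
  have h5 : FG N k 1 * (3 + 4 * β) ≤ FG N k 1 * (1 / rt N k 0 - 1) :=
    mul_le_mul_of_nonneg_left (by linarith) h2
  linarith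

/-- lower bound for `D_m`, `m ≤ M + 1` -/
lemma Dm_low (h : Par M k N) {m : ℕ} (hm1 : 1 ≤ m) (hm : m ≤ M + 1) :
    0.98 * ((4 * (m : ℝ) ^ 2 - 1) * st k ^ 2) ≤ Dm k m := by
  have ha := h.a_pos
  have hm1' : (1 : ℝ) ≤ m := by exact_mod_cast hm1
  have hm' : (m : ℝ) ≤ M + 1 := by exact_mod_cast hm
  have hMr := h.Mr
  have h1 := h.sin_low (c := 2 * (m : ℝ) + 1) (by linarith) (by linarith)
  have h2 := h.sin_low (c := 2 * (m : ℝ) - 1) (by linarith) (by linarith)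
  unfold Dm
  have hc : 0 < 2 * (m : ℝ) - 1 := by linarith
  have h3 : (0.99 * ((2 * (m : ℝ) + 1) * st k)) * (0.99 * ((2 * (m : ℝ) - 1) * st k)) ≤
      Real.sin ((2 * (m : ℝ) + 1) * st k) * Real.sin ((2 * (m : ℝ) - 1) * st k) :=
    mul_le_mul h1 h2 (by positivity) (le_trans (by positivity) h1)
  refine le_trans ?_ h3
  have h4 : (0.99 * ((2 * (m : ℝ) + 1) * st k)) * (0.99 * ((2 * (m : ℝ) - 1) * st k)) =
      0.9801 * ((4 * (m : ℝ) ^ 2 - 1) * st k ^ 2) := by ring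
  rw [h4]
  have h5 : 0 ≤ (4 * (m : ℝ) ^ 2 - 1) * st k ^ 2 := by
    have : 1 ≤ (m : ℝ) ^ 2 := one_le_pow₀ hm1'
    have : 0 ≤ 4 * (m : ℝ) ^ 2 - 1 := by linarith
    positivity
  linarith

/-- the slope, `m = 2` -/
lemma sig_two (h : Par M k N) : Real.sin (2 * (2 : ℕ) * st k) ≤ 0.35 * (k * Dm k 2) := by
  have ha := h.a_pos
  have hka := k_mul_st h.k1
  have hD := h.Dm_low (m := 2) (by norm_num) (by have := h.hM; omega)
  have hk0 : (0 : ℝ) < k := by exact_mod_cast h.k1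
  have h1 : Real.sin (2 * (2 : ℕ) * st k) ≤ 2 * (2 : ℕ) * st k := Real.sin_le (by positivity)
  refine h1.trans ?_
  have h2 := mul_le_mul_of_nonneg_left hD hk0.le
  have h3 : (k : ℝ) * (0.98 * ((4 * ((2 : ℕ) : ℝ) ^ 2 - 1) * st k ^ 2)) =
      14.7 * (k * st k) * st k := by push_cast; ring
  rw [h3, hka] at h2
  have h4 : 14.7 * (3.141592 / 4) * st k ≤ 14.7 * (Real.pi / 4) * st k := by
    apply mul_le_mul_of_nonneg_right _ ha.le
    have := Real.pi_gt_d6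
    linarith
  push_cast
  norm_num at h4
  linarith

/-- the slope, `3 ≤ m ≤ M + 1` -/
lemma sig_mid (h : Par M k N) {m : ℕ} (hm3 : 3 ≤ m) (hm : m ≤ M + 1) :
    Real.sin (2 * m * st k) ≤ 0.67 / m * (k * Dm k m) := by
  have ha := h.a_pos
  have hka := k_mul_st h.k1
  have hD := h.Dm_low (m := m) (by omega) hm
  have hk0 : (0 : ℝ) < k := by exact_mod_cast h.k1
  have hm3' : (3 : ℝ) ≤ m := by exact_mod_cast hm3
  have hm0 : (0 : ℝ) < m := by linarith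
  have h1 : Real.sin (2 * m * st k) ≤ 2 * m * st k := Real.sin_le (by positivity)
  refine h1.trans ?_
  have h2 := mul_le_mul_of_nonneg_left hD hk0.le
  have h3 : (k : ℝ) * (0.98 * ((4 * (m : ℝ) ^ 2 - 1) * st k ^ 2)) =
      0.98 * (4 * (m : ℝ) ^ 2 - 1) * (k * st k) * st k := by ring
  rw [h3, hka] at h2
  have h4 : 0.67 / m * (0.98 * (4 * (m : ℝ) ^ 2 - 1) * (Real.pi / 4) * st k) ≤
      0.67 / m * (k * Dm k m) := mul_le_mul_of_nonneg_left h2 (by positivity)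
  refine le_trans ?_ h4
  rw [div_mul_eq_mul_div, le_div_iff₀ hm0]
  have h9 : (9 : ℝ) ≤ (m : ℝ) ^ 2 := by
    have : (3 : ℝ) ^ 2 ≤ (m : ℝ) ^ 2 := pow_le_pow_left₀ (by norm_num) hm3' 2
    linarith
  have h5 : (4 * (m : ℝ) ^ 2 - 1) * 3.141592 ≤ (4 * (m : ℝ) ^ 2 - 1) * Real.pi :=
    mul_le_mul_of_nonneg_left Real.pi_gt_d6.le (by linarith)
  have h6 : 2 * (m : ℝ) ^ 2 ≤ 0.67 * 0.98 * ((4 * (m : ℝ) ^ 2 - 1) * Real.pi) / 4 := by
    linarith
  have h7 := mul_le_mul_of_nonneg_right h6 ha.le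
  have e1 : 2 * (m : ℝ) * st k * m = 2 * (m : ℝ) ^ 2 * st k := by ring
  have e2 : 0.67 * (0.98 * (4 * (m : ℝ) ^ 2 - 1) * (Real.pi / 4) * st k) =
      0.67 * 0.98 * ((4 * (m : ℝ) ^ 2 - 1) * Real.pi) / 4 * st k := by ring
  rw [e1, e2]
  exact h7

/-- the slope, `m > M` -/
lemma sig_high (h : Par M k N) {m : ℕ} (hm : M < m) (hmk : m ≤ k) :
    Real.sin (2 * m * st k) ≤ 0.67 / ((M : ℝ) + 1) * (k * Dm k m) := by
  have ha := h.a_pos
  have hka := k_mul_st h.k1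
  have hk0 : (0 : ℝ) < k := by exact_mod_cast h.k1
  have hM2 := h.hM
  have h1 := h.sig_mid (m := M + 1) (by omega) (le_refl _)
  have hM0 : (0 : ℝ) ≤ M := by positivity
  have hm' : ((M + 1 : ℕ) : ℝ) ≤ m := by exact_mod_cast hm
  have hmk' : (m : ℝ) ≤ k := by exact_mod_cast hmk
  have hpi := Real.pi_pos
  rw [Dm_eq] at h1 ⊢
  have hA : 2 * (m : ℝ) * st k ≤ Real.pi / 2 := by
    have := mul_le_mul_of_nonneg_right hmk' ha.le
    linarith
  have h2 : 2 * ((M + 1 : ℕ) : ℝ) * st k ≤ 2 * (m : ℝ) * st k := by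
    apply mul_le_mul_of_nonneg_right _ ha.le
    linarith
  have hx : 0 < 2 * ((M + 1 : ℕ) : ℝ) * st k := by positivity
  have hSS : Real.sin (2 * ((M + 1 : ℕ) : ℝ) * st k) ≤ Real.sin (2 * m * st k) :=
    Real.sin_le_sin_of_le_of_le_pi_div_two (by linarith) hA h2
  have hS1 : 0 < Real.sin (2 * ((M + 1 : ℕ) : ℝ) * st k) :=
    Real.sin_pos_of_pos_of_lt_pi hx (by linarith)
  obtain ⟨S1, hS1d⟩ : ∃ S1, S1 = Real.sin (2 * ((M + 1 : ℕ) : ℝ) * st k) := ⟨_, rfl⟩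
  obtain ⟨S, hSd⟩ : ∃ S, S = Real.sin (2 * m * st k) := ⟨_, rfl⟩
  obtain ⟨q, hq⟩ : ∃ q, q = Real.sin (st k) ^ 2 := ⟨_, rfl⟩
  have hq0 : 0 ≤ q := by rw [hq]; positivity
  obtain ⟨σ, hσ⟩ : ∃ σ : ℝ, σ = 0.67 / ((M : ℝ) + 1) := ⟨_, rfl⟩
  have hσ0 : 0 ≤ σ := by rw [hσ]; positivity
  have e : 0.67 / ((M + 1 : ℕ) : ℝ) = σ := by rw [hσ]; push_cast; ring
  rw [← hS1d, ← hq, e] at h1
  rw [← hS1d, ← hSd] at hSS
  rw [← hS1d] at hS1
  rw [← hSd, ← hq, ← hσ]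
  have hS0 : 0 ≤ S := by linarith
  have h3 : S * S1 ≤ σ * (k * (S ^ 2 - q)) * S1 := by
    have h4 := mul_le_mul_of_nonneg_left h1 hS0
    have h5 : S * (σ * (k * (S1 ^ 2 - q))) ≤ σ * (k * (S ^ 2 - q)) * S1 := by
      have h6 : 0 ≤ (S - S1) * (S * S1 + q) := mul_nonneg (by linarith) (by positivity)
      have h7 : 0 ≤ σ * k * ((S - S1) * (S * S1 + q)) := by positivity
      have h8 : σ * (k * (S ^ 2 - q)) * S1 - S * (σ * (k * (S1 ^ 2 - q))) =
          σ * k * ((S - S1) * (S * S1 + q)) := by ring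
      linarith
    linarith
  exact le_of_mul_le_mul_right h3 hS1

end Par

namespace Par

variable {M k : ℕ} {N : ℝ}

/-- the angle of a point of the lobe `m ≤ M` left of the peak -/
lemma u_low (h : Par M k N) {m j : ℕ} (hm2 : 2 ≤ m) (hm : m ≤ M) (hjN : (j : ℝ) ≤ N) {u y0 : ℝ}
    (hu : u = 2 * k * (2 * m * st k - pg N j)) (hu0 : 0 < u)
    (hy0 : y0 ≤ 1 - 1 / (k : ℝ) * (m : ℝ) ^ 2 - 0.0102) :
    Real.pi / 2 * y0 ≤ m * u := by
  have ha := h.a_pos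
  have hka := k_mul_st h.k1
  have hN := h.N_pos
  have hNe := h.hN
  have hb := h.beta
  have hk0 : (0 : ℝ) < k := by exact_mod_cast h.k1
  have hm2' : (2 : ℝ) ≤ m := by exact_mod_cast hm2
  have hm' : (m : ℝ) ≤ M := by exact_mod_cast hm
  have hm0 : (0 : ℝ) < m := by linarith
  have hmk' : (m : ℝ) ≤ k := by
    have := h.Mk
    have : m ≤ k := by omega
    exact_mod_cast this
  have hφ := pg_mem N j
  have hφN := sin_sq_pg hN (show (0 : ℝ) ≤ j by positivity) hjN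
  have hpi := Real.pi_pos
  have hA : 2 * (m : ℝ) * st k ≤ Real.pi / 2 := by
    have := mul_le_mul_of_nonneg_right hmk' ha.le
    linarith
  have hlt : pg N j < 2 * m * st k := by
    by_contra hc
    push Not at hc
    have : u ≤ 0 := by
      rw [hu]
      apply mul_nonpos_of_nonneg_of_nonpos (by positivity)
      linarith
    linarith
  obtain ⟨φ, hφd⟩ : ∃ φ, φ = pg N j := ⟨_, rfl⟩
  rw [← hφd] at hφ hφN hlt hu
  obtain ⟨β, hβ⟩ : ∃ β, β = 1 / (k : ℝ) := ⟨_, rfl⟩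
  rw [← hβ] at hNe hb hy0
  -- `j ≤ m² - 1`
  have hj : (j : ℝ) + 1 ≤ (m : ℝ) ^ 2 := by
    have h1 : Real.sin φ ^ 2 ≤ φ ^ 2 := by
      have h2 : Real.sin φ ≤ φ := Real.sin_le hφ.1
      have h3 : 0 ≤ Real.sin φ := Real.sin_nonneg_of_nonneg_of_le_pi hφ.1 (by linarith)
      exact pow_le_pow_left₀ h3 h2 2
    have h4 : φ ^ 2 ≤ (2 * m * st k) ^ 2 := pow_le_pow_left₀ hφ.1 hlt.le 2
    have h5 : N * Real.sin φ ^ 2 ≤ N * (2 * m * st k) ^ 2 :=
      mul_le_mul_of_nonneg_left (h1.trans h4) hN.le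
    have h6 : N * (2 * m * st k) ^ 2 = (4 * st k ^ 2 * N) * (m : ℝ) ^ 2 := by ring
    rw [hφN, h6, hNe] at h5
    have h7 : (j : ℝ) < (m : ℝ) ^ 2 := by
      have h8 : (1 - β) * (m : ℝ) ^ 2 < 1 * (m : ℝ) ^ 2 := by
        apply mul_lt_mul_of_pos_right _ (by positivity)
        linarith [hb.1]
      linarith
    have h8 : j < m ^ 2 := by exact_mod_cast h7
    exact_mod_cast h8
  -- `N sin² (2 m a)`
  have hx : 0 < 2 * m * st k := by positivity
  have hsin1 : Real.sin (2 * m * st k) ≤ 2 * m * st k := Real.sin_le hx.le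
  have hsl : (2 * m * st k) ^ 2 - (2 * m * st k) ^ 4 / 3 ≤ Real.sin (2 * m * st k) ^ 2 := by
    have h1 := (Real.sin_gt_sub_cube hx).le
    have h2 : 0 ≤ 2 * m * st k - (2 * m * st k) ^ 3 / 6 := by
      have h3 : 2 * m * st k ≤ 1.6 := by linarith [Real.pi_lt_d6]
      have h4 : (2 * m * st k) ^ 3 = (2 * m * st k) * (2 * m * st k) ^ 2 := by ring
      have h5 : (2 * m * st k) ^ 2 ≤ 1.6 ^ 2 := pow_le_pow_left₀ hx.le h3 2
      have h6 := mul_le_mul_of_nonneg_left h5 hx.le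
      rw [h4]
      linarith
    have h3 : (2 * m * st k - (2 * m * st k) ^ 3 / 6) ^ 2 ≤ Real.sin (2 * m * st k) ^ 2 :=
      pow_le_pow_left₀ h2 h1 2
    have h4 : (2 * m * st k - (2 * m * st k) ^ 3 / 6) ^ 2 =
        (2 * m * st k) ^ 2 - (2 * m * st k) ^ 4 / 3 + (2 * m * st k) ^ 6 / 36 := by ring
    have h5 : 0 ≤ (2 * m * st k) ^ 6 := by positivity
    linarith
  have hma2 : (m : ℝ) ^ 2 * st k ≤ 0.0873 := by
    have h1 : (m : ℝ) ^ 2 ≤ (M : ℝ) ^ 2 := pow_le_pow_left₀ hm0.le hm' 2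
    exact (mul_le_mul_of_nonneg_right h1 ha.le).trans h.Ma
  have hxm : (1 - β) * (m : ℝ) ^ 2 - 0.0102 ≤ N * Real.sin (2 * m * st k) ^ 2 := by
    have h1 := mul_le_mul_of_nonneg_left hsl hN.le
    have h2 : N * ((2 * m * st k) ^ 2 - (2 * m * st k) ^ 4 / 3) =
        (4 * st k ^ 2 * N) * (m : ℝ) ^ 2 - (4 * st k ^ 2 * N) * (4 / 3) * ((m : ℝ) ^ 2 * st k) ^ 2 := by
      ring
    rw [h2, hNe] at h1
    have h3 : ((m : ℝ) ^ 2 * st k) ^ 2 ≤ 0.0873 ^ 2 := pow_le_pow_left₀ (by positivity) hma2 2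
    have h4 : (1 - β) * (4 / 3) * ((m : ℝ) ^ 2 * st k) ^ 2 ≤ 1 * (4 / 3) * 0.0873 ^ 2 := by
      apply mul_le_mul _ h3 (by positivity) (by norm_num)
      linarith [hb.1]
    norm_num at h4
    linarith
  have hy : y0 ≤ N * Real.sin (2 * m * st k) ^ 2 - j := by
    linarith
  -- upper bound for the same quantity
  have hd := sin_sq_diff hφ.1 hlt.le hA
  have h1 : N * (Real.sin (2 * m * st k) ^ 2 - Real.sin φ ^ 2) ≤
      N * (2 * Real.sin (2 * m * st k) * (2 * m * st k - φ)) :=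
    mul_le_mul_of_nonneg_left hd hN.le
  have h2 : N * (2 * Real.sin (2 * m * st k) * (2 * m * st k - φ)) ≤
      N * (2 * (2 * m * st k) * (2 * m * st k - φ)) := by
    apply mul_le_mul_of_nonneg_left _ hN.le
    apply mul_le_mul_of_nonneg_right _ (by linarith)
    linarith
  have h3 : y0 ≤ N * (2 * (2 * m * st k) * (2 * m * st k - φ)) := by linarith
  have h4 : y0 * (2 * (k * st k)) ≤ N * (2 * (2 * m * st k) * (2 * m * st k - φ)) * (2 * (k * st k)) :=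
    mul_le_mul_of_nonneg_right h3 (by positivity)
  have h5 : N * (2 * (2 * m * st k) * (2 * m * st k - φ)) * (2 * (k * st k)) =
      (4 * st k ^ 2 * N) * (m * u) := by
    rw [hu]; ring
  rw [h5, hNe, hka] at h4
  have h6 : (1 - β) * (m * u) ≤ 1 * (m * u) :=
    mul_le_mul_of_nonneg_right (by linarith [hb.1]) (by positivity)
  linarith

/-- **The lobes `2 ≤ m ≤ M`.** -/
lemma lobe_low (h : Par M k N) {m j : ℕ} (hm2 : 2 ≤ m) (hm : m ≤ M) (hjN : (j : ℝ) ≤ N)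
    (h1 : (2 * (m : ℝ) - 1) * st k ≤ pg N j) :
    |Real.cos (2 * k * pg N j)| * Dm k m ≤ 1 * (Real.sin (pg N j) ^ 2 - Real.sin (st k) ^ 2) := by
  have hm2' : (2 : ℝ) ≤ m := by exact_mod_cast hm2
  have hMr := h.Mr
  have hpi := Real.pi_gt_d6
  have hpi' := Real.pi_lt_d6
  have hm' : (m : ℝ) ≤ M := by exact_mod_cast hm
  have hmk : m ≤ k := by have := h.Mk; omega
  have hb := h.beta
  rcases Nat.eq_or_lt_of_le hm2 with h2 | h2
  · -- `m = 2`
    have hm2e : m = 2 := h2.symm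
    subst hm2e
    apply lobeG h.k12 (by omega) hmk (le_refl _) h1 (pg_mem N j).2 h.sig_two
    intro u hu hu0 hu1
    rcases eq_or_lt_of_le hu0 with h3 | h3
    · rw [← h3]; simp
    · have h4 := h.u_low (m := 2) hm2 hm hjN (y0 := 0.937) hu h3 (by
        push_cast
        linarith)
      have h5 : 0.7359 ≤ u := by
        push_cast at h4
        linarith
      have h6 := cos_le_four hu0 (by linarith)
      have h7 := f_mono (show (0 : ℝ) ≤ 0.7359 by norm_num) h5 (by linarith)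
      have h8 : (0.35 : ℝ) ≤ u / 2 - u ^ 3 / 24 := by
        refine le_trans (by norm_num) h7
      have h9 := mul_le_mul_of_nonneg_left h8 hu0
      linarith
  · -- `m ≥ 3`
    have hm3 : 3 ≤ m := by omega
    have hm3' : (3 : ℝ) ≤ m := by exact_mod_cast hm3
    have hm0 : (0 : ℝ) < m := by linarith
    apply lobeG h.k12 (by omega) hmk (le_refl _) h1 (pg_mem N j).2
      (h.sig_mid hm3 (by omega))
    intro u hu hu0 hu1
    rcases eq_or_lt_of_le hu0 with h3 | h3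
    · rw [← h3]; simp
    · have h4 := h.u_low (m := m) hm2 hm hjN (y0 := 0.878) hu h3 (by
        have h10 : (m : ℝ) ^ 2 ≤ (M : ℝ) ^ 2 := pow_le_pow_left₀ hm0.le hm' 2
        have h11 := mul_le_mul_of_nonneg_left h10 hb.1.le
        have h12 := h.betaM
        linarith)
      have h5 : 1.379 / m ≤ u := by
        rw [div_le_iff₀ hm0]
        linarith
      have h6 := cos_le_four hu0 (by linarith)
      have h7 := f_mono (show (0 : ℝ) ≤ 1.379 / m by positivity) h5 (by linarith)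
      have h8 : 0.67 / m ≤ u / 2 - u ^ 3 / 24 := by
        refine le_trans ?_ h7
        have h9 : 1.379 / (m : ℝ) / 2 - (1.379 / (m : ℝ)) ^ 3 / 24 =
            (0.6895 - 1.379 ^ 3 / 24 / (m : ℝ) ^ 2) / m := by
          field_simp
          ring
        rw [h9]
        apply div_le_div_of_nonneg_right _ hm0.le
        have h10 : 1.379 ^ 3 / 24 / (m : ℝ) ^ 2 ≤ 0.0125 := by
          rw [div_le_iff₀ (by positivity)]
          have : (3 : ℝ) ^ 2 ≤ (m : ℝ) ^ 2 := pow_le_pow_left₀ (by norm_num) hm3' 2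
          norm_num at this ⊢
          linarith
        linarith
      have h9 := mul_le_mul_of_nonneg_left h8 hu0
      linarith

/-- **The lobes `M < m ≤ k`.** -/
lemma lobe_high (h : Par M k N) {m j : ℕ} (hm : M < m) (hmk : m ≤ k)
    (h1 : (2 * (m : ℝ) - 1) * st k ≤ pg N j) :
    |Real.cos (2 * k * pg N j)| * Dm k m ≤
      (1 + 0.315 / ((M : ℝ) + 1) ^ 2) * (Real.sin (pg N j) ^ 2 - Real.sin (st k) ^ 2) := by
  have hMr := h.Mr
  have hM0 : (0 : ℝ) < (M : ℝ) + 1 := by linarith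
  have hsig := h.sig_high hm hmk
  have hM2 := h.hM
  have hC : (1 : ℝ) ≤ 1 + 0.315 / ((M : ℝ) + 1) ^ 2 := by
    have : 0 ≤ 0.315 / ((M : ℝ) + 1) ^ 2 := by positivity
    linarith
  apply lobeG h.k12 (by omega) hmk hC h1 (pg_mem N j).2 hsig
  intro u hu hu0 hu1
  have hσ : 0.67 / ((M : ℝ) + 1) ≤ 0.2234 := by
    rw [div_le_iff₀ hM0]
    linarith
  have h2 := cos_le_sig hu0 hu1 (show 0 ≤ 0.67 / ((M : ℝ) + 1) by positivity) hσ
  refine h2.trans ?_
  have h3 : 0 ≤ 1 - 0.67 / ((M : ℝ) + 1) * u := by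
    have h4 : 0.67 / ((M : ℝ) + 1) * u ≤ 0.2234 * 1.6 :=
      mul_le_mul hσ (by linarith [Real.pi_lt_d6]) hu0 (by norm_num)
    linarith
  apply mul_le_mul_of_nonneg_right _ h3
  have h4 : 0.7 * (0.67 / ((M : ℝ) + 1)) ^ 2 = 0.31423 / ((M : ℝ) + 1) ^ 2 := by
    field_simp
    norm_num
  rw [h4]
  have h5 : 0.31423 / ((M : ℝ) + 1) ^ 2 ≤ 0.315 / ((M : ℝ) + 1) ^ 2 := by
    apply div_le_div_of_nonneg_right (by norm_num) (by positivity)
  linarith

end Par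

end Pool.Agent.Work.MP_02e323_xi
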