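import Mathlib
import Pool.Agent.Work.MP_02e323_xi.LowU
import Pool.Agent.Work.MP_02e323_xi.Big

/-!
# Dominating polynomials for `n ≤ 4 k (k - 1) / π²`, `k ≥ 76`
-/

set_option autoImplicit false

open Finset

namespace Pool.Agent.Work.MP_02e323_xi

namespace Par

variable {M k : ℕ} {N : ℝ}

/-- the constants for the lobes -/
noncomputable def CG (M m : ℕ) : ℝ := if m ≤ M then 1 else 1 + 0.315 / ((M : ℝ) + 1) ^ 2

lemma CG_nonneg (M m : ℕ) : 0 ≤ CG M m := by
  unfold CG
  split_ifs <;> positivity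

/-- the bounds for the lobes -/
noncomputable def muG (N : ℝ) (k M m : ℕ) : ℝ :=
  if m ≤ 1 then FG N k 1 else if m ≤ k then
    CG M m * (Real.sin (st k) ^ 2 / Dm k m) else 0

lemma muG_nonneg (h : Par M k N) (m : ℕ) : 0 ≤ muG N k M m := by
  unfold muG
  split_ifs with h1 h2
  · exact h.F_one_pos
  · have := Dm_pos h.k12 (show 1 ≤ m by omega) h2
    have := CG_nonneg M m
    positivity
  · exact le_refl _

lemma boundG (h : Par M k N) (j : ℕ) (hj : 1 ≤ j) (hjN : (j : ℝ) ≤ N) :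
    |FG N k j| ≤ muG N k M (lg N k j) := by
  have hN := h.N_pos
  have ha := h.a_pos
  have hr := h.rt_zero
  have hb := h.beta
  have hj' : (1 : ℝ) ≤ j := by exact_mod_cast hj
  have hr1 : rt N k 0 < 1 := by linarith [hb.1]
  have hr0 := rt_pos hN (show 0 < k by have := h.k1; omega)
  have hL := lg_pos hN h.k1 hr1 j hj hjN
  have hLk := lg_le N h.k1 j
  have habs := FG_abs hN h.k1 hr1.le hj' hjN
  unfold muG
  split_ifs with h1
  · -- first lobe
    have hr : ∀ m ∈ Ico 1 k, (j : ℝ) ≤ rt N k m := by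
      intro m hm
      rw [mem_Ico] at hm
      exact le_rtG hN h.k1 hm.2 (by linarith) hjN (lg_upper N h.k1 j m (by omega))
    have hp : ∀ m ∈ Ico 1 k, 0 < rt N k m := by
      intro m hm
      rw [mem_Ico] at hm
      exact rt_pos hN hm.2
    have h3 : 0 ≤ FG N k j := prod_nonneg_before _ _ hp _ hr
    rw [abs_of_nonneg h3]
    exact prod_anti _ _ hp 1 j hj' hr
  · -- the other lobes
    obtain ⟨m, hm⟩ : ∃ m, m = lg N k j := ⟨_, rfl⟩
    rw [← hm] at h1 hLk hL ⊢
    have hm2 : 2 ≤ m := by omega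
    have hDp := Dm_pos h.k12 (show 1 ≤ m by omega) hLk
    have h3 : (2 * (m : ℝ) - 1) * st k ≤ pg N j := by
      have := lg_lower N h.k1 j (m - 1) (by omega)
      rw [Nat.cast_sub (by omega)] at this
      push_cast at this
      have e : 2 * ((m : ℝ) - 1) + 1 = 2 * m - 1 := by ring
      rw [e] at this
      exact this
    obtain ⟨C, hC⟩ : ∃ C : ℝ, C = CG M m := ⟨_, rfl⟩
    have h4 : |Real.cos (2 * k * pg N j)| * Dm k m ≤
        C * (Real.sin (pg N j) ^ 2 - Real.sin (st k) ^ 2) := by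
      rw [hC]
      unfold CG
      split_ifs with h5
      · exact h.lobe_low hm2 h5 hjN h3
      · exact h.lobe_high (by omega) hLk h3
    rw [← hC]
    rw [← habs] at h4
    have hs := sin_sq_pg hN (show (0 : ℝ) ≤ j by linarith) hjN
    have hr0e : rt N k 0 = N * Real.sin (st k) ^ 2 := by
      rw [rt_eqG]
      have : (2 * ((0 : ℕ) : ℝ) + 1) * st k = st k := by push_cast; ring
      rw [this]
    have hsa : 0 < Real.sin (st k) ^ 2 := by
      rw [hr0e] at hr0
      exact (pos_iff_pos_of_mul_pos hr0).mp hN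
    have hval : (j : ℝ) / rt N k 0 - 1 =
        (Real.sin (pg N j) ^ 2 - Real.sin (st k) ^ 2) / Real.sin (st k) ^ 2 := by
      rw [hr0e]
      nth_rewrite 1 [← hs]
      have hN' := hN.ne'
      have hsa' := hsa.ne'
      rw [mul_div_mul_left _ _ hN', sub_div, div_self hsa']
    have hX : 0 < (j : ℝ) / rt N k 0 - 1 := by
      have : 1 < (j : ℝ) / rt N k 0 := by
        rw [lt_div_iff₀ (by linarith)]
        linarith
      linarith
    rw [hval] at hX h4
    obtain ⟨X, hXd⟩ : ∃ X, X = Real.sin (pg N j) ^ 2 - Real.sin (st k) ^ 2 := ⟨_, rfl⟩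
    obtain ⟨S, hSd⟩ : ∃ S, S = Real.sin (st k) ^ 2 := ⟨_, rfl⟩
    rw [← hXd] at hX h4
    rw [← hSd] at hX h4 hsa ⊢
    have hX0 : 0 < X := by
      by_contra hc
      push Not at hc
      have : X / S ≤ 0 := div_nonpos_of_nonpos_of_nonneg hc hsa.le
      linarith
    rw [← mul_div_assoc, le_div_iff₀ hDp]
    have h5 : |FG N k j| * Dm k m * X ≤ C * S * X := by
      have h6 : |FG N k j| * (X / S) * Dm k m = |FG N k j| * Dm k m * X / S := by ring
      rw [h6, div_le_iff₀ hsa] at h4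
      linarith
    exact le_of_mul_le_mul_right h5 hX0

/-- the tail of the telescoping sum -/
lemma tail (h : Par M k N) :
    ∑ m ∈ Ico (M + 1) (k + 1), 2 * Real.sin (st k) ^ 2 / Dm k m ≤ 0.2028 := by
  have hk12 := h.k12
  have hMk := h.Mk
  have hM2 := h.hM
  have hMr := h.Mr
  have ha := h.a_pos
  have hale := h.a_le
  have hka := k_mul_st h.k1
  have hcosa := cos_st_lower hk12
  have hsle : Real.sin (st k) ≤ st k := Real.sin_le ha.le
  have hsina : 0 < Real.sin (st k) := Real.sin_pos_of_pos_of_lt_pi ha (by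
    linarith [Real.pi_gt_three])
  have h1 := tele2 hk12 (k + 1) (by omega) (le_refl _)
  have h2 := tele2 hk12 (M + 1) (by omega) (by omega)
  rw [← sum_Ico_consecutive _ (show 2 ≤ M + 1 by omega) (show M + 1 ≤ k + 1 by omega), h2] at h1
  have e : (2 * ((k + 1 : ℕ) : ℝ) - 1) * st k = st k + Real.pi / 2 := by
    push_cast
    linear_combination 2 * hka
  have e2 : (2 * ((M + 1 : ℕ) : ℝ) - 1) * st k = (2 * (M : ℝ) + 1) * st k := by
    push_cast
    ring
  rw [e, e2, Real.cos_add_pi_div_two, Real.sin_add_pi_div_two] at h1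
  have hx := h.sin_low (c := 2 * (M : ℝ) + 1) (by linarith) (by linarith)
  have hcx : Real.cos ((2 * (M : ℝ) + 1) * st k) ≤ 1 := Real.cos_le_one _
  have hxp : 0 < (2 * (M : ℝ) + 1) * st k := by positivity
  obtain ⟨s, hs⟩ : ∃ s, s = Real.sin (st k) := ⟨_, rfl⟩
  obtain ⟨c, hc⟩ : ∃ c, c = Real.cos (st k) := ⟨_, rfl⟩
  obtain ⟨X, hX⟩ : ∃ X, X = Real.sin ((2 * (M : ℝ) + 1) * st k) := ⟨_, rfl⟩
  obtain ⟨Y, hY⟩ : ∃ Y, Y = Real.cos ((2 * (M : ℝ) + 1) * st k) := ⟨_, rfl⟩
  rw [← hs, ← hc, ← hX, ← hY] at h1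
  rw [← hs] at hsle hsina
  rw [← hc] at hcosa
  rw [← hX] at hx
  rw [← hY] at hcx
  have hc0 : 0 < c := by linarith
  have hX0 : 0 < X := by
    have : 0 < 0.99 * ((2 * (M : ℝ) + 1) * st k) := by positivity
    linarith
  have h3 : ∑ m ∈ Ico (M + 1) (k + 1), 2 * Real.sin (st k) ^ 2 / Dm k m =
      s / c * (Y / X) + (s / c) * (s / c) := by
    rw [← hs]
    have : s / c * (-s / c) = - ((s / c) * (s / c)) := by ring
    linear_combination h1
  rw [h3]
  have hsc : s / c ≤ 1.0023 * st k := by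
    rw [div_le_iff₀ hc0]
    have h4 : 1.0023 * st k * 0.9978 ≤ 1.0023 * st k * c :=
      mul_le_mul_of_nonneg_left hcosa (by positivity)
    linarith
  have hsc0 : 0 ≤ s / c := by positivity
  have hYX : Y / X ≤ 1 / (4.95 * st k) := by
    rw [div_le_div_iff₀ hX0 (by positivity)]
    have h5 : 4.95 * st k ≤ X := by
      have h6 : 5 * st k ≤ (2 * (M : ℝ) + 1) * st k :=
        mul_le_mul_of_nonneg_right (by linarith) ha.le
      linarith
    have h7 : Y * (4.95 * st k) ≤ 1 * (4.95 * st k) :=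
      mul_le_mul_of_nonneg_right hcx (by positivity)
    linarith
  have h8 : s / c * (Y / X) ≤ 0.2025 := by
    calc s / c * (Y / X) ≤ s / c * (1 / (4.95 * st k)) := mul_le_mul_of_nonneg_left hYX hsc0
      _ ≤ 1.0023 * st k * (1 / (4.95 * st k)) :=
          mul_le_mul_of_nonneg_right hsc (by positivity)
      _ = 1.0023 / 4.95 := by field_simp
      _ ≤ 0.2025 := by norm_num
  have h9 : (s / c) * (s / c) ≤ 0.0003 := by
    have h10 : s / c ≤ 0.011 := by linarith
    calc (s / c) * (s / c) ≤ 0.011 * 0.011 := mul_le_mul h10 h10 hsc0 (by norm_num)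
      _ ≤ 0.0003 := by norm_num
  linarith

/-- the total of the bounds -/
lemma muG_sum (h : Par M k N) : 2 * ∑ m ∈ Icc 1 k, muG N k M m ≤
    2 * FG N k 1 + 1 / 3 + 1.01 * st k ^ 2 + 0.0639 / ((M : ℝ) + 1) ^ 2 := by
  have hk12 := h.k12
  have hMk := h.Mk
  have hM2 := h.hM
  have hMr := h.Mr
  have h1 : ∑ m ∈ Icc 1 k, muG N k M m = muG N k M 1 + ∑ m ∈ Ico 2 (k + 1), muG N k M m := by
    have : Icc 1 k = Ico 1 (k + 1) := by
      ext x; simp only [mem_Icc, mem_Ico]; omega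
    rw [this, Finset.sum_eq_sum_Ico_succ_bot (by omega)]
  have h2 : muG N k M 1 = FG N k 1 := by unfold muG; simp
  have h3 : 2 * ∑ m ∈ Ico 2 (k + 1), muG N k M m =
      ∑ m ∈ Ico 2 (k + 1), 2 * Real.sin (st k) ^ 2 / Dm k m +
        0.315 / ((M : ℝ) + 1) ^ 2 *
          ∑ m ∈ Ico (M + 1) (k + 1), 2 * Real.sin (st k) ^ 2 / Dm k m := by
    rw [← sum_Ico_consecutive _ (show 2 ≤ M + 1 by omega) (show M + 1 ≤ k + 1 by omega),
      ← sum_Ico_consecutive (fun m => 2 * Real.sin (st k) ^ 2 / Dm k m) (show 2 ≤ M + 1 by omega)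
        (show M + 1 ≤ k + 1 by omega), add_assoc, mul_add]
    congr 1
    · rw [mul_sum]
      apply sum_congr rfl
      intro m hm
      rw [mem_Ico] at hm
      unfold muG CG
      rw [if_neg (by omega), if_pos (by omega), if_pos (by omega), one_mul]
      ring
    · rw [mul_sum, mul_sum, ← sum_add_distrib]
      apply sum_congr rfl
      intro m hm
      rw [mem_Ico] at hm
      unfold muG CG
      rw [if_neg (by omega), if_pos (by omega), if_neg (by omega)]
      ring
  have h5 := tele2_le hk12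
  have h6 := mul_le_mul_of_nonneg_left h.tail (show 0 ≤ 0.315 / ((M : ℝ) + 1) ^ 2 by positivity)
  have h7 : 0.315 / ((M : ℝ) + 1) ^ 2 * 0.2028 ≤ 0.0639 / ((M : ℝ) + 1) ^ 2 := by
    rw [div_mul_eq_mul_div]
    apply div_le_div_of_nonneg_right (by norm_num) (by positivity)
  rw [h1, h2, mul_add, h3]
  linarith

/-- the final numerical inequality -/
lemma final (h : Par M k N) :
    2 * FG N k 1 + 1 / 3 + 1.01 * st k ^ 2 + 0.0639 / ((M : ℝ) + 1) ^ 2 < 1 := by
  have hMr := h.Mr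
  have hkr := h.kr
  have hM0 : (0 : ℝ) < (M : ℝ) + 1 := by linarith
  have hF := h.F_one_le
  have hF0 := h.F_one_pos
  have hb := h.beta
  have hka := k_mul_st h.k1
  have hk0 : (0 : ℝ) < k := by linarith
  obtain ⟨w, hw⟩ : ∃ w : ℝ, w = 1 / (k : ℝ) := ⟨_, rfl⟩
  rw [← hw] at hF hb
  have hkw : (k : ℝ) * w = 1 := by rw [hw]; field_simp
  -- `F 1 ≤ 1/3 - 0.43 w`
  have h1 : FG N k 1 ≤ 1 / 3 - 0.43 * w := by
    by_contra hc
    push Not at hc
    have h2 : (1 / 3 - 0.43 * w) * (3 + 4 * w) < FG N k 1 * (3 + 4 * w) :=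
      mul_lt_mul_of_pos_right hc (by linarith [hb.1])
    have h3 : (1 / 3 - 0.43 * w) * (3 + 4 * w) = 1 + (4 / 3 - 1.29) * w - 1.72 * (w * w) := by ring
    have h4 : w * w ≤ 1 / 76 * w := mul_le_mul_of_nonneg_right hb.2 hb.1.le
    linarith
  -- the other terms
  have h2 : 0.0639 / ((M : ℝ) + 1) ^ 2 ≤ 0.5751 * w := by
    rw [hw, mul_one_div, div_le_div_iff₀ (by positivity) hk0]
    have h3 : (k : ℝ) ≤ 9 * ((M : ℝ) + 1) ^ 2 := by exact_mod_cast h.hk2
    linarith
  have h3 : st k ^ 2 ≤ 0.0082 * w := by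
    have h4 : st k = Real.pi / 4 * w := by
      rw [← hka]
      linear_combination (-(st k)) * hkw
    have h5 : st k ≤ 0.7854 * w := by
      rw [h4]
      apply mul_le_mul_of_nonneg_right _ hb.1.le
      linarith [Real.pi_lt_d6]
    have h6 : st k ^ 2 = st k * st k := sq _
    rw [h6]
    calc st k * st k ≤ 0.0104 * (0.7854 * w) :=
          mul_le_mul h.a_le h5 h.a_pos.le (by norm_num)
      _ ≤ 0.0082 * w := by
          have := hb.1
          linarith
  linarith [hb.1]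

/-- **The dominating polynomial.** -/
theorem dom (h : Par M k N) (n : ℕ) (hn : (n : ℝ) ≤ N) :
    ∃ p : Polynomial ℝ, p.natDegree < k - 1 ∧
      ∑ j ∈ Ico 1 n, |p.eval ((j : ℕ) : ℝ)| < p.eval 0 := by
  have hk12 := h.k12
  have hk := h.k1
  have hb := h.beta
  have hr := h.rt_zero
  have hr1 : rt N k 0 < 1 := by linarith [hb.1]
  refine ⟨PG N k - Polynomial.taylor 1 (PG N k), ?_, ?_⟩
  · have := diff_deg (PG N k) (k - 2) (by have := PG_deg N k; omega)
    omega
  · have hev : ∀ x : ℝ, (PG N k - Polynomial.taylor 1 (PG N k)).eval x = FG N k x - FG N k (x + 1) := by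
      intro x
      rw [Polynomial.eval_sub, Polynomial.taylor_eval, PG_eval, PG_eval]
    simp only [hev]
    have hfin := h.final
    have hFp := h.F_one_pos
    have hMr := h.Mr
    have h468 : 0 ≤ 0.0639 / ((M : ℝ) + 1) ^ 2 := by positivity
    have hst := sq_nonneg (st k)
    rw [FG_zero, zero_add]
    rcases Nat.eq_zero_or_pos n with hn0 | hn0
    · subst hn0
      simp only [show Ico 1 0 = (∅ : Finset ℕ) by rfl, sum_empty]
      linarith
    · have hjN : ∀ j, j ≤ n → (j : ℝ) ≤ N := by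
        intro j hj
        have : (j : ℝ) ≤ n := by exact_mod_cast hj
        linarith
      have hN := h.N_pos
      have hp : ∀ m ∈ Ico 1 k, 0 < rt N k m := by
        intro m hm
        rw [mem_Ico] at hm
        exact rt_pos hN hm.2
      have hv := variation n k hn0 (fun j => FG N k (j : ℝ)) (lg N k) (muG N k M)
        (fun i j _ h' _ => lg_mono hN hk h')
        (fun j h1 h2 => lg_pos hN hk hr1 j h1 (hjN j h2)) (lg_le N hk n) (h.muG_nonneg)
        (fun j h1 h2 => h.boundG j h1 (hjN j h2))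
        (fun i j _ h2 h3 h4 => prod_sign _ _ hp _ _ (by exact_mod_cast h2)
          (no_rootG hN hk h2 (hjN j h3) h4))
        (fun i j l _ h2 h3 h4 h5 => prod_qc _ _ hp _ _ _ (by exact_mod_cast h2)
          (by exact_mod_cast h3) (no_rootG hN hk (by omega) (hjN l h4) h5))
      have hs := h.muG_sum
      simp only [Nat.cast_one] at hv
      rw [abs_of_nonneg (h.F_one_pos)] at hv
      have hsum : ∑ j ∈ Ico 1 n, |FG N k ((j : ℕ) : ℝ) - FG N k (((j : ℕ) : ℝ) + 1)| =
          ∑ j ∈ Ico 1 n, |FG N k ((j : ℕ) : ℝ) - FG N k (((j + 1 : ℕ)) : ℝ)| := by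
        apply sum_congr rfl
        intro j _
        push_cast
        rfl
      rw [hsum]
      linarith

end Par

/-- **Theorem U.** -/
theorem lowerU {k n : ℕ} (hk : 76 ≤ k)
    (hn : (n : ℝ) ≤ 4 / Real.pi ^ 2 * ((k : ℝ) * (k - 1))) :
    ∃ p : Polynomial ℝ, p.natDegree < k - 1 ∧
      ∑ j ∈ Ico 1 n, |p.eval ((j : ℕ) : ℝ)| < p.eval 0 := by
  obtain ⟨M, hM⟩ : ∃ M, M = Nat.sqrt (k / 9) := ⟨_, rfl⟩
  have hk0 : (0 : ℝ) < k := by
    have : 0 < k := by omega
    exact_mod_cast this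
  have hM1 : M * M ≤ k / 9 := by rw [hM]; exact Nat.sqrt_le (k / 9)
  have hM2 : k / 9 < (M + 1) * (M + 1) := by rw [hM]; exact Nat.lt_succ_sqrt (k / 9)
  have hM22 : 2 ≤ M := by
    rw [hM]
    rw [Nat.le_sqrt]
    omega
  have hkM : 9 * M ^ 2 ≤ k := by
    have : M ^ 2 = M * M := by ring
    rw [this]
    omega
  have hkM2 : k ≤ 9 * (M + 1) ^ 2 := by
    have : (M + 1) ^ 2 = (M + 1) * (M + 1) := by ring
    rw [this]
    omega
  have hst := st_pos (show 1 ≤ k by omega)
  have hpi := Real.pi_pos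
  obtain ⟨N, hN⟩ : ∃ N : ℝ, N = (1 - 1 / (k : ℝ)) / (4 * st k ^ 2) := ⟨_, rfl⟩
  have hPar : Par M k N := by
    refine ⟨hM22, hk, hkM, hkM2, ?_⟩
    rw [hN]
    field_simp
  have hN2 : N = 4 / Real.pi ^ 2 * ((k : ℝ) * (k - 1)) := by
    rw [hN]
    unfold st
    field_simp
  apply hPar.dom n
  rw [hN2]
  exact hn

end Pool.Agent.Work.MP_02e323_xi
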