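import Mathlib

/-!
# Discrete Fejér kernels: an even trigonometric polynomial of degree `D < k` and its second
derivative are bounded by the values at the points `m π / k`
-/

set_option autoImplicit false

open Finset

namespace Pool.Agent.Work.MP_02e323_xi

/-- Sums of cosines over the `2 k`-th roots of unity. -/
lemma sum_cos_zero {k : ℕ} (hk : 1 ≤ k) (r : ℤ) (hr : r ≠ 0) (hr1 : |r| < 2 * k) (α : ℝ) :
    ∑ m ∈ range (2 * k), Real.cos (α + r * (m * (Real.pi / k))) = 0 := by
  have hk0 : (0 : ℝ) < k := by exact_mod_cast hk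
  obtain ⟨x, hx⟩ : ∃ x : ℝ, x = r * (Real.pi / k) := ⟨_, rfl⟩
  have hs : Real.sin (x / 2) ≠ 0 := by
    rw [Ne, Real.sin_eq_zero_iff]
    rintro ⟨n, hn⟩
    have h1 : (n : ℝ) * (2 * k) = r := by
      rw [hx] at hn
      have h2 : (n : ℝ) * Real.pi = r * Real.pi / (2 * k) := by rw [hn]; field_simp
      have h3 : (n : ℝ) = r / (2 * k) := by
        have := Real.pi_ne_zero
        field_simp at h2 ⊢
        linarith
      rw [h3]
      field_simp
    have h4 : n * (2 * k) = r := by exact_mod_cast h1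
    rcases eq_or_ne n 0 with h5 | h5
    · rw [h5] at h4; simp at h4; exact hr h4.symm
    · have h6 : 1 ≤ |n| := Int.one_le_abs h5
      have h7 : |r| = |n| * (2 * k) := by
        rw [← h4, abs_mul]
        congr 1
        exact abs_of_nonneg (by positivity)
      nlinarith
  have key : ∀ n : ℕ, (∑ m ∈ range n, Real.cos (α + r * (m * (Real.pi / k)))) *
      (2 * Real.sin (x / 2)) = Real.sin (α - x / 2 + n * x) - Real.sin (α - x / 2) := by
    intro n
    induction n with
    | zero => simp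
    | succ n ih =>
      rw [sum_range_succ, add_mul, ih]
      have e1 : α + r * (n * (Real.pi / k)) = α + n * x := by rw [hx]; ring
      have e2 : α - x / 2 + ((n + 1 : ℕ) : ℝ) * x = (α + n * x) + x / 2 := by push_cast; ring
      have e3 : α - x / 2 + (n : ℝ) * x = (α + n * x) - x / 2 := by ring
      rw [e1, e2, e3, Real.sin_add, Real.sin_sub]
      ring
  have h1 := key (2 * k)
  have h2 : α - x / 2 + ((2 * k : ℕ) : ℝ) * x = α - x / 2 + r * (2 * Real.pi) := by
    rw [hx]; push_cast; field_simp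
  rw [h2, Real.sin_add_int_mul_two_pi, sub_self] at h1
  rcases mul_eq_zero.mp h1 with h3 | h3
  · exact h3
  · exfalso
    apply hs
    linarith

/-- `n` times the Fejér kernel -/
noncomputable def fej (n : ℕ) (φ : ℝ) : ℝ :=
  ∑ i ∈ range n, ∑ j ∈ range n, Real.cos (((i : ℤ) - (j : ℤ) : ℤ) * φ)

lemma fej_eq (n : ℕ) (φ : ℝ) : fej n φ =
    (∑ i ∈ range n, Real.cos (i * φ)) ^ 2 + (∑ i ∈ range n, Real.sin (i * φ)) ^ 2 := by
  unfold fej
  rw [sq, sq, sum_mul_sum, sum_mul_sum, ← sum_add_distrib]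
  apply sum_congr rfl
  intro i _
  rw [← sum_add_distrib]
  apply sum_congr rfl
  intro j _
  push_cast
  rw [sub_mul, Real.cos_sub]

lemma fej_nonneg (n : ℕ) (φ : ℝ) : 0 ≤ fej n φ := by
  rw [fej_eq]; positivity

lemma fej_le (n : ℕ) (φ : ℝ) : fej n φ ≤ (n : ℝ) ^ 2 := by
  unfold fej
  calc ∑ i ∈ range n, ∑ j ∈ range n, Real.cos (((i : ℤ) - (j : ℤ) : ℤ) * φ)
      ≤ ∑ i ∈ range n, ∑ j ∈ range n, (1 : ℝ) :=
        sum_le_sum (fun i _ => sum_le_sum (fun j _ => Real.cos_le_one _))
    _ = (n : ℝ) ^ 2 := by simp; ring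

lemma fej_zero (n : ℕ) : fej n 0 = (n : ℝ) ^ 2 := by
  unfold fej
  simp
  ring

lemma count_pairs (n p : ℕ) :
    ∑ i ∈ range n, ∑ j ∈ range n, (if (i : ℤ) - (j : ℤ) = p then (1 : ℝ) else 0) =
      ((n - p : ℕ) : ℝ) := by
  rw [sum_comm]
  have h1 : ∀ j ∈ range n, ∑ i ∈ range n, (if (i : ℤ) - (j : ℤ) = p then (1 : ℝ) else 0) =
      if j + p < n then 1 else 0 := by
    intro j _
    by_cases h : j + p < n
    · rw [if_pos h, sum_eq_single (j + p)]
      · rw [if_pos (by push_cast; ring)]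
      · intro b _ hb
        rw [if_neg]
        intro h2
        apply hb
        omega
      · intro h2
        exact absurd (mem_range.mpr h) h2
    · rw [if_neg h]
      apply sum_eq_zero
      intro i hi
      rw [mem_range] at hi
      rw [if_neg]
      intro h2
      omega
  rw [sum_congr rfl h1, ← sum_filter, sum_const, nsmul_eq_mul, mul_one]
  congr 1
  have : (range n).filter (fun j => j + p < n) = range (n - p) := by
    ext j
    simp only [mem_filter, mem_range]
    omega
  rw [this, card_range]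

lemma count_pairs' (n p : ℕ) :
    ∑ i ∈ range n, ∑ j ∈ range n, (if (i : ℤ) - (j : ℤ) = -(p : ℤ) then (1 : ℝ) else 0) =
      ((n - p : ℕ) : ℝ) := by
  rw [← count_pairs n p, sum_comm]
  apply sum_congr rfl
  intro i _
  apply sum_congr rfl
  intro j _
  congr 1
  apply propext
  constructor <;> intro h <;> omega

/-- The action of the kernel on `cos (p θ)`. -/
lemma ker_cos {k : ℕ} (hk : 1 ≤ k) (n p : ℕ) (hnp : n + p ≤ 2 * k) (θ : ℝ) :
    ∑ m ∈ range (2 * k), Real.cos (p * (m * (Real.pi / k))) * fej n (θ - m * (Real.pi / k)) =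
      2 * k * ((n - p : ℕ) : ℝ) * Real.cos (p * θ) := by
  have hr : ∀ r : ℤ, |r| < n →
      ∑ m ∈ range (2 * k), Real.cos (p * (m * (Real.pi / k))) *
        Real.cos (r * (θ - m * (Real.pi / k))) =
      k * Real.cos (p * θ) * (if r = p then 1 else 0) +
        k * Real.cos (p * θ) * (if r = -(p : ℤ) then 1 else 0) := by
    intro r hr
    have e : ∀ m : ℕ, Real.cos (p * (m * (Real.pi / k))) * Real.cos (r * (θ - m * (Real.pi / k))) =
        1 / 2 * Real.cos (r * θ + ((p : ℤ) - r : ℤ) * (m * (Real.pi / k))) +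
        1 / 2 * Real.cos (r * θ + (-((p : ℤ) + r) : ℤ) * (m * (Real.pi / k))) := by
      intro m
      have e1 : (r : ℝ) * θ + ((p : ℤ) - r : ℤ) * (m * (Real.pi / k)) =
          p * (m * (Real.pi / k)) + r * (θ - m * (Real.pi / k)) := by push_cast; ring
      have e2 : (r : ℝ) * θ + (-((p : ℤ) + r) : ℤ) * (m * (Real.pi / k)) =
          r * (θ - m * (Real.pi / k)) - p * (m * (Real.pi / k)) := by push_cast; ring
      rw [e1, e2, Real.cos_add, Real.cos_sub (r * (θ - m * (Real.pi / k)))]
      ring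
    simp only [e]
    rw [sum_add_distrib, ← mul_sum, ← mul_sum]
    congr 1
    · by_cases h : r = p
      · rw [if_pos h, h]
        simp
        ring
      · rw [if_neg h, sum_cos_zero hk]
        · simp
        · intro h2; apply h; omega
        · rw [abs_lt] at hr ⊢
          constructor <;> omega
    · by_cases h : r = -(p : ℤ)
      · rw [if_pos h, h]
        simp
        ring
      · rw [if_neg h, sum_cos_zero hk]
        · simp
        · intro h2; apply h; omega
        · rw [abs_lt] at hr ⊢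
          constructor <;> omega
  unfold fej
  simp only [mul_sum]
  rw [sum_comm]
  have h1 : ∀ i ∈ range n, ∑ m ∈ range (2 * k), ∑ j ∈ range n,
      Real.cos (p * (m * (Real.pi / k))) *
        Real.cos (((i : ℤ) - (j : ℤ) : ℤ) * (θ - m * (Real.pi / k))) =
      ∑ j ∈ range n, (k * Real.cos (p * θ) * (if (i : ℤ) - (j : ℤ) = p then 1 else 0) +
        k * Real.cos (p * θ) * (if (i : ℤ) - (j : ℤ) = -(p : ℤ) then 1 else 0)) := by
    intro i hi
    rw [sum_comm]
    apply sum_congr rfl
    intro j hj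
    rw [mem_range] at hi hj
    apply hr
    rw [abs_lt]
    constructor <;> omega
  rw [sum_congr rfl h1]
  simp only [sum_add_distrib, ← mul_sum]
  rw [count_pairs, count_pairs']
  ring

/-- Alternating sums. -/
lemma alt_cos {k p : ℕ} (hp : p < k) :
    ∑ m ∈ range k, (-1 : ℝ) ^ m * (Real.cos (p * (m * (Real.pi / k))) -
      Real.cos (p * ((m + 1 : ℕ) * (Real.pi / k)))) = 0 := by
  have hk0 : (0 : ℝ) < k := by
    have : 0 < k := by omega
    exact_mod_cast this
  obtain ⟨x, hx⟩ : ∃ x : ℝ, x = p * (Real.pi / k) := ⟨_, rfl⟩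
  have hx0 : 0 ≤ x := by rw [hx]; have := Real.pi_pos; positivity
  have hxpi : x < Real.pi := by
    rw [hx, ← mul_div_assoc, div_lt_iff₀ hk0, mul_comm]
    apply mul_lt_mul_of_pos_left _ Real.pi_pos
    exact_mod_cast hp
  have hc : 0 < Real.cos (x / 2) := by
    apply Real.cos_pos_of_mem_Ioo
    constructor <;> linarith [Real.pi_pos]
  have key : ∀ n : ℕ, (∑ m ∈ range n, (-1 : ℝ) ^ m * (Real.cos (p * (m * (Real.pi / k))) -
      Real.cos (p * ((m + 1 : ℕ) * (Real.pi / k))))) * Real.cos (x / 2) =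
      - (-1 : ℝ) ^ n * Real.sin (n * x) * Real.sin (x / 2) := by
    intro n
    induction n with
    | zero => simp
    | succ n ih =>
      rw [sum_range_succ, add_mul, ih]
      have e1 : (p : ℝ) * (n * (Real.pi / k)) = (n * x) := by rw [hx]; ring
      have e2 : (p : ℝ) * (((n + 1 : ℕ) : ℝ) * (Real.pi / k)) = n * x + x := by
        rw [hx]; push_cast; ring
      have e3 : ((n + 1 : ℕ) : ℝ) * x = n * x + x := by push_cast; ring
      rw [e1, e2, e3]
      obtain ⟨A, hA⟩ : ∃ A : ℝ, A = n * x := ⟨_, rfl⟩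
      rw [← hA]
      have e4 : x = 2 * (x / 2) := by ring
      obtain ⟨y, hy⟩ : ∃ y : ℝ, y = x / 2 := ⟨_, rfl⟩
      rw [← hy] at e4 ⊢
      rw [e4, Real.cos_add, Real.sin_add, Real.cos_two_mul, Real.sin_two_mul]
      have hsq := Real.sin_sq_add_cos_sq y
      linear_combination (-2 * (-1 : ℝ) ^ n * Real.cos A * Real.cos y) * hsq
  have h1 := key k
  have h2 : (k : ℝ) * x = p * Real.pi := by rw [hx]; field_simp
  rw [h2, Real.sin_nat_mul_pi] at h1
  have h3 : (∑ m ∈ range k, (-1 : ℝ) ^ m * (Real.cos (p * (m * (Real.pi / k))) -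
      Real.cos (p * ((m + 1 : ℕ) * (Real.pi / k))))) * Real.cos (x / 2) = 0 := by
    rw [h1]; ring
  rcases mul_eq_zero.mp h3 with h4 | h4
  · exact h4
  · exfalso; linarith

end Pool.Agent.Work.MP_02e323_xi
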