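import Mathlib
import Pool.Agent.Work.MP_02e323_xi.Ker

/-!
# Even trigonometric polynomials of degree `D < k` and their values at the points `m π / k`
-/

set_option autoImplicit false

open Finset

namespace Pool.Agent.Work.MP_02e323_xi

/-- the even trigonometric polynomial with coefficients `c` -/
noncomputable def tp (c : ℕ → ℝ) (D : ℕ) (θ : ℝ) : ℝ := ∑ p ∈ range (D + 1), c p * Real.cos (p * θ)

lemma ker_tp {k : ℕ} (hk : 1 ≤ k) (c : ℕ → ℝ) (D n : ℕ) (hn : n + D ≤ 2 * k) (θ : ℝ) :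
    ∑ m ∈ range (2 * k), tp c D (m * (Real.pi / k)) * fej n (θ - m * (Real.pi / k)) =
      2 * k * ∑ p ∈ range (D + 1), ((n - p : ℕ) : ℝ) * (c p * Real.cos (p * θ)) := by
  unfold tp
  simp only [sum_mul]
  rw [sum_comm, mul_sum]
  apply sum_congr rfl
  intro p hp
  rw [mem_range] at hp
  have h := ker_cos hk n p (by omega) θ
  have e : ∀ m : ℕ, c p * Real.cos (p * (m * (Real.pi / k))) * fej n (θ - m * (Real.pi / k)) =
      c p * (Real.cos (p * (m * (Real.pi / k))) * fej n (θ - m * (Real.pi / k))) := by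
    intro m; ring
  simp only [e]
  rw [← mul_sum, h]
  ring

lemma ker_abs {k : ℕ} (hk : 1 ≤ k) (T : ℝ → ℝ) (n : ℕ) (hn : n ≤ 2 * k) (θ A : ℝ)
    (hA : ∀ m : ℕ, |T (m * (Real.pi / k))| ≤ A) :
    |∑ m ∈ range (2 * k), T (m * (Real.pi / k)) * fej n (θ - m * (Real.pi / k))| ≤
      2 * k * n * A := by
  have h := ker_cos hk n 0 (by omega) θ
  simp only [Nat.cast_zero, zero_mul, Real.cos_zero, one_mul, Nat.sub_zero, mul_one] at h
  calc |∑ m ∈ range (2 * k), T (m * (Real.pi / k)) * fej n (θ - m * (Real.pi / k))|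
      ≤ ∑ m ∈ range (2 * k), |T (m * (Real.pi / k)) * fej n (θ - m * (Real.pi / k))| :=
        abs_sum_le_sum_abs _ _
    _ ≤ ∑ m ∈ range (2 * k), A * fej n (θ - m * (Real.pi / k)) := by
        apply sum_le_sum
        intro m _
        rw [abs_mul, abs_of_nonneg (fej_nonneg _ _)]
        exact mul_le_mul_of_nonneg_right (hA m) (fej_nonneg _ _)
    _ = 2 * k * n * A := by rw [← mul_sum, h]; ring

/-- **Sup bound.** -/
lemma tp_sup {k : ℕ} (hk : 1 ≤ k) (c : ℕ → ℝ) (D : ℕ) (hD : D ≤ k) (A θ : ℝ)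
    (hA : ∀ m : ℕ, |tp c D (m * (Real.pi / k))| ≤ A) :
    |tp c D θ| * (k - D) ≤ k * A := by
  have hk0 : (0 : ℝ) < k := by exact_mod_cast hk
  have hD0 : (D : ℝ) ≤ k := by exact_mod_cast hD
  have h1 := ker_tp hk c D (2 * k - D) (by omega) θ
  have h2 := ker_tp hk c D D (by omega) θ
  have h3 := ker_abs hk (tp c D) (2 * k - D) (by omega) θ A hA
  have h4 := ker_abs hk (tp c D) D (by omega) θ A hA
  rw [h1] at h3
  rw [h2] at h4
  have hd : ∑ p ∈ range (D + 1), ((2 * k - D - p : ℕ) : ℝ) * (c p * Real.cos (p * θ)) -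
      ∑ p ∈ range (D + 1), ((D - p : ℕ) : ℝ) * (c p * Real.cos (p * θ)) =
      2 * (k - D) * tp c D θ := by
    unfold tp
    rw [mul_sum, ← sum_sub_distrib]
    apply sum_congr rfl
    intro p hp
    rw [mem_range] at hp
    have e1 : ((2 * k - D - p : ℕ) : ℝ) = 2 * k - D - p := by
      rw [Nat.cast_sub (by omega), Nat.cast_sub (by omega)]
      push_cast
      ring
    have e2 : ((D - p : ℕ) : ℝ) = D - p := by
      rw [Nat.cast_sub (by omega)]
    rw [e1, e2]
    ring
  have e3 : ((2 * k - D : ℕ) : ℝ) = 2 * k - D := by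
    rw [Nat.cast_sub (by omega)]
    push_cast
    ring
  rw [e3] at h3
  have h5 : |2 * (k : ℝ) * (2 * (k - D) * tp c D θ)| ≤ 2 * k * (2 * k - D) * A + 2 * k * D * A := by
    rw [← hd, mul_sub]
    exact (abs_sub _ _).trans (add_le_add h3 h4)
  rw [abs_mul (2 * (k : ℝ)) _, abs_mul (2 * ((k : ℝ) - D)) _,
    abs_of_nonneg (show (0 : ℝ) ≤ 2 * k by positivity),
    abs_of_nonneg (show (0 : ℝ) ≤ 2 * ((k : ℝ) - D) by linarith)] at h5
  have h6 : (4 * (k : ℝ)) * (|tp c D θ| * (k - D)) ≤ (4 * k) * (k * A) := by nlinarith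
  exact le_of_mul_le_mul_left h6 (by positivity)

lemma sum_tri (D p : ℕ) (hp : p ≤ D) :
    ∑ n ∈ range (D + 1), 2 * ((n - p : ℕ) : ℝ) = ((D : ℝ) - p) * (D - p + 1) := by
  induction D, hp using Nat.le_induction with
  | base =>
    rw [sub_self, zero_mul]
    apply sum_eq_zero
    intro n hn
    rw [mem_range] at hn
    have : n - p = 0 := by omega
    rw [this]; simp
  | succ D hD ih =>
    rw [sum_range_succ, ih, Nat.cast_sub (by omega)]
    push_cast
    ring

/-- **Bernstein type bound** for the second derivative. -/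
lemma tp_second {k : ℕ} (hk : 1 ≤ k) (c : ℕ → ℝ) (D : ℕ) (hD : D ≤ k) (hD1 : 1 ≤ D) (G θ : ℝ)
    (hG : ∀ θ, |tp c D θ| ≤ G) :
    |∑ p ∈ range (D + 1), c p * (p : ℝ) ^ 2 * Real.cos (p * θ)| ≤ 6 * (D : ℝ) ^ 2 * G := by
  have hk0 : (0 : ℝ) < k := by exact_mod_cast hk
  have hD10 : (1 : ℝ) ≤ D := by exact_mod_cast hD1
  have hG0 : 0 ≤ G := (abs_nonneg _).trans (hG 0)
  obtain ⟨S, hS⟩ : ∃ S : ℕ → ℝ, S = fun n =>
      ∑ p ∈ range (D + 1), ((n - p : ℕ) : ℝ) * (c p * Real.cos (p * θ)) := ⟨_, rfl⟩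
  have hSb : ∀ n, n ≤ D → |S n| ≤ n * G := by
    intro n hn
    have h1 := ker_tp hk c D n (by omega) θ
    have h2 := ker_abs hk (tp c D) n (by omega) θ G (fun m => hG _)
    rw [h1, abs_mul, abs_of_nonneg (show (0 : ℝ) ≤ 2 * k by positivity)] at h2
    have h3 : (2 * (k : ℝ)) * |S n| ≤ (2 * k) * (n * G) := by
      rw [hS]
      linarith
    exact le_of_mul_le_mul_left h3 (by positivity)
  have hid : ∑ p ∈ range (D + 1), c p * (p : ℝ) ^ 2 * Real.cos (p * θ) =
      ∑ n ∈ range (D + 1), 2 * S n - (2 * D + 1) * S D + D ^ 2 * tp c D θ := by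
    rw [hS]
    simp only [tp, mul_sum]
    rw [sum_comm (s := range (D + 1)) (t := range (D + 1)), ← sum_sub_distrib, ← sum_add_distrib]
    apply sum_congr rfl
    intro p hp
    rw [mem_range] at hp
    have h1 := sum_tri D p (by omega)
    have h2 : ∑ n ∈ range (D + 1), 2 * (((n - p : ℕ) : ℝ) * (c p * Real.cos (p * θ))) =
        (∑ n ∈ range (D + 1), 2 * ((n - p : ℕ) : ℝ)) * (c p * Real.cos (p * θ)) := by
      rw [sum_mul]
      apply sum_congr rfl
      intro n _
      ring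
    rw [h2, h1, Nat.cast_sub (show p ≤ D by omega)]
    ring
  have hs1 : |∑ n ∈ range (D + 1), 2 * S n| ≤ D * (D + 1) * G := by
    calc |∑ n ∈ range (D + 1), 2 * S n| ≤ ∑ n ∈ range (D + 1), |2 * S n| := abs_sum_le_sum_abs _ _
      _ ≤ ∑ n ∈ range (D + 1), 2 * ((n : ℝ) * G) := by
          apply sum_le_sum
          intro n hn
          rw [mem_range] at hn
          rw [abs_mul, abs_of_nonneg (show (0 : ℝ) ≤ 2 by norm_num)]
          have := hSb n (by omega)
          linarith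
      _ = (∑ n ∈ range (D + 1), 2 * ((n - 0 : ℕ) : ℝ)) * G := by
          rw [sum_mul]
          apply sum_congr rfl
          intro n _
          simp
          ring
      _ = D * (D + 1) * G := by
          rw [sum_tri D 0 (by omega)]
          push_cast
          ring
  have hs2 := hSb D (le_refl _)
  have hs3 := hG θ
  rw [hid]
  calc |∑ n ∈ range (D + 1), 2 * S n - (2 * D + 1) * S D + D ^ 2 * tp c D θ|
      ≤ |∑ n ∈ range (D + 1), 2 * S n| + |(2 * (D : ℝ) + 1) * S D| + |(D : ℝ) ^ 2 * tp c D θ| := by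
        refine (abs_add_le _ _).trans ?_
        have := abs_sub (∑ n ∈ range (D + 1), 2 * S n) ((2 * (D : ℝ) + 1) * S D)
        linarith
    _ ≤ D * (D + 1) * G + (2 * D + 1) * (D * G) + D ^ 2 * G := by
        rw [abs_mul, abs_mul, abs_of_nonneg (show (0 : ℝ) ≤ 2 * D + 1 by positivity),
          abs_of_nonneg (show (0 : ℝ) ≤ (D : ℝ) ^ 2 by positivity)]
        have h1 : (2 * (D : ℝ) + 1) * |S D| ≤ (2 * D + 1) * (D * G) :=
          mul_le_mul_of_nonneg_left hs2 (by positivity)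
        have h2 : (D : ℝ) ^ 2 * |tp c D θ| ≤ D ^ 2 * G :=
          mul_le_mul_of_nonneg_left hs3 (by positivity)
        linarith
    _ ≤ 6 * (D : ℝ) ^ 2 * G := by nlinarith [mul_nonneg (show (0 : ℝ) ≤ D by linarith) hG0]

/-- Alternating sums vanish. -/
lemma tp_alt (c : ℕ → ℝ) (D k : ℕ) (hD : D < k) :
    ∑ m ∈ range k, (-1 : ℝ) ^ m * (tp c D (m * (Real.pi / k)) -
      tp c D ((m + 1 : ℕ) * (Real.pi / k))) = 0 := by
  unfold tp
  have e : ∀ m : ℕ, (-1 : ℝ) ^ m *
      (∑ p ∈ range (D + 1), c p * Real.cos (p * (m * (Real.pi / k))) -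
        ∑ p ∈ range (D + 1), c p * Real.cos (p * ((m + 1 : ℕ) * (Real.pi / k)))) =
      ∑ p ∈ range (D + 1), c p * ((-1 : ℝ) ^ m * (Real.cos (p * (m * (Real.pi / k))) -
        Real.cos (p * ((m + 1 : ℕ) * (Real.pi / k))))) := by
    intro m
    rw [← sum_sub_distrib, mul_sum]
    apply sum_congr rfl
    intro p _
    ring
  simp only [e]
  rw [sum_comm]
  apply sum_eq_zero
  intro p hp
  rw [mem_range] at hp
  rw [← mul_sum, alt_cos (by omega), mul_zero]

/-- Polynomials in `cos θ` are even trigonometric polynomials. -/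
lemma exists_tp (D : ℕ) : ∀ P : Polynomial ℝ, P.natDegree ≤ D →
    ∃ c : ℕ → ℝ, ∀ θ, P.eval (Real.cos θ) = tp c D θ := by
  induction D with
  | zero =>
    intro P hP
    refine ⟨fun _ => P.coeff 0, fun θ => ?_⟩
    rw [Polynomial.eq_C_of_natDegree_le_zero hP]
    simp [tp]
  | succ D ih =>
    intro P hP
    obtain ⟨a, ha⟩ : ∃ a : ℝ, a = P.coeff (D + 1) / 2 ^ D := ⟨_, rfl⟩
    have hT : (Polynomial.Chebyshev.T ℝ ((D + 1 : ℕ) : ℤ)).natDegree = D + 1 := by
      rw [Polynomial.Chebyshev.natDegree_T]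
      exact Int.natAbs_natCast _
    have hlc : (Polynomial.Chebyshev.T ℝ ((D + 1 : ℕ) : ℤ)).coeff (D + 1) = 2 ^ D := by
      have h := Polynomial.Chebyshev.leadingCoeff_T ℝ ((D + 1 : ℕ) : ℤ)
      rw [Polynomial.leadingCoeff, hT, Int.natAbs_natCast] at h
      rw [h]
      simp
    have hdeg : (P - Polynomial.C a * Polynomial.Chebyshev.T ℝ ((D + 1 : ℕ) : ℤ)).natDegree ≤ D := by
      rw [Polynomial.natDegree_le_iff_coeff_eq_zero]
      intro n hn
      rw [Polynomial.coeff_sub, Polynomial.coeff_C_mul]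
      rcases Nat.lt_or_ge (D + 1) n with h | h
      · rw [Polynomial.coeff_eq_zero_of_natDegree_lt (by omega),
          Polynomial.coeff_eq_zero_of_natDegree_lt (by omega)]
        ring
      · have : n = D + 1 := by omega
        rw [this, hlc, ha]
        field_simp
        ring
    obtain ⟨c, hc⟩ := ih _ hdeg
    refine ⟨fun p => if p = D + 1 then a else c p, fun θ => ?_⟩
    have h1 := hc θ
    rw [Polynomial.eval_sub, Polynomial.eval_mul, Polynomial.eval_C,
      Polynomial.Chebyshev.T_real_cos] at h1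
    have h2 : tp (fun p => if p = D + 1 then a else c p) (D + 1) θ =
        tp c D θ + a * Real.cos (((D + 1 : ℕ) : ℝ) * θ) := by
      unfold tp
      rw [sum_range_succ]
      congr 1
      · apply sum_congr rfl
        intro p hp
        rw [mem_range] at hp
        have : ¬ (p = D + 1) := by omega
        simp [this]
      · simp
    rw [h2, ← h1]
    push_cast
    ring

end Pool.Agent.Work.MP_02e323_xi
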