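import Mathlib
import Pool.Agent.Work.MP_02e323_xi.Mz

/-!
# Derivative bounds for a polynomial bounded on `[0, N]`, and linear interpolation
-/

set_option autoImplicit false

open Finset

namespace Pool.Agent.Work.MP_02e323_xi

/-- the change of variables -/
noncomputable def xx (N θ : ℝ) : ℝ := N / 2 * (1 - Real.cos θ)

lemma exists_tp_xx (g : Polynomial ℝ) (D : ℕ) (hg : g.natDegree ≤ D) (N : ℝ) :
    ∃ c : ℕ → ℝ, ∀ θ, g.eval (xx N θ) = tp c D θ := by
  obtain ⟨c, hc⟩ := exists_tp D (g.comp (Polynomial.C (N / 2) * (1 - Polynomial.X))) (by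
    refine (Polynomial.natDegree_comp_le).trans ?_
    have h1 : (Polynomial.C (N / 2) * (1 - Polynomial.X) : Polynomial ℝ).natDegree ≤ 1 := by
      refine (Polynomial.natDegree_C_mul_le _ _).trans ?_
      refine (Polynomial.natDegree_sub_le _ _).trans ?_
      simp
    calc g.natDegree * (Polynomial.C (N / 2) * (1 - Polynomial.X) : Polynomial ℝ).natDegree
        ≤ D * 1 := Nat.mul_le_mul hg h1
      _ = D := mul_one D)
  refine ⟨c, fun θ => ?_⟩
  rw [← hc θ]
  simp [xx]

lemma xx_mem {N : ℝ} (hN : 0 ≤ N) (θ : ℝ) : 0 ≤ xx N θ ∧ xx N θ ≤ N := by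
  unfold xx
  have h1 := Real.cos_le_one θ
  have h2 := Real.neg_one_le_cos θ
  constructor
  · nlinarith
  · nlinarith

lemma hasDeriv_tp (c : ℕ → ℝ) (D : ℕ) (θ : ℝ) :
    HasDerivAt (tp c D) (-∑ p ∈ range (D + 1), c p * p * Real.sin (p * θ)) θ := by
  unfold tp
  rw [← sum_neg_distrib]
  apply HasDerivAt.fun_sum
  intro p _
  have h1 : HasDerivAt (fun θ : ℝ => (p : ℝ) * θ) p θ := by
    simpa using (hasDerivAt_id θ).const_mul (p : ℝ)
  have h2 := (h1.cos).const_mul (c p)
  exact h2.congr_deriv (by ring)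

lemma hasDeriv_tp1 (c : ℕ → ℝ) (D : ℕ) (θ : ℝ) :
    HasDerivAt (fun θ => -∑ p ∈ range (D + 1), c p * p * Real.sin (p * θ))
      (-∑ p ∈ range (D + 1), c p * (p : ℝ) ^ 2 * Real.cos (p * θ)) θ := by
  apply HasDerivAt.fun_neg
  apply HasDerivAt.fun_sum
  intro p _
  have h1 : HasDerivAt (fun θ : ℝ => (p : ℝ) * θ) p θ := by
    simpa using (hasDerivAt_id θ).const_mul (p : ℝ)
  have h2 := (h1.sin).const_mul (c p * p)
  exact h2.congr_deriv (by ring)

lemma hasDeriv_xx (N θ : ℝ) : HasDerivAt (xx N) (N / 2 * Real.sin θ) θ := by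
  unfold xx
  have h := ((Real.hasDerivAt_cos θ).const_sub 1).const_mul (N / 2)
  exact h.congr_deriv (by ring)

/-- **Derivative bounds.** -/
theorem deriv_bounds {k : ℕ} (hk : 1 ≤ k) (g : Polynomial ℝ) (D : ℕ) (hg : g.natDegree ≤ D)
    (hD : D ≤ k) (hD1 : 1 ≤ D) (N : ℝ) (hN : 0 < N) (G : ℝ)
    (hG : ∀ x, 0 ≤ x → x ≤ N → |g.eval x| ≤ G) (x : ℝ) (hx0 : 0 < x) (hxN : x < N) :
    |g.derivative.eval x| * N ≤ 6 * Real.pi * (D : ℝ) ^ 2 * G ∧
      |g.derivative.derivative.eval x| * (x * (N - x)) ≤ 16 * (D : ℝ) ^ 2 * G := by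
  obtain ⟨c, hc⟩ := exists_tp_xx g D hg N
  have hG0 : 0 ≤ G := (abs_nonneg _).trans (hG x hx0.le hxN.le)
  have hGt : ∀ θ, |tp c D θ| ≤ G := by
    intro θ
    rw [← hc θ]
    exact hG _ (xx_mem hN.le θ).1 (xx_mem hN.le θ).2
  obtain ⟨M, hM⟩ : ∃ M : ℝ, M = 6 * (D : ℝ) ^ 2 * G := ⟨_, rfl⟩
  have hM0 : 0 ≤ M := by rw [hM]; positivity
  have h2nd : ∀ θ, |-∑ p ∈ range (D + 1), c p * (p : ℝ) ^ 2 * Real.cos (p * θ)| ≤ M := by
    intro θ
    rw [abs_neg, hM]
    exact tp_second hk c D hD hD1 G θ hGt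
  obtain ⟨t1, ht1⟩ : ∃ t1 : ℝ → ℝ, t1 = fun θ => -∑ p ∈ range (D + 1), c p * p * Real.sin (p * θ) :=
    ⟨_, rfl⟩
  have hLip : ∀ a b : ℝ, |t1 b - t1 a| ≤ M * |b - a| := by
    intro a b
    have h := Convex.norm_image_sub_le_of_norm_hasDerivWithin_le (f := t1)
      (f' := fun θ => -∑ p ∈ range (D + 1), c p * (p : ℝ) ^ 2 * Real.cos (p * θ)) (C := M)
      (s := Set.univ) (x := a) (y := b)
      (fun θ _ => by rw [ht1]; exact (hasDeriv_tp1 c D θ).hasDerivWithinAt)
      (fun θ _ => h2nd θ) convex_univ (Set.mem_univ _) (Set.mem_univ _)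
    simpa [Real.norm_eq_abs] using h
  have ht10 : t1 0 = 0 := by rw [ht1]; simp
  have ht1pi : t1 Real.pi = 0 := by
    rw [ht1]
    simp only [neg_eq_zero]
    apply sum_eq_zero
    intro p _
    rw [Real.sin_nat_mul_pi]
    ring
  -- the point
  obtain ⟨θ, hθ⟩ : ∃ θ : ℝ, θ = Real.arccos (1 - 2 * x / N) := ⟨_, rfl⟩
  have hr : 1 - 2 * x / N < 1 ∧ -1 < 1 - 2 * x / N := by
    have h1 : 0 < 2 * x / N := by positivity
    have h2 : 2 * x / N < 2 := by rw [div_lt_iff₀ hN]; linarith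
    constructor <;> linarith
  have hcosθ : Real.cos θ = 1 - 2 * x / N := by
    rw [hθ]
    exact Real.cos_arccos hr.2.le hr.1.le
  have hxθ : xx N θ = x := by
    unfold xx
    rw [hcosθ]
    field_simp
    ring
  have hθ0 : 0 < θ := by rw [hθ]; exact Real.arccos_pos.mpr hr.1
  have hθpi : θ < Real.pi := by rw [hθ]; exact Real.arccos_lt_pi.mpr hr.2
  have hsin : 0 < Real.sin θ := Real.sin_pos_of_pos_of_lt_pi hθ0 hθpi
  have hsin2 : (N / 2 * Real.sin θ) ^ 2 = x * (N - x) := by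
    have h1 := Real.sin_sq_add_cos_sq θ
    have h2 : Real.sin θ ^ 2 = 1 - (1 - 2 * x / N) ^ 2 := by rw [← hcosθ]; linarith
    rw [mul_pow, h2]
    field_simp
    ring
  have ht1b : |t1 θ| ≤ M * (Real.pi / 2 * Real.sin θ) := by
    rcases le_or_gt θ (Real.pi / 2) with h | h
    · have h1 := hLip 0 θ
      rw [ht10, sub_zero, sub_zero, abs_of_pos hθ0] at h1
      have h2 := Real.mul_le_sin hθ0.le h
      refine h1.trans (mul_le_mul_of_nonneg_left ?_ hM0)
      have h3 : θ = Real.pi / 2 * (2 / Real.pi * θ) := by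
        have := Real.pi_ne_zero
        field_simp
      rw [h3]
      have h4 : 2 / Real.pi * (Real.pi / 2 * (2 / Real.pi * θ)) = 2 / Real.pi * θ := by
        have := Real.pi_ne_zero
        field_simp
      have h5 : Real.sin (Real.pi / 2 * (2 / Real.pi * θ)) = Real.sin θ := by rw [← h3]
      rw [h5]
      apply mul_le_mul_of_nonneg_left h2
      have := Real.pi_pos
      positivity
    · have h1 := hLip Real.pi θ
      rw [ht1pi, sub_zero] at h1
      have h0 : |θ - Real.pi| = Real.pi - θ := by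
        rw [abs_sub_comm]
        exact abs_of_pos (by linarith)
      rw [h0] at h1
      have h2 := Real.mul_le_sin (x := Real.pi - θ) (by linarith) (by linarith)
      rw [Real.sin_pi_sub] at h2
      refine h1.trans (mul_le_mul_of_nonneg_left ?_ hM0)
      have h3 : Real.pi - θ = Real.pi / 2 * (2 / Real.pi * (Real.pi - θ)) := by
        have := Real.pi_ne_zero
        field_simp
      rw [h3]
      apply mul_le_mul_of_nonneg_left h2
      have := Real.pi_pos
      positivity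
  -- derivatives of the composite
  have hcomp1 : ∀ θ, t1 θ = g.derivative.eval (xx N θ) * (N / 2 * Real.sin θ) := by
    intro θ
    have h1 : HasDerivAt (tp c D) (g.derivative.eval (xx N θ) * (N / 2 * Real.sin θ)) θ := by
      have h2 := (g.hasDerivAt (xx N θ)).comp θ (hasDeriv_xx N θ)
      have h3 : (fun x => Polynomial.eval x g) ∘ xx N = tp c D := by
        funext θ
        exact hc θ
      rw [h3] at h2
      exact h2
    rw [ht1]
    exact (hasDeriv_tp c D θ).unique h1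
  have hcomp2 : -∑ p ∈ range (D + 1), c p * (p : ℝ) ^ 2 * Real.cos (p * θ) =
      g.derivative.derivative.eval (xx N θ) * (N / 2 * Real.sin θ) * (N / 2 * Real.sin θ) +
        g.derivative.eval (xx N θ) * (N / 2 * Real.cos θ) := by
    have h1 : HasDerivAt t1 (g.derivative.derivative.eval (xx N θ) * (N / 2 * Real.sin θ) *
        (N / 2 * Real.sin θ) + g.derivative.eval (xx N θ) * (N / 2 * Real.cos θ)) θ := by
      have h2 : HasDerivAt (fun θ => g.derivative.eval (xx N θ))
          (g.derivative.derivative.eval (xx N θ) * (N / 2 * Real.sin θ)) θ :=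
        (g.derivative.hasDerivAt (xx N θ)).comp θ (hasDeriv_xx N θ)
      have h3 : HasDerivAt (fun θ => N / 2 * Real.sin θ) (N / 2 * Real.cos θ) θ :=
        (Real.hasDerivAt_sin θ).const_mul (N / 2)
      have h4 := h2.mul h3
      have h5 : t1 = (fun θ => g.derivative.eval (xx N θ)) * (fun θ => N / 2 * Real.sin θ) := by
        funext θ
        exact hcomp1 θ
      rw [h5]
      exact h4
    have h2 := hasDeriv_tp1 c D θ
    rw [← ht1] at h2
    exact h2.unique h1
  rw [hxθ] at hcomp2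
  have hc1 := hcomp1 θ
  rw [hxθ] at hc1
  rw [hc1, abs_mul, abs_of_pos (show 0 < N / 2 * Real.sin θ by positivity)] at ht1b
  have hfirst : |g.derivative.eval x| * N ≤ 6 * Real.pi * (D : ℝ) ^ 2 * G := by
    have h1 : |g.derivative.eval x| * N * Real.sin θ ≤ (M * Real.pi) * Real.sin θ := by linarith
    have h2 := le_of_mul_le_mul_right h1 hsin
    rw [hM] at h2
    linarith
  refine ⟨hfirst, ?_⟩
  have h3 : g.derivative.derivative.eval x * (x * (N - x)) =
      -∑ p ∈ range (D + 1), c p * (p : ℝ) ^ 2 * Real.cos (p * θ) -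
        g.derivative.eval x * (N / 2 * Real.cos θ) := by
    rw [hcomp2, ← hsin2]
    ring
  have hxx : 0 < x * (N - x) := mul_pos hx0 (by linarith)
  rw [← abs_of_pos hxx, ← abs_mul, h3]
  refine (abs_sub _ _).trans ?_
  have h4 := h2nd θ
  have h5 : |g.derivative.eval x * (N / 2 * Real.cos θ)| ≤ 3 * Real.pi * (D : ℝ) ^ 2 * G := by
    rw [abs_mul, abs_mul, abs_of_pos (show 0 < N / 2 by positivity)]
    have h6 : |Real.cos θ| ≤ 1 := Real.abs_cos_le_one θ
    have h7 : |g.derivative.eval x| * (N / 2 * |Real.cos θ|) ≤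
        |g.derivative.eval x| * (N / 2 * 1) := by
      apply mul_le_mul_of_nonneg_left _ (abs_nonneg _)
      apply mul_le_mul_of_nonneg_left h6 (by positivity)
    linarith
  have h8 : 3 * Real.pi * (D : ℝ) ^ 2 * G ≤ 9.43 * ((D : ℝ) ^ 2 * G) := by
    have := Real.pi_lt_d6
    have h9 : 0 ≤ (D : ℝ) ^ 2 * G := by positivity
    nlinarith
  have h10 : 0 ≤ (D : ℝ) ^ 2 * G := by positivity
  rw [hM] at h4
  linarith

/-- Linear interpolation: the mean value form of the error. -/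
lemma interp_aux (g : Polynomial ℝ) (r u : ℝ) (h : 0 < u) (h' : u < 1) :
    ∃ ξ1 ξ2, r < ξ2 ∧ ξ2 < r + u ∧ r + u < ξ1 ∧ ξ1 < r + 1 ∧
    g.eval (r + u) - ((1 - u) * g.eval r + u * g.eval (r + 1)) =
      u * (1 - u) * (g.derivative.eval ξ2 - g.derivative.eval ξ1) := by
  obtain ⟨ξ2, hξ2, h2⟩ := exists_deriv_eq_slope (fun x => g.eval x) (a := r) (b := r + u)
    (by linarith) g.continuous.continuousOn (fun x _ => (g.differentiable x).differentiableWithinAt)
  obtain ⟨ξ1, hξ1, h1⟩ := exists_deriv_eq_slope (fun x => g.eval x) (a := r + u) (b := r + 1)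
    (by linarith) g.continuous.continuousOn (fun x _ => (g.differentiable x).differentiableWithinAt)
  rw [Set.mem_Ioo] at hξ1 hξ2
  rw [Polynomial.deriv] at h1 h2
  have e1 : g.eval (r + 1) - g.eval (r + u) = g.derivative.eval ξ1 * (1 - u) := by
    rw [h1]
    have : r + 1 - (r + u) ≠ 0 := by
      intro h3
      linarith
    field_simp
    ring
  have e2 : g.eval (r + u) - g.eval r = g.derivative.eval ξ2 * u := by
    rw [h2]
    have : r + u - r ≠ 0 := by
      intro h3
      linarith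
    field_simp
    ring
  refine ⟨ξ1, ξ2, hξ2.1, hξ2.2, hξ1.1, hξ1.2, ?_⟩
  linear_combination (1 - u) * e2 - u * e1

/-- **Linear interpolation between integers**, first order. -/
theorem interp1 (g : Polynomial ℝ) (r u B1 : ℝ) (hu0 : 0 ≤ u) (hu1 : u ≤ 1)
    (hB1 : ∀ ξ, r < ξ → ξ < r + 1 → |g.derivative.eval ξ| ≤ B1) :
    |g.eval (r + u) - ((1 - u) * g.eval r + u * g.eval (r + 1))| ≤ u * (1 - u) * (2 * B1) := by
  rcases eq_or_lt_of_le hu0 with h | h
  · rw [← h]
    simp
  rcases eq_or_lt_of_le hu1 with h' | h'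
  · rw [h']
    simp
  obtain ⟨ξ1, ξ2, h1, h2, h3, h4, e⟩ := interp_aux g r u h h'
  have hu2 : 0 ≤ u * (1 - u) := mul_nonneg hu0 (by linarith)
  rw [e, abs_mul, abs_of_nonneg hu2]
  apply mul_le_mul_of_nonneg_left _ hu2
  refine (abs_sub _ _).trans ?_
  have h5 := hB1 ξ2 (by linarith) (by linarith)
  have h6 := hB1 ξ1 (by linarith) (by linarith)
  linarith

/-- **Linear interpolation between integers**, second order. -/
theorem interp2 (g : Polynomial ℝ) (r u B2 : ℝ) (hu0 : 0 ≤ u) (hu1 : u ≤ 1)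
    (hB2 : ∀ ξ, r < ξ → ξ < r + 1 → |g.derivative.derivative.eval ξ| ≤ B2) :
    |g.eval (r + u) - ((1 - u) * g.eval r + u * g.eval (r + 1))| ≤ B2 / 4 := by
  have hB2n : 0 ≤ B2 := (abs_nonneg _).trans (hB2 (r + 1 / 2) (by linarith) (by linarith))
  rcases eq_or_lt_of_le hu0 with h | h
  · rw [← h]
    simp
    positivity
  rcases eq_or_lt_of_le hu1 with h' | h'
  · rw [h']
    simp
    positivity
  obtain ⟨ξ1, ξ2, g1, g2, g3, g4, e⟩ := interp_aux g r u h h'
  have hu2 : 0 ≤ u * (1 - u) := mul_nonneg hu0 (by linarith)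
  rw [e, abs_mul, abs_of_nonneg hu2]
  have h5 : |g.derivative.eval ξ2 - g.derivative.eval ξ1| ≤ B2 := by
    obtain ⟨ξ3, hξ3, h6⟩ := exists_deriv_eq_slope (fun x => g.derivative.eval x) (a := ξ2)
      (b := ξ1) (by linarith) g.derivative.continuous.continuousOn
      (fun x _ => (g.derivative.differentiable x).differentiableWithinAt)
    rw [Set.mem_Ioo] at hξ3
    rw [Polynomial.deriv] at h6
    have h7 : 0 < ξ1 - ξ2 := by linarith
    have h8 : g.derivative.eval ξ1 - g.derivative.eval ξ2 =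
        g.derivative.derivative.eval ξ3 * (ξ1 - ξ2) := by
      rw [h6]
      field_simp
    rw [abs_sub_comm, h8, abs_mul, abs_of_pos h7]
    have h9 := hB2 ξ3 (by linarith) (by linarith)
    have h10 : ξ1 - ξ2 ≤ 1 := by linarith
    calc |g.derivative.derivative.eval ξ3| * (ξ1 - ξ2) ≤ B2 * 1 :=
          mul_le_mul h9 h10 h7.le hB2n
      _ = B2 := mul_one _
  have h11 : u * (1 - u) ≤ 1 / 4 := by nlinarith [sq_nonneg (u - 1 / 2)]
  calc u * (1 - u) * |g.derivative.eval ξ2 - g.derivative.eval ξ1| ≤ 1 / 4 * B2 :=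
        mul_le_mul h11 h5 (abs_nonneg _) (by norm_num)
    _ = B2 / 4 := by ring

end Pool.Agent.Work.MP_02e323_xi
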