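import Mathlib
import Pool.Agent.Work.MP_02e323_xi.Der

/-!
# Piecewise linear interpolation and alternating sums over nodes
-/

set_option autoImplicit false

open Finset

namespace Pool.Agent.Work.MP_02e323_xi

/-- the clamp to `[0, 1]` -/
noncomputable def clm (u : ℝ) : ℝ := max 0 (min 1 u)

lemma clm_nonpos {u : ℝ} (h : u ≤ 0) : clm u = 0 := by
  unfold clm
  rw [max_eq_left]
  exact (min_le_right _ _).trans h

lemma clm_ge {u : ℝ} (h : 1 ≤ u) : clm u = 1 := by
  unfold clm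
  rw [min_eq_left h]
  exact max_eq_right (by norm_num)

lemma clm_mid {u : ℝ} (h0 : 0 ≤ u) (h1 : u ≤ 1) : clm u = u := by
  unfold clm
  rw [min_eq_right h1, max_eq_right h0]

lemma clm_mono {u v : ℝ} (h : u ≤ v) : clm u ≤ clm v := by
  unfold clm
  exact max_le_max (le_refl _) (min_le_min (le_refl _) h)

/-- the piecewise linear interpolant at the integers -/
noncomputable def ghat (g : ℕ → ℝ) (N : ℕ) (x : ℝ) : ℝ :=
  g 0 + ∑ j ∈ range N, clm (x - j) * (g (j + 1) - g j)

lemma ghat_lin (g : ℕ → ℝ) (N r : ℕ) (hr : r < N) (u : ℝ) (hu0 : 0 ≤ u) (hu1 : u ≤ 1) :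
    ghat g N (r + u) = (1 - u) * g r + u * g (r + 1) := by
  have h0 : ∀ M : ℕ, r + 1 ≤ M → ghat g M (r + u) = (1 - u) * g r + u * g (r + 1) := by
    intro M hM
    induction M, hM using Nat.le_induction with
    | base =>
      unfold ghat
      rw [sum_range_succ]
      have h1 : ∀ j ∈ range r, clm ((r : ℝ) + u - j) * (g (j + 1) - g j) = g (j + 1) - g j := by
        intro j hj
        rw [mem_range] at hj
        have : (j : ℝ) + 1 ≤ r := by exact_mod_cast hj
        rw [clm_ge (by linarith), one_mul]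
      rw [sum_congr rfl h1, sum_range_sub, add_sub_cancel_left, clm_mid hu0 hu1]
      ring
    | succ M hM ih =>
      unfold ghat at ih ⊢
      rw [sum_range_succ, ← add_assoc, ih, clm_nonpos, zero_mul, add_zero]
      have : (r : ℝ) + 1 ≤ M := by exact_mod_cast hM
      linarith
  exact h0 N hr

lemma exists_cell (N : ℕ) (hN : 1 ≤ N) (x : ℝ) (hx0 : 0 ≤ x) (hxN : x ≤ N) :
    ∃ r : ℕ, ∃ u : ℝ, r < N ∧ 0 ≤ u ∧ u ≤ 1 ∧ x = r + u := by
  rcases Nat.lt_or_ge ⌊x⌋₊ N with h | h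
  · refine ⟨⌊x⌋₊, x - ⌊x⌋₊, h, ?_, ?_, by ring⟩
    · have := Nat.floor_le hx0
      linarith
    · have := Nat.lt_floor_add_one x
      linarith
  · have h1 : (N : ℝ) ≤ ⌊x⌋₊ := by exact_mod_cast h
    have h2 := Nat.floor_le hx0
    have h3 : x = N := le_antisymm hxN (h1.trans h2)
    refine ⟨N - 1, 1, by omega, by norm_num, le_refl _, ?_⟩
    rw [h3, Nat.cast_sub hN]
    push_cast
    ring

lemma abs_ghat_le (g : ℕ → ℝ) (N : ℕ) (hN : 1 ≤ N) (A : ℝ) (hA : ∀ j ≤ N, |g j| ≤ A) (x : ℝ)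
    (hx0 : 0 ≤ x) (hxN : x ≤ N) : |ghat g N x| ≤ A := by
  obtain ⟨r, u, hr, hu0, hu1, hx⟩ := exists_cell N hN x hx0 hxN
  rw [hx, ghat_lin g N r hr u hu0 hu1]
  have h1 := hA r (by omega)
  have h2 := hA (r + 1) (by omega)
  have hu1' : 0 ≤ 1 - u := by linarith
  calc |(1 - u) * g r + u * g (r + 1)| ≤ |(1 - u) * g r| + |u * g (r + 1)| := abs_add_le _ _
    _ = (1 - u) * |g r| + u * |g (r + 1)| := by
        rw [abs_mul, abs_mul, abs_of_nonneg hu0, abs_of_nonneg hu1']
    _ ≤ (1 - u) * A + u * A :=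
        add_le_add (mul_le_mul_of_nonneg_left h1 hu1') (mul_le_mul_of_nonneg_left h2 hu0)
    _ = A := by ring

/-- **Alternating sums of the interpolant.** -/
theorem alt_ghat (g : ℕ → ℝ) (N k : ℕ) (hN : 1 ≤ N) (hk : 1 ≤ k) (X : ℕ → ℝ)
    (hX : ∀ m < k, X m ≤ X (m + 1)) (hX0 : X 0 = 0) (hX1 : 1 ≤ X 1) (hXk : X k = N) :
    |∑ m ∈ range k, (-1 : ℝ) ^ m * (ghat g N (X m) - ghat g N (X (m + 1))) - (g 0 - g 1)| ≤
      ∑ j ∈ Ico 1 N, |g j - g (j + 1)| := by
  obtain ⟨w, hw⟩ : ∃ w : ℕ → ℝ, w = fun j : ℕ =>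
      ∑ m ∈ range k, (-1 : ℝ) ^ m * (clm (X (m + 1) - (j : ℝ)) - clm (X m - (j : ℝ))) := ⟨_, rfl⟩
  have hXge : ∀ m, m ≤ k → 1 ≤ m → 1 ≤ X m := by
    intro m hm hm1
    induction m, hm1 using Nat.le_induction with
    | base => exact hX1
    | succ m hm1 ih => exact (ih (by omega)).trans (hX m (by omega))
  have hw0 : w 0 = 1 := by
    rw [hw]
    simp only [Nat.cast_zero, sub_zero]
    rw [← sum_range_add_sum_Ico _ hk]
    rw [sum_range_one, sum_eq_zero (s := Ico 1 k)]
    · rw [hX0, clm_ge hX1, clm_nonpos (le_refl _)]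
      norm_num
    · intro m hm
      rw [mem_Ico] at hm
      rw [clm_ge (hXge m (by omega) (by omega)), clm_ge (hXge (m + 1) (by omega) (by omega))]
      ring
  have hwj : ∀ j < N, |w j| ≤ 1 := by
    intro j hj
    rw [hw]
    have hj' : (j : ℝ) + 1 ≤ N := by exact_mod_cast hj
    calc |∑ m ∈ range k, (-1 : ℝ) ^ m * (clm (X (m + 1) - j) - clm (X m - j))|
        ≤ ∑ m ∈ range k, |(-1 : ℝ) ^ m * (clm (X (m + 1) - j) - clm (X m - j))| :=
          abs_sum_le_sum_abs _ _
      _ = ∑ m ∈ range k, (clm (X (m + 1) - j) - clm (X m - j)) := by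
          apply sum_congr rfl
          intro m hm
          rw [mem_range] at hm
          rw [abs_mul, abs_pow, abs_neg, abs_one, one_pow, one_mul, abs_of_nonneg]
          have := clm_mono (show X m - j ≤ X (m + 1) - j by linarith [hX m hm])
          linarith
      _ = clm (X k - j) - clm (X 0 - j) := by
          rw [sum_range_sub (fun m => clm (X m - j))]
      _ ≤ 1 := by
          rw [hX0, hXk, clm_ge (by linarith), clm_nonpos]
          · norm_num
          · have : (0 : ℝ) ≤ j := by positivity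
            linarith
  have hid : ∑ m ∈ range k, (-1 : ℝ) ^ m * (ghat g N (X m) - ghat g N (X (m + 1))) =
      ∑ j ∈ range N, w j * (g j - g (j + 1)) := by
    rw [hw]
    simp only [sum_mul]
    rw [sum_comm]
    apply sum_congr rfl
    intro m _
    unfold ghat
    rw [add_sub_add_left_eq_sub, ← sum_sub_distrib, mul_sum]
    apply sum_congr rfl
    intro j _
    ring
  rw [hid, ← sum_range_add_sum_Ico _ hN, sum_range_one, hw0]
  rw [one_mul, zero_add, add_sub_cancel_left]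
  refine (abs_sum_le_sum_abs _ _).trans ?_
  apply sum_le_sum
  intro j hj
  rw [mem_Ico] at hj
  rw [abs_mul]
  calc |w j| * |g j - g (j + 1)| ≤ 1 * |g j - g (j + 1)| :=
        mul_le_mul_of_nonneg_right (hwj j hj.2) (abs_nonneg _)
    _ = |g j - g (j + 1)| := one_mul _

end Pool.Agent.Work.MP_02e323_xi
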