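import Mathlib
import Pool.Agent.Work.MP_02e323_xi.Clamp

/-!
# The interpolation error at the nodes
-/

set_option autoImplicit false

open Finset

namespace Pool.Agent.Work.MP_02e323_xi

lemma pi_cube : Real.pi ^ 3 ≤ 31.1 := by
  have h := Real.pi_lt_d6
  have h0 := Real.pi_pos
  have h1 : Real.pi ^ 3 ≤ 3.141593 ^ 3 := pow_le_pow_left₀ h0.le h.le 3
  refine h1.trans (by norm_num)

lemma pi_sq_le : Real.pi ^ 2 ≤ 9.8697 := by
  have h := Real.pi_lt_d6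
  have h0 := Real.pi_pos
  have h1 : Real.pi ^ 2 ≤ 3.141593 ^ 2 := pow_le_pow_left₀ h0.le h.le 2
  refine h1.trans (by norm_num)

lemma pi_sq_ge : 9.8696 ≤ Real.pi ^ 2 := by
  have h := Real.pi_gt_d6
  have h1 : (3.141592 : ℝ) ^ 2 ≤ Real.pi ^ 2 := pow_le_pow_left₀ (by norm_num) h.le 2
  refine le_trans (by norm_num) h1

/-- the interpolation error -/
noncomputable def er (g : Polynomial ℝ) (N : ℕ) (x : ℝ) : ℝ :=
  |ghat (fun j => g.eval (j : ℝ)) N x - g.eval x|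

lemma er_nonneg (g : Polynomial ℝ) (N : ℕ) (x : ℝ) : 0 ≤ er g N x := abs_nonneg _

lemma er_cell (g : Polynomial ℝ) (N r : ℕ) (hr : r < N) (u : ℝ) (hu0 : 0 ≤ u) (hu1 : u ≤ 1) :
    er g N (r + u) = |g.eval (r + u) - ((1 - u) * g.eval (r : ℝ) + u * g.eval ((r : ℝ) + 1))| := by
  unfold er
  rw [ghat_lin _ N r hr u hu0 hu1, abs_sub_comm]
  push_cast
  rfl

lemma er_nat (g : Polynomial ℝ) (N r : ℕ) (hr : r ≤ N) (hN : 1 ≤ N) : er g N r = 0 := by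
  rcases Nat.lt_or_ge r N with h | h
  · have := er_cell g N r h 0 (le_refl _) (by norm_num)
    simpa using this
  · have h1 : r = N := le_antisymm hr h
    have := er_cell g N (N - 1) (by omega) 1 (by norm_num) (le_refl _)
    have e : ((N - 1 : ℕ) : ℝ) + 1 = N := by rw [Nat.cast_sub hN]; push_cast; ring
    rw [e] at this
    rw [h1, this]
    simp

/-- Error near an integer. -/
theorem er_near {k : ℕ} (hk : 1 ≤ k) (g : Polynomial ℝ) (D : ℕ) (hg : g.natDegree ≤ D)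
    (hD : D ≤ k) (hD1 : 1 ≤ D) (N : ℕ) (hN : 1 ≤ N) (hNk : 4 * (k : ℝ) ^ 2 ≤ Real.pi ^ 2 * N)
    (G : ℝ) (hG : ∀ x : ℝ, 0 ≤ x → x ≤ N → |g.eval x| ≤ G) (x : ℝ) (hx0 : 0 ≤ x) (hxN : x ≤ N)
    (z : ℤ) : er g N x ≤ 94 * |x - z| * G := by
  obtain ⟨r, u, hr, hu0, hu1, hx⟩ := exists_cell N hN x hx0 hxN
  have hG0 : 0 ≤ G := (abs_nonneg _).trans (hG x hx0 hxN)
  have hN0 : (0 : ℝ) < N := by exact_mod_cast hN
  have hr' : (r : ℝ) + 1 ≤ N := by exact_mod_cast hr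
  have hD0 : (0 : ℝ) ≤ D := by positivity
  have hDk : (D : ℝ) ≤ k := by exact_mod_cast hD
  have hD2 : (D : ℝ) ^ 2 ≤ (k : ℝ) ^ 2 := pow_le_pow_left₀ hD0 hDk 2
  have hpi := Real.pi_pos
  have hB1 : ∀ ξ, (r : ℝ) < ξ → ξ < r + 1 → |g.derivative.eval ξ| ≤ 47 * G := by
    intro ξ h1 h2
    have h0 : (0 : ℝ) ≤ r := by positivity
    obtain ⟨h3, _⟩ := deriv_bounds hk g D hg hD hD1 N hN0 G hG ξ (by linarith) (by linarith)
    have h4 : 6 * Real.pi * (D : ℝ) ^ 2 * G ≤ 47 * G * N := by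
      have h5 : 4 * (D : ℝ) ^ 2 ≤ Real.pi ^ 2 * N := by linarith
      have h6 : Real.pi * (4 * (D : ℝ) ^ 2) ≤ 31.1 * N := by
        calc Real.pi * (4 * (D : ℝ) ^ 2) ≤ Real.pi * (Real.pi ^ 2 * N) :=
              mul_le_mul_of_nonneg_left h5 hpi.le
          _ = Real.pi ^ 3 * N := by ring
          _ ≤ 31.1 * N := mul_le_mul_of_nonneg_right pi_cube hN0.le
      have h7 : 6 * Real.pi * (D : ℝ) ^ 2 ≤ 47 * N := by nlinarith
      calc 6 * Real.pi * (D : ℝ) ^ 2 * G ≤ 47 * N * G := mul_le_mul_of_nonneg_right h7 hG0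
        _ = 47 * G * N := by ring
    exact le_of_mul_le_mul_right (h3.trans h4) hN0
  have h1 := interp1 g r u (47 * G) hu0 hu1 hB1
  rw [hx, er_cell g N r hr u hu0 hu1]
  refine h1.trans ?_
  have h2 : u * (1 - u) ≤ |(r : ℝ) + u - z| := by
    rcases le_or_gt z r with h | h
    · have h3 : (z : ℝ) ≤ r := by exact_mod_cast h
      rw [abs_of_nonneg (by linarith)]
      nlinarith
    · have h3 : (r : ℝ) + 1 ≤ z := by exact_mod_cast h
      rw [abs_of_nonpos (by linarith)]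
      nlinarith
  calc u * (1 - u) * (2 * (47 * G)) = (u * (1 - u)) * (94 * G) := by ring
    _ ≤ |(r : ℝ) + u - z| * (94 * G) := mul_le_mul_of_nonneg_right h2 (by positivity)
    _ = 94 * |(r : ℝ) + u - z| * G := by ring

/-- Error away from the ends. -/
theorem er_far {k : ℕ} (hk : 1 ≤ k) (g : Polynomial ℝ) (D : ℕ) (hg : g.natDegree ≤ D)
    (hD : D ≤ k) (hD1 : 1 ≤ D) (N : ℕ) (hN : 1 ≤ N) (hNk : 4 * (k : ℝ) ^ 2 ≤ Real.pi ^ 2 * N)
    (G : ℝ) (hG : ∀ x : ℝ, 0 ≤ x → x ≤ N → |g.eval x| ≤ G) (x y : ℝ) (hy : 2 ≤ y) (hyx : y ≤ x)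
    (hxy : x ≤ N - y) : er g N x * y ≤ 27 * G := by
  have hx0 : 0 ≤ x := by linarith
  have hxN : x ≤ N := by linarith
  obtain ⟨r, u, hr, hu0, hu1, hx⟩ := exists_cell N hN x hx0 hxN
  have hG0 : 0 ≤ G := (abs_nonneg _).trans (hG x hx0 hxN)
  have hN0 : (0 : ℝ) < N := by exact_mod_cast hN
  have hr' : (r : ℝ) + 1 ≤ N := by exact_mod_cast hr
  have hD0 : (0 : ℝ) ≤ D := by positivity
  have hDk : (D : ℝ) ≤ k := by exact_mod_cast hD
  have hD2 : (D : ℝ) ^ 2 ≤ (k : ℝ) ^ 2 := pow_le_pow_left₀ hD0 hDk 2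
  have hpi := Real.pi_pos
  have hy0 : 0 < y := by linarith
  have hB2 : ∀ ξ, (r : ℝ) < ξ → ξ < r + 1 → |g.derivative.derivative.eval ξ| ≤ 108 * G / y := by
    intro ξ h1 h2
    have h0 : (0 : ℝ) ≤ r := by positivity
    obtain ⟨_, h3⟩ := deriv_bounds hk g D hg hD hD1 N hN0 G hG ξ (by linarith) (by linarith)
    have h4 : 16 * (D : ℝ) ^ 2 * G ≤ 39.5 * N * G := by
      have h5 : 4 * (D : ℝ) ^ 2 ≤ Real.pi ^ 2 * N := by linarith
      have h6 : Real.pi ^ 2 * N ≤ 9.8697 * N := mul_le_mul_of_nonneg_right pi_sq_le hN0.le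
      apply mul_le_mul_of_nonneg_right _ hG0
      linarith
    have h5 : 3 * y * N / 8 ≤ ξ * (N - ξ) := by
      have h6 : y / 2 ≤ ξ := by linarith
      have h7 : y / 2 ≤ N - ξ := by linarith
      have h8 : 2 * y ≤ N := by linarith
      nlinarith
    have h6 : |g.derivative.derivative.eval ξ| * (3 * y * N / 8) ≤ 39.5 * N * G := by
      refine le_trans ?_ (h3.trans h4)
      exact mul_le_mul_of_nonneg_left h5 (abs_nonneg _)
    rw [le_div_iff₀ hy0]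
    have h7 : (|g.derivative.derivative.eval ξ| * y) * (3 * N / 8) ≤ (108 * G) * (3 * N / 8) := by
      have : 0 ≤ N * G := by positivity
      nlinarith
    exact le_of_mul_le_mul_right h7 (by positivity)
  have h1 := interp2 g r u _ hu0 hu1 hB2
  rw [hx, er_cell g N r hr u hu0 hu1]
  calc |g.eval (↑r + u) - ((1 - u) * g.eval (r : ℝ) + u * g.eval ((r : ℝ) + 1))| * y
      ≤ 108 * G / y / 4 * y := mul_le_mul_of_nonneg_right h1 hy0.le
    _ = 27 * G := by field_simp; ring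

/-- the nodes -/
noncomputable def nd (N : ℝ) (k m : ℕ) : ℝ := xx N (m * (Real.pi / k))

lemma nd_eq (N : ℝ) (k m : ℕ) : nd N k m = N * Real.sin (m * (Real.pi / k) / 2) ^ 2 := by
  unfold nd xx
  rw [Real.sin_sq_eq_half_sub]
  have : 2 * ((m : ℝ) * (Real.pi / k) / 2) = m * (Real.pi / k) := by ring
  rw [this]
  ring

lemma nd_zero (N : ℝ) (k : ℕ) : nd N k 0 = 0 := by
  rw [nd_eq]; simp

lemma nd_k (N : ℝ) (k : ℕ) (hk : 1 ≤ k) : nd N k k = N := by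
  have hk0 : (k : ℝ) ≠ 0 := by
    have : (0 : ℝ) < k := by exact_mod_cast hk
    exact this.ne'
  unfold nd xx
  have : (k : ℝ) * (Real.pi / k) = Real.pi := by field_simp
  rw [this, Real.cos_pi]
  ring

lemma nd_refl (N : ℝ) (k m : ℕ) (hk : 1 ≤ k) (hm : m ≤ k) : nd N k (k - m) = N - nd N k m := by
  have hk0 : (k : ℝ) ≠ 0 := by
    have : (0 : ℝ) < k := by exact_mod_cast hk
    exact this.ne'
  unfold nd xx
  rw [Nat.cast_sub hm]
  have : ((k : ℝ) - m) * (Real.pi / k) = Real.pi - m * (Real.pi / k) := by field_simp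
  rw [this, Real.cos_pi_sub]
  ring

lemma nd_mono (N : ℝ) (hN : 0 ≤ N) (k m : ℕ) (hk : 1 ≤ k) (hm : m < k) :
    nd N k m ≤ nd N k (m + 1) := by
  have hk0 : (0 : ℝ) < k := by exact_mod_cast hk
  have hm' : (m : ℝ) + 1 ≤ k := by exact_mod_cast hm
  have hpi := Real.pi_pos
  unfold nd xx
  have h1 : Real.cos (((m + 1 : ℕ) : ℝ) * (Real.pi / k)) ≤ Real.cos (m * (Real.pi / k)) := by
    apply Real.cos_le_cos_of_nonneg_of_le_pi
    · positivity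
    · push_cast
      calc ((m : ℝ) + 1) * (Real.pi / k) ≤ k * (Real.pi / k) :=
            mul_le_mul_of_nonneg_right hm' (by positivity)
        _ = Real.pi := by field_simp
    · push_cast
      apply mul_le_mul_of_nonneg_right _ (by positivity)
      linarith
  nlinarith

lemma nd_mem (N : ℝ) (hN : 0 ≤ N) (k m : ℕ) : 0 ≤ nd N k m ∧ nd N k m ≤ N := xx_mem hN _

/-- Bounds for the nodes, `m ≤ k / 2`. -/
lemma nd_bounds (N k m : ℕ) (hk : 1 ≤ k) (hm : 2 * m ≤ k)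
    (hN1 : 4 * (k : ℝ) ^ 2 + Real.pi ^ 2 ≤ Real.pi ^ 2 * N)
    (hN2 : Real.pi ^ 2 * N ≤ 4 * (k : ℝ) ^ 2 + 2 * Real.pi ^ 2) :
    0.4 * (m : ℝ) ^ 2 ≤ nd N k m ∧ 2 * nd N k m ≤ N ∧
      |nd N k m - (m : ℝ) ^ 2| ≤ 5 * (m : ℝ) ^ 4 / (k : ℝ) ^ 2 ∧ (m = 1 → 1 ≤ nd N k m) := by
  have hk0 : (0 : ℝ) < k := by exact_mod_cast hk
  have hk2 : (0 : ℝ) < (k : ℝ) ^ 2 := by positivity
  have hm' : 2 * (m : ℝ) ≤ k := by exact_mod_cast hm
  have hpi := Real.pi_pos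
  have hpi2 := pi_sq_le
  have hpi2' := pi_sq_ge
  have hm0 : (0 : ℝ) ≤ m := by positivity
  have hN0 : (0 : ℝ) ≤ N := by positivity
  obtain ⟨y, hy⟩ : ∃ y : ℝ, y = m * (Real.pi / k) / 2 := ⟨_, rfl⟩
  have hy0 : 0 ≤ y := by rw [hy]; positivity
  have hyk : y * (2 * k) = m * Real.pi := by rw [hy]; field_simp
  have hy1 : y ≤ Real.pi / 4 := by
    have h1 : y * (2 * k) ≤ Real.pi / 4 * (2 * k) := by rw [hyk]; nlinarith
    exact le_of_mul_le_mul_right h1 (by positivity)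
  have hy1' : y ≤ 1 := by have := Real.pi_lt_four; linarith
  have hy2 : y ^ 2 * (4 * (k : ℝ) ^ 2) = (m : ℝ) ^ 2 * Real.pi ^ 2 := by
    have : y ^ 2 * (4 * (k : ℝ) ^ 2) = (y * (2 * k)) ^ 2 := by ring
    rw [this, hyk]; ring
  have e := nd_eq N k m
  rw [← hy] at e
  have hs0 : 0 ≤ Real.sin y := Real.sin_nonneg_of_nonneg_of_le_pi hy0 (by linarith)
  have hsup : Real.sin y ≤ y := Real.sin_le hy0
  have hslow : y - y ^ 3 / 4 ≤ Real.sin y := by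
    rcases eq_or_lt_of_le hy0 with h | h
    · rw [← h]; simp
    · have h1 := (Real.sin_gt_sub_cube h).le
      have h2 : 0 ≤ y ^ 3 := by positivity
      linarith
  have hs2up : Real.sin y ^ 2 ≤ y ^ 2 := pow_le_pow_left₀ hs0 hsup 2
  have hs2low : y ^ 2 * (1 - y ^ 2 / 2) ≤ Real.sin y ^ 2 := by
    have h1 : 0 ≤ y - y ^ 3 / 4 := by nlinarith [mul_nonneg hy0 hy0]
    have h2 : (y - y ^ 3 / 4) ^ 2 ≤ Real.sin y ^ 2 := pow_le_pow_left₀ h1 hslow 2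
    refine le_trans ?_ h2
    have h3 : (y - y ^ 3 / 4) ^ 2 - y ^ 2 * (1 - y ^ 2 / 2) = y ^ 6 / 16 := by ring
    have h4 : 0 ≤ y ^ 6 := by positivity
    linarith
  have hNy1 : (m : ℝ) ^ 2 + y ^ 2 ≤ N * y ^ 2 := by
    have h1 : ((m : ℝ) ^ 2 + y ^ 2) * Real.pi ^ 2 ≤ (N * y ^ 2) * Real.pi ^ 2 := by
      have h2 := mul_le_mul_of_nonneg_left hN1 (sq_nonneg y)
      nlinarith
    exact le_of_mul_le_mul_right h1 (by positivity)
  have hNy2 : N * y ^ 2 ≤ (m : ℝ) ^ 2 + 2 * y ^ 2 := by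
    have h1 : (N * y ^ 2) * Real.pi ^ 2 ≤ ((m : ℝ) ^ 2 + 2 * y ^ 2) * Real.pi ^ 2 := by
      have h2 := mul_le_mul_of_nonneg_left hN2 (sq_nonneg y)
      nlinarith
    exact le_of_mul_le_mul_right h1 (by positivity)
  have hup : N * Real.sin y ^ 2 ≤ (m : ℝ) ^ 2 + 2 * y ^ 2 :=
    (mul_le_mul_of_nonneg_left hs2up hN0).trans hNy2
  have hlow : ((m : ℝ) ^ 2 + y ^ 2) * (1 - y ^ 2 / 2) ≤ N * Real.sin y ^ 2 := by
    have h1 : 0 ≤ 1 - y ^ 2 / 2 := by nlinarith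
    calc ((m : ℝ) ^ 2 + y ^ 2) * (1 - y ^ 2 / 2) ≤ (N * y ^ 2) * (1 - y ^ 2 / 2) :=
          mul_le_mul_of_nonneg_right hNy1 h1
      _ = N * (y ^ 2 * (1 - y ^ 2 / 2)) := by ring
      _ ≤ N * Real.sin y ^ 2 := mul_le_mul_of_nonneg_left hs2low hN0
  have hy2m : y ^ 2 * (k : ℝ) ^ 2 ≤ 2.4675 * (m : ℝ) ^ 2 := by nlinarith [sq_nonneg (m : ℝ)]
  have hmcase : m = 0 ∨ 1 ≤ m := by omega
  refine ⟨?_, ?_, ?_, ?_⟩
  · rw [e]
    have h1 : y ^ 2 ≤ 0.617 := by nlinarith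
    have h2 : 0.69 * (m : ℝ) ^ 2 ≤ ((m : ℝ) ^ 2 + y ^ 2) * (1 - y ^ 2 / 2) := by
      nlinarith [sq_nonneg y, sq_nonneg (m : ℝ)]
    nlinarith [sq_nonneg (m : ℝ)]
  · have h1 : 0 ≤ Real.cos ((m : ℝ) * (Real.pi / k)) := by
      apply Real.cos_nonneg_of_mem_Icc
      have h2 : (m : ℝ) * (Real.pi / k) = 2 * y := by rw [hy]; ring
      rw [h2]
      constructor <;> linarith
    unfold nd xx
    nlinarith
  · rw [e, abs_le]
    rcases hmcase with h | h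
    · have hm00 : (m : ℝ) = 0 := by exact_mod_cast h
      have hy00 : y = 0 := by rw [hy, hm00]; ring
      rw [hy00, hm00]
      simp
    · have h1 : (1 : ℝ) ≤ m := by exact_mod_cast h
      have h2 : (m : ℝ) ^ 2 ≤ (m : ℝ) ^ 4 := by
        have h11 : (m : ℝ) ^ 4 = (m : ℝ) ^ 2 * (m : ℝ) ^ 2 := by ring
        have h12 : 1 ≤ (m : ℝ) ^ 2 := one_le_pow₀ h1
        rw [h11]
        exact le_mul_of_one_le_left (by positivity) h12
      have h3 : y ^ 2 ≤ 2.4675 * (m : ℝ) ^ 2 / (k : ℝ) ^ 2 := by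
        rw [le_div_iff₀ hk2]; exact hy2m
      have h4 : 2.4675 * (m : ℝ) ^ 2 / (k : ℝ) ^ 2 ≤ 2.4675 * (m : ℝ) ^ 4 / (k : ℝ) ^ 2 := by
        apply div_le_div_of_nonneg_right _ hk2.le
        linarith
      have h5 : (m : ℝ) ^ 2 * y ^ 2 ≤ 2.4675 * (m : ℝ) ^ 4 / (k : ℝ) ^ 2 := by
        calc (m : ℝ) ^ 2 * y ^ 2 ≤ (m : ℝ) ^ 2 * (2.4675 * (m : ℝ) ^ 2 / (k : ℝ) ^ 2) :=
              mul_le_mul_of_nonneg_left h3 (by positivity)
          _ = 2.4675 * (m : ℝ) ^ 4 / (k : ℝ) ^ 2 := by ring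
      have h6 : 2.4675 * (m : ℝ) ^ 4 / (k : ℝ) ^ 2 * 2 ≤ 5 * (m : ℝ) ^ 4 / (k : ℝ) ^ 2 := by
        rw [div_mul_eq_mul_div]
        apply div_le_div_of_nonneg_right _ hk2.le
        have : 0 ≤ (m : ℝ) ^ 4 := by positivity
        linarith
      constructor
      · have h7 : (m : ℝ) ^ 2 - (m : ℝ) ^ 2 * y ^ 2 ≤ ((m : ℝ) ^ 2 + y ^ 2) * (1 - y ^ 2 / 2) := by
          have h8 : y ^ 2 ≤ 1 := by nlinarith
          nlinarith [sq_nonneg y, sq_nonneg (m : ℝ), mul_nonneg (sq_nonneg y) (sq_nonneg (m : ℝ))]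
        have h9 : 0 ≤ 2.4675 * (m : ℝ) ^ 4 / (k : ℝ) ^ 2 := by positivity
        linarith
      · linarith
  · intro h
    have h1 : (m : ℝ) = 1 := by exact_mod_cast h
    rw [e]
    refine le_trans ?_ hlow
    rw [h1]
    have h8 : y ^ 2 ≤ 0.617 := by nlinarith
    nlinarith [sq_nonneg y]

end Pool.Agent.Work.MP_02e323_xi
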