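import Mathlib
import Pool.Agent.Work.MP_02e323_xi.Err

/-!
# The first difference at `0` of a polynomial of degree at most `(1 - ε) k` on `{0, …, N}`,
`N = 4 k² / π² + O(1)`
-/

set_option autoImplicit false

open Finset

namespace Pool.Agent.Work.MP_02e323_xi

/-- majorant of the interpolation error at the `m`-th node -/
noncomputable def phE (k M m : ℕ) : ℝ :=
  if m ≤ M then 470 * (M : ℝ) ^ 4 / (k : ℝ) ^ 2 else 68 / (m : ℝ) ^ 2

lemma phE_nonneg (k M m : ℕ) : 0 ≤ phE k M m := by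
  unfold phE
  split_ifs <;> positivity

lemma sum_phE (k M : ℕ) (hM : 1 ≤ M) (hkM : M + 1 ≤ k) :
    ∑ m ∈ Ico 1 k, phE k M m ≤ 470 * (M : ℝ) ^ 5 / (k : ℝ) ^ 2 + 68 / M := by
  have hM0 : (0 : ℝ) < M := by exact_mod_cast hM
  have h2 : ∀ l : ℕ, M + 1 ≤ l → ∑ m ∈ Ico (M + 1) l, (68 : ℝ) / (m : ℝ) ^ 2 ≤
      68 / M - 68 / ((l : ℝ) - 1) := by
    intro l hl
    induction l, hl using Nat.le_induction with
    | base => push_cast; simp
    | succ l hl ih =>
      rw [sum_Ico_succ_top hl]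
      have hl' : (M : ℝ) + 1 ≤ l := by exact_mod_cast hl
      have h3 : (68 : ℝ) / (l : ℝ) ^ 2 ≤ 68 / ((l : ℝ) - 1) - 68 / (((l + 1 : ℕ) : ℝ) - 1) := by
        push_cast
        have h4 : (0 : ℝ) < (l : ℝ) - 1 := by linarith
        have h5 : (0 : ℝ) < l := by linarith
        rw [add_sub_cancel_right, div_sub_div _ _ h4.ne' h5.ne', div_le_div_iff₀ (by positivity)
          (by positivity)]
        nlinarith
      linarith
  have hk' : (M : ℝ) + 1 ≤ k := by exact_mod_cast hkM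
  rw [← sum_Ico_consecutive _ (show 1 ≤ M + 1 by omega) hkM]
  have e1 : ∑ m ∈ Ico 1 (M + 1), phE k M m = 470 * (M : ℝ) ^ 5 / (k : ℝ) ^ 2 := by
    have : ∀ m ∈ Ico 1 (M + 1), phE k M m = 470 * (M : ℝ) ^ 4 / (k : ℝ) ^ 2 := by
      intro m hm
      rw [mem_Ico] at hm
      unfold phE
      rw [if_pos (by omega)]
    rw [sum_congr rfl this, sum_const, Nat.card_Ico]
    simp
    ring
  have e2 : ∑ m ∈ Ico (M + 1) k, phE k M m = ∑ m ∈ Ico (M + 1) k, (68 : ℝ) / (m : ℝ) ^ 2 := by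
    apply sum_congr rfl
    intro m hm
    rw [mem_Ico] at hm
    unfold phE
    rw [if_neg (by omega)]
  rw [e1, e2]
  have h3 := h2 k hkM
  have h4 : 0 ≤ 68 / ((k : ℝ) - 1) := by
    apply div_nonneg (by norm_num)
    linarith
  linarith

lemma nd_any (N : ℝ) (k m : ℕ) (hk : 1 ≤ k) : ∃ m' ≤ k, nd N k m = nd N k m' := by
  have hk0 : (k : ℝ) ≠ 0 := by
    have : (0 : ℝ) < k := by exact_mod_cast hk
    exact this.ne'
  have h1 : m = m % (2 * k) + (2 * k) * (m / (2 * k)) := (Nat.mod_add_div m (2 * k)).symm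
  obtain ⟨a, ha⟩ : ∃ a, a = m % (2 * k) := ⟨_, rfl⟩
  obtain ⟨b, hb⟩ : ∃ b, b = m / (2 * k) := ⟨_, rfl⟩
  have ha2 : a < 2 * k := by rw [ha]; exact Nat.mod_lt _ (by omega)
  rw [← ha, ← hb] at h1
  have h2 : Real.cos ((m : ℝ) * (Real.pi / k)) = Real.cos ((a : ℝ) * (Real.pi / k)) := by
    have : (m : ℝ) * (Real.pi / k) = (a : ℝ) * (Real.pi / k) + b * (2 * Real.pi) := by
      rw [h1]
      push_cast
      field_simp
    rw [this, Real.cos_add_nat_mul_two_pi]
  rcases Nat.lt_or_ge k a with h | h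
  · refine ⟨2 * k - a, by omega, ?_⟩
    unfold nd xx
    have h3 : (((2 * k - a : ℕ) : ℝ)) * (Real.pi / k) = 2 * Real.pi - a * (Real.pi / k) := by
      rw [Nat.cast_sub (by omega)]
      push_cast
      field_simp
    rw [h2, h3, Real.cos_two_pi_sub]
  · refine ⟨a, h, ?_⟩
    unfold nd xx
    rw [h2]

lemma er_node {k : ℕ} (hk : 1 ≤ k) (g : Polynomial ℝ) (D : ℕ) (hg : g.natDegree ≤ D)
    (hD : D ≤ k) (hD1 : 1 ≤ D) (N M : ℕ) (hM : 2 ≤ M)
    (hN1 : 4 * (k : ℝ) ^ 2 + Real.pi ^ 2 ≤ Real.pi ^ 2 * N)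
    (hN2 : Real.pi ^ 2 * N ≤ 4 * (k : ℝ) ^ 2 + 2 * Real.pi ^ 2)
    (G : ℝ) (hG : ∀ x : ℝ, 0 ≤ x → x ≤ N → |g.eval x| ≤ G) (m : ℕ) (hm1 : 1 ≤ m)
    (hm : 2 * m ≤ k) (x : ℝ) (hx : x = nd N k m ∨ x = N - nd N k m) :
    er g N x ≤ phE k M m * G := by
  obtain ⟨b1, b2, b3, _⟩ := nd_bounds N k m hk hm hN1 hN2
  have hk0 : (0 : ℝ) < k := by exact_mod_cast hk
  have hk2 : (0 : ℝ) < (k : ℝ) ^ 2 := by positivity
  have hm0 : (1 : ℝ) ≤ m := by exact_mod_cast hm1
  have hpi := Real.pi_pos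
  have hpi2 : 0 < Real.pi ^ 2 := by positivity
  have hN : 1 ≤ N := by
    have h1 : Real.pi ^ 2 * 1 ≤ Real.pi ^ 2 * N := by nlinarith
    have h2 : (1 : ℝ) ≤ N := le_of_mul_le_mul_left h1 hpi2
    exact_mod_cast h2
  have hNk : 4 * (k : ℝ) ^ 2 ≤ Real.pi ^ 2 * N := by linarith
  have hmem := nd_mem (N : ℝ) (by positivity) k m
  have hx0 : 0 ≤ x := by rcases hx with h | h <;> rw [h] <;> linarith
  have hxN : x ≤ N := by rcases hx with h | h <;> rw [h] <;> linarith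
  have hG0 : 0 ≤ G := (abs_nonneg _).trans (hG x hx0 hxN)
  unfold phE
  split_ifs with hmM
  · have hmM' : (m : ℝ) ≤ M := by exact_mod_cast hmM
    have h4 : (m : ℝ) ^ 4 ≤ (M : ℝ) ^ 4 := pow_le_pow_left₀ (by positivity) hmM' 4
    have h5 : 5 * (m : ℝ) ^ 4 / (k : ℝ) ^ 2 ≤ 5 * (M : ℝ) ^ 4 / (k : ℝ) ^ 2 := by
      apply div_le_div_of_nonneg_right _ hk2.le
      linarith
    have key : ∃ z : ℤ, |x - z| ≤ 5 * (M : ℝ) ^ 4 / (k : ℝ) ^ 2 := by
      rcases hx with h | h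
      · refine ⟨(m : ℤ) ^ 2, ?_⟩
        rw [h]
        push_cast
        linarith
      · refine ⟨(N : ℤ) - (m : ℤ) ^ 2, ?_⟩
        rw [h]
        push_cast
        have : (N : ℝ) - nd N k m - ((N : ℝ) - (m : ℝ) ^ 2) = -(nd N k m - (m : ℝ) ^ 2) := by ring
        rw [this, abs_neg]
        linarith
    obtain ⟨z, hz⟩ := key
    refine (er_near hk g D hg hD hD1 N hN hNk G hG x hx0 hxN z).trans ?_
    apply mul_le_mul_of_nonneg_right _ hG0
    calc 94 * |x - z| ≤ 94 * (5 * (M : ℝ) ^ 4 / (k : ℝ) ^ 2) :=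
          mul_le_mul_of_nonneg_left hz (by norm_num)
      _ = 470 * (M : ℝ) ^ 4 / (k : ℝ) ^ 2 := by ring
  · have hm3 : 3 ≤ m := by omega
    have hm3' : (3 : ℝ) ≤ m := by exact_mod_cast hm3
    have hy : 2 ≤ 0.4 * (m : ℝ) ^ 2 := by nlinarith
    have h1 : er g N x * (0.4 * (m : ℝ) ^ 2) ≤ 27 * G := by
      apply er_far hk g D hg hD hD1 N hN hNk G hG x _ hy
      · rcases hx with h | h <;> rw [h] <;> linarith
      · rcases hx with h | h <;> rw [h] <;> linarith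
    have hm2 : (0 : ℝ) < (m : ℝ) ^ 2 := by positivity
    rw [div_mul_eq_mul_div, le_div_iff₀ hm2]
    linarith

lemma diff_le_var (g : ℕ → ℝ) (j N : ℕ) (hj : j ≤ N) :
    |g j - g N| ≤ ∑ i ∈ range N, |g i - g (i + 1)| := by
  induction N, hj using Nat.le_induction with
  | base => rw [sub_self, abs_zero]; exact sum_nonneg (fun _ _ => abs_nonneg _)
  | succ N hN ih =>
    rw [sum_range_succ]
    have : g j - g (N + 1) = (g j - g N) + (g N - g (N + 1)) := by ring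
    rw [this]
    exact (abs_add_le _ _).trans (add_le_add ih (le_refl _))

/-- **Lemma A**, quantitative form. -/
theorem lemA_core {k : ℕ} (hk : 1 ≤ k) (N D M : ℕ) (hM : 2 ≤ M) (hkM : 2 * M ≤ k) (hD1 : 1 ≤ D)
    (hDk : D < k) (hN1 : 4 * (k : ℝ) ^ 2 + Real.pi ^ 2 ≤ Real.pi ^ 2 * N)
    (hN2 : Real.pi ^ 2 * N ≤ 4 * (k : ℝ) ^ 2 + 2 * Real.pi ^ 2)
    (g : Polynomial ℝ) (hg : g.natDegree ≤ D) (ε : ℝ) (hε : 0 < ε) (hεD : (D : ℝ) ≤ (1 - ε) * k)
    (E : ℝ) (hE : E = 4 * (470 * (M : ℝ) ^ 5 / (k : ℝ) ^ 2 + 68 / M)) (hEε : 2 * E ≤ ε) :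
    |g.eval 0 - g.eval 1| ≤ ∑ j ∈ Ico 1 N, |g.eval (j : ℝ) - g.eval ((j : ℝ) + 1)| +
      2 * E / ε * ∑ j ∈ range N, |g.eval (j : ℝ) - g.eval ((j : ℝ) + 1)| := by
  have hk0 : (0 : ℝ) < k := by exact_mod_cast hk
  have hpi := Real.pi_pos
  have hpi2 : 0 < Real.pi ^ 2 := by positivity
  have hN : 1 ≤ N := by
    have h1 : Real.pi ^ 2 * 1 ≤ Real.pi ^ 2 * N := by nlinarith
    have h2 : (1 : ℝ) ≤ N := le_of_mul_le_mul_left h1 hpi2
    exact_mod_cast h2
  have hN0 : (0 : ℝ) < N := by exact_mod_cast hN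
  -- normalise
  obtain ⟨f, hf⟩ : ∃ f : Polynomial ℝ, f = g - Polynomial.C (g.eval (N : ℝ)) := ⟨_, rfl⟩
  have hfe : ∀ x, f.eval x = g.eval x - g.eval (N : ℝ) := by intro x; rw [hf]; simp
  have hfd : f.natDegree ≤ D := by
    rw [hf]
    refine (Polynomial.natDegree_sub_le _ _).trans ?_
    simp [hg]
  have hdiff : ∀ a b, g.eval a - g.eval b = f.eval a - f.eval b := by
    intro a b; rw [hfe, hfe]; ring
  simp only [hdiff]
  obtain ⟨gg, hgg⟩ : ∃ gg : ℕ → ℝ, gg = fun j : ℕ => f.eval (j : ℝ) := ⟨_, rfl⟩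
  have hggj : ∀ j : ℕ, f.eval (j : ℝ) - f.eval ((j : ℝ) + 1) = gg j - gg (j + 1) := by
    intro j; rw [hgg]; push_cast; rfl
  simp only [hggj]
  have h01 : f.eval 0 - f.eval 1 = gg 0 - gg 1 := by rw [hgg]; simp
  rw [h01]
  obtain ⟨V, hV⟩ : ∃ V, V = ∑ j ∈ range N, |gg j - gg (j + 1)| := ⟨_, rfl⟩
  have hV0 : 0 ≤ V := by rw [hV]; exact sum_nonneg (fun _ _ => abs_nonneg _)
  have hggN : gg N = 0 := by rw [hgg]; simp [hfe]
  have hggV : ∀ j ≤ N, |gg j| ≤ V := by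
    intro j hj
    have h := diff_le_var gg j N hj
    rw [hggN, sub_zero, ← hV] at h
    exact h
  -- the sup norm
  obtain ⟨xs, hxs, hmax⟩ := (isCompact_Icc (a := (0 : ℝ)) (b := (N : ℝ))).exists_isMaxOn
    ⟨0, by constructor <;> linarith⟩ (f := fun x => |f.eval x|)
    (f.continuous.abs.continuousOn)
  rw [Set.mem_Icc] at hxs
  obtain ⟨G, hGd⟩ : ∃ G, G = |f.eval xs| := ⟨_, rfl⟩
  have hG : ∀ x : ℝ, 0 ≤ x → x ≤ N → |f.eval x| ≤ G := by
    intro x h1 h2
    rw [hGd]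
    exact hmax (Set.mem_Icc.mpr ⟨h1, h2⟩)
  have hG0 : 0 ≤ G := by rw [hGd]; exact abs_nonneg _
  -- errors at the nodes
  obtain ⟨X, hX⟩ : ∃ X : ℕ → ℝ, X = fun m => nd N k m := ⟨_, rfl⟩
  have hX0 : X 0 = 0 := by rw [hX]; exact nd_zero _ _
  have hXk : X k = N := by rw [hX]; exact nd_k _ _ hk
  have he0 : er f N (X 0) = 0 := by
    rw [hX0]
    have := er_nat f N 0 (by omega) hN
    simpa using this
  have hek : er f N (X k) = 0 := by
    rw [hXk]
    exact er_nat f N N (le_refl _) hN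
  have hem : ∀ m ∈ Ico 1 k, er f N (X m) ≤ (phE k M m + phE k M (k - m)) * G := by
    intro m hm
    rw [mem_Ico] at hm
    rw [add_mul]
    rcases Nat.lt_or_ge k (2 * m) with h | h
    · have h1 := er_node hk f D hfd hDk.le hD1 N M hM hN1 hN2 G hG (k - m) (by omega) (by omega)
        (X m) (Or.inr (by
          rw [nd_refl (N : ℝ) k m hk (by omega), hX]
          ring))
      have h2 := mul_nonneg (phE_nonneg k M m) hG0
      linarith
    · have h1 := er_node hk f D hfd hDk.le hD1 N M hM hN1 hN2 G hG m (by omega) (by omega)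
        (X m) (Or.inl (by rw [hX]))
      have h2 := mul_nonneg (phE_nonneg k M (k - m)) hG0
      linarith
  have hsum : 2 * ∑ m ∈ Ico 1 k, er f N (X m) ≤ E * G := by
    have h1 : ∑ m ∈ Ico 1 k, er f N (X m) ≤
        ∑ m ∈ Ico 1 k, (phE k M m + phE k M (k - m)) * G := sum_le_sum hem
    have h2 : ∑ m ∈ Ico 1 k, phE k M (k - m) = ∑ m ∈ Ico 1 k, phE k M m := by
      have := Finset.sum_Ico_reflect (fun m => phE k M m) 1 (m := k) (n := k) (by omega)
      rw [this]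
      congr 1
      congr 1; omega
    rw [← sum_mul, sum_add_distrib, h2] at h1
    have h3 := sum_phE k M (by omega) (by omega)
    have h4 := mul_le_mul_of_nonneg_right h3 hG0
    rw [hE]
    linarith
  have hsingle : ∀ m ≤ k, er f N (X m) ≤ E * G := by
    intro m hm
    have hEG : 0 ≤ ∑ m ∈ Ico 1 k, er f N (X m) := sum_nonneg (fun _ _ => er_nonneg _ _ _)
    rcases Nat.eq_zero_or_pos m with h | h
    · rw [h, he0]; linarith
    · rcases Nat.lt_or_ge m k with h' | h'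
      · have h1 := single_le_sum (f := fun m => er f N (X m)) (s := Ico 1 k)
          (fun _ _ => er_nonneg _ _ _) (mem_Ico.mpr ⟨h, h'⟩)
        linarith
      · have : m = k := le_antisymm hm h'
        rw [this, hek]; linarith
  -- the trigonometric polynomial
  obtain ⟨c, hc⟩ := exists_tp_xx f D hfd N
  have hcX : ∀ m : ℕ, tp c D (m * (Real.pi / k)) = f.eval (X m) := by
    intro m
    rw [hX, ← hc]
    rfl
  have halt : ∑ m ∈ range k, (-1 : ℝ) ^ m * (f.eval (X m) - f.eval (X (m + 1))) = 0 := by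
    have h := tp_alt c D k hDk
    simp only [hcX] at h
    exact h
  -- G bound
  have hA : ∀ m : ℕ, |tp c D (m * (Real.pi / k))| ≤ V + E * G := by
    intro m
    obtain ⟨m', hm', e⟩ := nd_any (N : ℝ) k m hk
    rw [hcX]
    have e2 : X m = X m' := by rw [hX]; exact e
    rw [e2]
    have h1 := hsingle m' hm'
    have h2 := abs_ghat_le gg N hN V hggV (X m') (by rw [hX]; exact (nd_mem _ hN0.le _ _).1)
      (by rw [hX]; exact (nd_mem _ hN0.le _ _).2)
    unfold er at h1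
    rw [← hgg] at h1
    have h3 : f.eval (X m') = ghat gg N (X m') - (ghat gg N (X m') - f.eval (X m')) := by ring
    rw [h3]
    refine (abs_sub _ _).trans ?_
    linarith
  obtain ⟨θ, hθ⟩ : ∃ θ : ℝ, xx N θ = xs := by
    refine ⟨Real.arccos (1 - 2 * xs / N), ?_⟩
    unfold xx
    have h1 : 0 ≤ 2 * xs / N := by
      apply div_nonneg _ hN0.le
      linarith [hxs.1]
    have h2 : 2 * xs / N ≤ 2 := by rw [div_le_iff₀ hN0]; linarith [hxs.2]
    rw [Real.cos_arccos (by linarith) (by linarith)]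
    field_simp
    ring
  have hsup := tp_sup hk c D hDk.le (V + E * G) θ hA
  rw [← hc θ, hθ, ← hGd] at hsup
  have hGb : ε * G ≤ 2 * V := by
    have h1 : ε * k ≤ k - D := by linarith
    have h2 : G * (ε * k) ≤ k * (V + E * G) := (mul_le_mul_of_nonneg_left h1 hG0).trans hsup
    have h3 : k * (ε * G) ≤ k * (V + E * G) := by linarith
    have h4 := le_of_mul_le_mul_left h3 hk0
    have h5 : 2 * E * G ≤ ε * G := mul_le_mul_of_nonneg_right hEε hG0
    linarith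
  -- conclusion
  have hmono : ∀ m < k, X m ≤ X (m + 1) := by
    intro m hm
    rw [hX]
    exact nd_mono _ hN0.le k m hk hm
  have hX1 : 1 ≤ X 1 := by
    rw [hX]
    exact (nd_bounds N k 1 hk (by omega) hN1 hN2).2.2.2 rfl
  have hmain := alt_ghat gg N k hN hk X hmono hX0 hX1 hXk
  have herr : |∑ m ∈ range k, (-1 : ℝ) ^ m * (ghat gg N (X m) - ghat gg N (X (m + 1)))| ≤
      E * G := by
    have e1 : ∑ m ∈ range k, (-1 : ℝ) ^ m * (ghat gg N (X m) - ghat gg N (X (m + 1))) =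
        ∑ m ∈ range k, (-1 : ℝ) ^ m * ((ghat gg N (X m) - f.eval (X m)) -
          (ghat gg N (X (m + 1)) - f.eval (X (m + 1)))) := by
      rw [← sub_eq_zero, ← sum_sub_distrib, ← halt]
      apply sum_congr rfl
      intro m _
      ring
    rw [e1]
    calc |∑ m ∈ range k, (-1 : ℝ) ^ m * ((ghat gg N (X m) - f.eval (X m)) -
          (ghat gg N (X (m + 1)) - f.eval (X (m + 1))))|
        ≤ ∑ m ∈ range k, (er f N (X m) + er f N (X (m + 1))) := by
          refine (abs_sum_le_sum_abs _ _).trans ?_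
          apply sum_le_sum
          intro m _
          rw [abs_mul, abs_pow, abs_neg, abs_one, one_pow, one_mul]
          unfold er
          rw [← hgg]
          exact abs_sub _ _
      _ = 2 * ∑ m ∈ Ico 1 k, er f N (X m) := by
          rw [sum_add_distrib]
          have e2 : ∑ m ∈ range k, er f N (X m) = ∑ m ∈ Ico 1 k, er f N (X m) := by
            rw [← sum_range_add_sum_Ico _ hk, sum_range_one, he0, zero_add]
          have e3 : ∑ m ∈ range k, er f N (X (m + 1)) = ∑ m ∈ Ico 1 k, er f N (X m) := by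
            have h1 := sum_range_succ' (fun m => er f N (X m)) k
            have h2 := sum_range_succ (fun m => er f N (X m)) k
            rw [hek, add_zero] at h2
            rw [he0, add_zero] at h1
            rw [← h1, h2, e2]
          rw [e2, e3]
          ring
      _ ≤ E * G := hsum
  obtain ⟨S, hS⟩ : ∃ S, S = ∑ m ∈ range k, (-1 : ℝ) ^ m * (ghat gg N (X m) - ghat gg N (X (m + 1))) :=
    ⟨_, rfl⟩
  rw [← hS] at hmain herr
  rw [← hV]
  have h1 : |gg 0 - gg 1| ≤ |S| + |S - (gg 0 - gg 1)| := by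
    have : gg 0 - gg 1 = S - (S - (gg 0 - gg 1)) := by ring
    calc |gg 0 - gg 1| = |S - (S - (gg 0 - gg 1))| := by rw [← this]
      _ ≤ |S| + |S - (gg 0 - gg 1)| := abs_sub _ _
  have hE0 : 0 ≤ E := by rw [hE]; positivity
  have h2 : E * G ≤ 2 * E / ε * V := by
    rw [div_mul_eq_mul_div, le_div_iff₀ hε]
    have := mul_le_mul_of_nonneg_left hGb hE0
    linarith
  linarith

end Pool.Agent.Work.MP_02e323_xi
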