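import Mathlib
import Pool.Agent.Work.MP_02e323_xi.LemA

/-!
# Antidifferences of polynomials, a Chebyshev multiplier, Lemma A
-/

set_option autoImplicit false

open Finset

namespace Pool.Agent.Work.MP_02e323_xi

/-- Antidifference. -/
lemma exists_anti (n : ℕ) : ∀ h : Polynomial ℝ, h.natDegree ≤ n →
    ∃ g : Polynomial ℝ, g.natDegree ≤ n + 1 ∧ ∀ x, g.eval x - g.eval (x + 1) = h.eval x := by
  induction n with
  | zero =>
    intro h hh
    obtain ⟨a, ha⟩ : ∃ a, a = h.coeff 0 := ⟨_, rfl⟩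
    have e := Polynomial.eq_C_of_natDegree_le_zero hh
    refine ⟨Polynomial.C (-a) * Polynomial.X, ?_, fun x => ?_⟩
    · refine (Polynomial.natDegree_C_mul_le _ _).trans ?_
      simp
    · rw [e]
      simp [ha]
      ring
  | succ n ih =>
    intro h hh
    obtain ⟨a, ha⟩ : ∃ a, a = h.coeff (n + 1) / ((n : ℝ) + 2) := ⟨_, rfl⟩
    have hn2 : (n : ℝ) + 2 ≠ 0 := by positivity
    have hdeg : (h - Polynomial.C a * ((Polynomial.X + 1) ^ (n + 2) - Polynomial.X ^ (n + 2))).natDegree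
        ≤ n := by
      rw [Polynomial.natDegree_le_iff_coeff_eq_zero]
      intro m hm
      rw [Polynomial.coeff_sub, Polynomial.coeff_C_mul, Polynomial.coeff_sub,
        Polynomial.coeff_X_add_one_pow, Polynomial.coeff_X_pow]
      rcases Nat.lt_or_ge (n + 2) m with h1 | h1
      · rw [Polynomial.coeff_eq_zero_of_natDegree_lt (by omega), Nat.choose_eq_zero_of_lt h1,
          if_neg (by omega)]
        simp
      · rcases Nat.eq_or_lt_of_le h1 with h2 | h2
        · rw [h2, Polynomial.coeff_eq_zero_of_natDegree_lt (by omega)]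
          simp
        · have h3 : m = n + 1 := by omega
          have h4 : (n + 2).choose (n + 1) = n + 2 := Nat.choose_succ_self_right (n + 1)
          rw [h3, if_neg (by omega), h4, ha]
          push_cast
          field_simp
          ring
    obtain ⟨g, hg1, hg2⟩ := ih _ hdeg
    refine ⟨g - Polynomial.C a * Polynomial.X ^ (n + 2), ?_, fun x => ?_⟩
    · refine (Polynomial.natDegree_sub_le _ _).trans ?_
      apply max_le (by omega)
      refine (Polynomial.natDegree_C_mul_le _ _).trans ?_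
      rw [Polynomial.natDegree_X_pow]
    · have h1 := hg2 x
      simp only [Polynomial.eval_sub, Polynomial.eval_mul, Polynomial.eval_C, Polynomial.eval_pow,
        Polynomial.eval_X, Polynomial.eval_add, Polynomial.eval_one] at h1 ⊢
      linear_combination h1

/-- Growth of Chebyshev polynomials beyond `1`. -/
lemma cheb_growth (a : ℝ) (ha : 0 ≤ a) (m : ℕ) :
    1 + (m : ℝ) ^ 2 * a ≤ (Polynomial.Chebyshev.T ℝ (m : ℤ)).eval (1 + a) ∧
      (2 * (m : ℝ) + 1) * a ≤ (Polynomial.Chebyshev.T ℝ ((m + 1 : ℕ) : ℤ)).eval (1 + a) -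
        (Polynomial.Chebyshev.T ℝ (m : ℤ)).eval (1 + a) := by
  induction m with
  | zero => simp
  | succ m ih =>
    obtain ⟨h1, h2⟩ := ih
    have h3 : 1 + ((m + 1 : ℕ) : ℝ) ^ 2 * a ≤
        (Polynomial.Chebyshev.T ℝ ((m + 1 : ℕ) : ℤ)).eval (1 + a) := by
      push_cast at h2 ⊢
      linarith
    refine ⟨h3, ?_⟩
    have h4 : (Polynomial.Chebyshev.T ℝ ((m + 1 + 1 : ℕ) : ℤ)).eval (1 + a) =
        2 * (1 + a) * (Polynomial.Chebyshev.T ℝ ((m + 1 : ℕ) : ℤ)).eval (1 + a) -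
          (Polynomial.Chebyshev.T ℝ (m : ℤ)).eval (1 + a) := by
      have h5 := Polynomial.Chebyshev.T_add_two ℝ (m : ℤ)
      have e : ((m + 1 + 1 : ℕ) : ℤ) = (m : ℤ) + 2 := by push_cast; ring
      rw [e, h5]
      simp
    rw [h4]
    have h6 : 1 ≤ (Polynomial.Chebyshev.T ℝ ((m + 1 : ℕ) : ℤ)).eval (1 + a) := by
      have : 0 ≤ ((m + 1 : ℕ) : ℝ) ^ 2 * a := by positivity
      linarith
    have h7 : a * 1 ≤ a * (Polynomial.Chebyshev.T ℝ ((m + 1 : ℕ) : ℤ)).eval (1 + a) :=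
      mul_le_mul_of_nonneg_left h6 ha
    push_cast at h7 h2 ⊢
    linarith

/-- **The multiplier.** -/
lemma exists_mult (s N : ℕ) (hN : 2 ≤ N) : ∃ q : Polynomial ℝ, q.natDegree ≤ s ∧ q.eval 0 = 1 ∧
    ∀ x : ℝ, 1 ≤ x → x ≤ N → |q.eval x| * (1 + 2 * (s : ℝ) ^ 2 / N) ≤ 1 := by
  have hN2 : (2 : ℝ) ≤ N := by exact_mod_cast hN
  obtain ⟨a, ha⟩ : ∃ a : ℝ, a = 2 / ((N : ℝ) - 1) := ⟨_, rfl⟩
  have hN1 : (0 : ℝ) < (N : ℝ) - 1 := by linarith
  have ha0 : 0 < a := by rw [ha]; positivity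
  obtain ⟨V, hV⟩ : ∃ V : ℝ, V = (Polynomial.Chebyshev.T ℝ (s : ℤ)).eval (1 + a) := ⟨_, rfl⟩
  have hVg : 1 + (s : ℝ) ^ 2 * a ≤ V := by rw [hV]; exact (cheb_growth a ha0.le s).1
  have hV1 : 1 + 2 * (s : ℝ) ^ 2 / N ≤ V := by
    refine le_trans ?_ hVg
    have h1 : 2 / (N : ℝ) ≤ a := by
      rw [ha]
      apply div_le_div_of_nonneg_left (by norm_num) hN1 (by linarith)
    have h2 : (s : ℝ) ^ 2 * (2 / (N : ℝ)) ≤ (s : ℝ) ^ 2 * a :=
      mul_le_mul_of_nonneg_left h1 (by positivity)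
    have h3 : 2 * (s : ℝ) ^ 2 / N = (s : ℝ) ^ 2 * (2 / (N : ℝ)) := by ring
    rw [h3]
    linarith
  have hV0 : 0 < V := by
    have : 0 ≤ (s : ℝ) ^ 2 * a := by positivity
    linarith
  refine ⟨Polynomial.C V⁻¹ * (Polynomial.Chebyshev.T ℝ (s : ℤ)).comp
    (Polynomial.C (1 + a) - Polynomial.C a * Polynomial.X), ?_, ?_, ?_⟩
  · refine (Polynomial.natDegree_C_mul_le _ _).trans ?_
    refine (Polynomial.natDegree_comp_le).trans ?_
    have h1 : (Polynomial.C (1 + a) - Polynomial.C a * Polynomial.X : Polynomial ℝ).natDegree ≤ 1 := by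
      refine (Polynomial.natDegree_sub_le _ _).trans ?_
      apply max_le
      · simp
      · refine (Polynomial.natDegree_C_mul_le _ _).trans ?_
        simp
    have h2 : (Polynomial.Chebyshev.T ℝ (s : ℤ)).natDegree = s := by
      rw [Polynomial.Chebyshev.natDegree_T]
      exact Int.natAbs_natCast _
    rw [h2]
    calc s * _ ≤ s * 1 := Nat.mul_le_mul_left _ h1
      _ = s := mul_one s
  · rw [Polynomial.eval_mul, Polynomial.eval_C, Polynomial.eval_comp]
    simp only [Polynomial.eval_sub, Polynomial.eval_C, Polynomial.eval_mul, Polynomial.eval_X,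
      mul_zero, sub_zero]
    rw [← hV]
    field_simp
  · intro x hx1 hxN
    rw [Polynomial.eval_mul, Polynomial.eval_C, Polynomial.eval_comp]
    simp only [Polynomial.eval_sub, Polynomial.eval_C, Polynomial.eval_mul, Polynomial.eval_X]
    have h1 : |1 + a - a * x| ≤ 1 := by
      have h2 : a * ((N : ℝ) - 1) = 2 := by rw [ha]; field_simp
      rw [abs_le]
      constructor
      · nlinarith
      · nlinarith
    have h2 := Polynomial.Chebyshev.abs_eval_T_real_le_one (s : ℤ) h1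
    rw [abs_mul, abs_of_pos (inv_pos.mpr hV0)]
    calc V⁻¹ * |(Polynomial.Chebyshev.T ℝ (s : ℤ)).eval (1 + a - a * x)| * (1 + 2 * (s : ℝ) ^ 2 / N)
        ≤ V⁻¹ * 1 * V := by
          apply mul_le_mul _ hV1 (by positivity) (by positivity)
          exact mul_le_mul_of_nonneg_left h2 (inv_pos.mpr hV0).le
      _ = 1 := by field_simp

/-- **Lemma A.** -/
theorem lemA (ε η : ℝ) (hε : 0 < ε) (hε1 : ε ≤ 1 / 2) (hη : 0 < η) (hη1 : η ≤ 1) :
    ∃ K : ℕ, ∀ k : ℕ, K ≤ k → ∀ N : ℕ, 4 * (k : ℝ) ^ 2 + Real.pi ^ 2 ≤ Real.pi ^ 2 * N →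
      Real.pi ^ 2 * N ≤ 4 * (k : ℝ) ^ 2 + 2 * Real.pi ^ 2 →
      ∀ g : Polynomial ℝ, (g.natDegree : ℝ) ≤ (1 - ε) * k →
      |g.eval 0 - g.eval 1| ≤ ∑ j ∈ Ico 1 N, |g.eval (j : ℝ) - g.eval ((j : ℝ) + 1)| +
        η * ∑ j ∈ range N, |g.eval (j : ℝ) - g.eval ((j : ℝ) + 1)| := by
  obtain ⟨M0, hM0⟩ := exists_nat_ge (1088 / (η * ε))
  obtain ⟨M, hM⟩ : ∃ M, M = M0 + 2 := ⟨_, rfl⟩
  have hM2 : 2 ≤ M := by omega
  have hMr : 1088 / (η * ε) ≤ M := by rw [hM]; push_cast; linarith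
  have hM0' : (0 : ℝ) < M := by
    have : 0 < M := by omega
    exact_mod_cast this
  obtain ⟨K0, hK0⟩ := exists_nat_ge (7520 * (M : ℝ) ^ 5 / (η * ε))
  refine ⟨K0 + 2 * M + 2, fun k hk N hN1 hN2 g hg => ?_⟩
  have hk1 : (1 : ℝ) ≤ k := by
    have : 1 ≤ k := by omega
    exact_mod_cast this
  have hk2 : (2 : ℝ) ≤ k := by
    have : 2 ≤ k := by omega
    exact_mod_cast this
  have hK0k : (K0 : ℝ) ≤ k := by
    have : K0 ≤ k := by omega
    exact_mod_cast this
  have hηε : 0 < η * ε := by positivity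
  obtain ⟨E, hE⟩ : ∃ E : ℝ, E = 4 * (470 * (M : ℝ) ^ 5 / (k : ℝ) ^ 2 + 68 / M) := ⟨_, rfl⟩
  have hEb : 2 * E ≤ η * ε := by
    have h1 : 8 * (68 / (M : ℝ)) ≤ η * ε / 2 := by
      rw [div_le_iff₀ hηε] at hMr
      have h3 : 8 * (68 / (M : ℝ)) * M ≤ η * ε / 2 * M := by
        have : 8 * (68 / (M : ℝ)) * M = 544 := by field_simp; norm_num
        rw [this]
        linarith
      exact le_of_mul_le_mul_right h3 hM0'
    have h2 : 8 * (470 * (M : ℝ) ^ 5 / (k : ℝ) ^ 2) ≤ η * ε / 2 := by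
      rw [div_le_iff₀ hηε] at hK0
      have hk20 : (0 : ℝ) < (k : ℝ) ^ 2 := by positivity
      have h3 : 8 * (470 * (M : ℝ) ^ 5 / (k : ℝ) ^ 2) * (k : ℝ) ^ 2 ≤ η * ε / 2 * (k : ℝ) ^ 2 := by
        have : 8 * (470 * (M : ℝ) ^ 5 / (k : ℝ) ^ 2) * (k : ℝ) ^ 2 = 3760 * (M : ℝ) ^ 5 := by
          field_simp; ring
        rw [this]
        have h4 : (K0 : ℝ) * (η * ε) ≤ k * (η * ε) := mul_le_mul_of_nonneg_right hK0k hηε.le
        have h5 : (k : ℝ) * (η * ε) ≤ (k : ℝ) ^ 2 * (η * ε) := by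
          apply mul_le_mul_of_nonneg_right _ hηε.le
          nlinarith
        linarith
      exact le_of_mul_le_mul_right h3 hk20
    rw [hE]
    linarith
  have hgD : g.natDegree ≤ max g.natDegree 1 := le_max_left _ _
  have hDr : ((max g.natDegree 1 : ℕ) : ℝ) ≤ (1 - ε) * k := by
    rcases le_total g.natDegree 1 with h | h
    · rw [max_eq_right h]
      push_cast
      nlinarith
    · rw [max_eq_left h]
      exact hg
  have hDk : max g.natDegree 1 < k := by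
    have : ((max g.natDegree 1 : ℕ) : ℝ) < k := by nlinarith
    exact_mod_cast this
  have hηε' : η * ε ≤ ε := by nlinarith
  have h := lemA_core (k := k) (by omega) N (max g.natDegree 1) M hM2 (by omega)
    (le_max_right _ _) hDk hN1 hN2 g hgD ε hε hDr E hE (by linarith)
  refine h.trans ?_
  have h2 : 2 * E / ε ≤ η := by
    rw [div_le_iff₀ hε]
    exact hEb
  have h3 := mul_le_mul_of_nonneg_right h2 (sum_nonneg (s := range N)
    (f := fun j : ℕ => |g.eval (j : ℝ) - g.eval ((j : ℝ) + 1)|) (fun _ _ => abs_nonneg _))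
  linarith

end Pool.Agent.Work.MP_02e323_xi
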