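import Mathlib
import Pool.Agent.Work.MP_02e323_xi.Anti

/-!
# No polynomial of degree `< t` has a value at `0` dominating its values at `1, …, n - 1` when
`n ≥ c t²`, `c > 4 / π²`, and `t` is large; duality
-/

set_option autoImplicit false

open Finset

namespace Pool.Agent.Work.MP_02e323_xi

/-- **Theorem V.** -/
theorem upperV (c : ℝ) (hc : 4 / Real.pi ^ 2 < c) : ∃ T : ℕ, ∀ t : ℕ, T ≤ t → ∀ n : ℕ,
    c * (t : ℝ) ^ 2 ≤ n → ∀ f : Polynomial ℝ, f.natDegree < t →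
    |f.eval 0| ≤ ∑ j ∈ Ico 1 n, |f.eval (j : ℝ)| := by
  have hpi := Real.pi_pos
  have hpi2 : 0 < Real.pi ^ 2 := by positivity
  have hpil := pi_sq_le
  have hpig := pi_sq_ge
  -- the parameter `ε`
  obtain ⟨ε, hε, hε4, hεc⟩ : ∃ ε : ℝ, 0 < ε ∧ ε ≤ 1 / 4 ∧
      4 / Real.pi ^ 2 * (1 + 3 * ε) ^ 2 < c := by
    obtain ⟨d, hd⟩ : ∃ d, d = c - 4 / Real.pi ^ 2 := ⟨_, rfl⟩
    have hd0 : 0 < d := by rw [hd]; linarith
    refine ⟨min (1 / 4) (d / 16), by positivity, min_le_left _ _, ?_⟩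
    have h1 : min (1 / 4) (d / 16) ≤ d / 16 := min_le_right _ _
    have h2 : min (1 / 4) (d / 16) ≤ 1 / 4 := min_le_left _ _
    obtain ⟨e, he⟩ : ∃ e, e = min (1 / 4) (d / 16) := ⟨_, rfl⟩
    rw [← he] at h1 h2 ⊢
    have he0 : 0 < e := by rw [he]; positivity
    have h3 : 4 / Real.pi ^ 2 ≤ 1 := by rw [div_le_one hpi2]; linarith
    have h4 : (1 + 3 * e) ^ 2 ≤ 1 + 9 * e := by
      have h6 : 0 ≤ e * (1 / 4 - e) := mul_nonneg he0.le (by linarith)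
      have h7 : (1 + 3 * e) ^ 2 = 1 + 6 * e + 9 / 4 * e - 9 * (e * (1 / 4 - e)) := by ring
      rw [h7]
      linarith
    have h5 : 0 < 4 / Real.pi ^ 2 := by positivity
    calc 4 / Real.pi ^ 2 * (1 + 3 * e) ^ 2 ≤ 4 / Real.pi ^ 2 * (1 + 9 * e) :=
          mul_le_mul_of_nonneg_left h4 h5.le
      _ = 4 / Real.pi ^ 2 + 4 / Real.pi ^ 2 * (9 * e) := by ring
      _ ≤ 4 / Real.pi ^ 2 + 1 * (9 * e) := by
          have := mul_le_mul_of_nonneg_right h3 (show 0 ≤ 9 * e by positivity)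
          linarith
      _ < c := by linarith
  obtain ⟨ρ, hρ⟩ : ∃ ρ : ℝ, ρ = ε ^ 2 / 9 := ⟨_, rfl⟩
  have hρ0 : 0 < ρ := by rw [hρ]; positivity
  obtain ⟨η, hη⟩ : ∃ η : ℝ, η = ρ / (4 * (1 + ρ)) := ⟨_, rfl⟩
  have hη0 : 0 < η := by rw [hη]; positivity
  have hη1 : η ≤ 1 := by
    rw [hη, div_le_one (by positivity)]
    linarith
  obtain ⟨K, hK⟩ := lemA ε η hε (by linarith) hη0 hη1
  obtain ⟨T1, hT1⟩ := exists_nat_ge (8 / (c - 4 / Real.pi ^ 2 * (1 + 3 * ε) ^ 2))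
  obtain ⟨T2, hT2⟩ := exists_nat_ge (16 / ε)
  refine ⟨K + T1 + T2 + 4, fun t ht n hn f hf => ?_⟩
  have ht4 : (4 : ℝ) ≤ t := by
    have : 4 ≤ t := by omega
    exact_mod_cast this
  have htT1 : (T1 : ℝ) ≤ t := by
    have : T1 ≤ t := by omega
    exact_mod_cast this
  have htT2 : (T2 : ℝ) ≤ t := by
    have : T2 ≤ t := by omega
    exact_mod_cast this
  -- the parameters `s`, `k`, `N`
  obtain ⟨s, hs⟩ : ∃ s : ℕ, s = ⌈ε * t⌉₊ := ⟨_, rfl⟩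
  have hs1 : ε * t ≤ s := by rw [hs]; exact Nat.le_ceil _
  have hs2 : (s : ℝ) < ε * t + 1 := by rw [hs]; exact Nat.ceil_lt_add_one (by positivity)
  obtain ⟨k, hk⟩ : ∃ k : ℕ, k = ⌈(1 + 3 * ε) * t⌉₊ := ⟨_, rfl⟩
  have hk1 : (1 + 3 * ε) * t ≤ k := by rw [hk]; exact Nat.le_ceil _
  have hk2 : (k : ℝ) < (1 + 3 * ε) * t + 1 := by
    rw [hk]; exact Nat.ceil_lt_add_one (by positivity)
  have hεt0 : 0 ≤ ε * t := by positivity
  have hεt4 : ε * t ≤ 1 / 4 * t := mul_le_mul_of_nonneg_right hε4 (by positivity)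
  have hk1' : t + 3 * (ε * t) ≤ k := by linarith
  have hk2' : (k : ℝ) < t + 3 * (ε * t) + 1 := by linarith
  have hkt : (t : ℝ) ≤ k := by linarith
  have hk16 : (16 : ℝ) ≤ (k : ℝ) ^ 2 := by
    have h1 : (4 : ℝ) ^ 2 ≤ (k : ℝ) ^ 2 := pow_le_pow_left₀ (by norm_num) (ht4.trans hkt) 2
    norm_num at h1
    exact h1
  have hkt' : t ≤ k := by exact_mod_cast hkt
  obtain ⟨N, hN⟩ : ∃ N : ℕ, N = ⌈(4 * (k : ℝ) ^ 2 + Real.pi ^ 2) / Real.pi ^ 2⌉₊ := ⟨_, rfl⟩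
  have hN1 : 4 * (k : ℝ) ^ 2 + Real.pi ^ 2 ≤ Real.pi ^ 2 * N := by
    have h1 : (4 * (k : ℝ) ^ 2 + Real.pi ^ 2) / Real.pi ^ 2 ≤ N := by rw [hN]; exact Nat.le_ceil _
    rw [div_le_iff₀ hpi2] at h1
    linarith
  have hN2 : Real.pi ^ 2 * N ≤ 4 * (k : ℝ) ^ 2 + 2 * Real.pi ^ 2 := by
    have h1 : (N : ℝ) < (4 * (k : ℝ) ^ 2 + Real.pi ^ 2) / Real.pi ^ 2 + 1 := by
      rw [hN]; exact Nat.ceil_lt_add_one (by positivity)
    have h2 : Real.pi ^ 2 * N ≤ Real.pi ^ 2 * ((4 * (k : ℝ) ^ 2 + Real.pi ^ 2) / Real.pi ^ 2 + 1) :=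
      mul_le_mul_of_nonneg_left h1.le hpi2.le
    have h3 : Real.pi ^ 2 * ((4 * (k : ℝ) ^ 2 + Real.pi ^ 2) / Real.pi ^ 2 + 1) =
        4 * (k : ℝ) ^ 2 + 2 * Real.pi ^ 2 := by field_simp; ring
    linarith
  -- `N ≤ n`
  have hNn : N ≤ n := by
    have h1 : (N : ℝ) ≤ 4 / Real.pi ^ 2 * (k : ℝ) ^ 2 + 2 := by
      have h2 : Real.pi ^ 2 * N ≤ Real.pi ^ 2 * (4 / Real.pi ^ 2 * (k : ℝ) ^ 2 + 2) := by
        have : Real.pi ^ 2 * (4 / Real.pi ^ 2 * (k : ℝ) ^ 2 + 2) = 4 * (k : ℝ) ^ 2 + 2 * Real.pi ^ 2 := by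
          field_simp
        rw [this]
        exact hN2
      exact le_of_mul_le_mul_left h2 hpi2
    have h3 : (k : ℝ) ^ 2 ≤ ((1 + 3 * ε) * t + 1) ^ 2 := pow_le_pow_left₀ (by positivity) hk2.le 2
    obtain ⟨q, hq⟩ : ∃ q, q = 4 / Real.pi ^ 2 := ⟨_, rfl⟩
    have hq0 : 0 < q := by rw [hq]; positivity
    have hq1 : q ≤ 1 / 2 := by
      rw [hq, div_le_div_iff₀ hpi2 (by norm_num)]
      linarith
    rw [← hq] at h1 hεc hT1
    have hd0 : 0 < c - q * (1 + 3 * ε) ^ 2 := by linarith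
    rw [div_le_iff₀ hd0] at hT1
    have h5 : 8 * (t : ℝ) ≤ (c - q * (1 + 3 * ε) ^ 2) * (t : ℝ) ^ 2 := by
      have h6 : (T1 : ℝ) * (c - q * (1 + 3 * ε) ^ 2) ≤ t * (c - q * (1 + 3 * ε) ^ 2) :=
        mul_le_mul_of_nonneg_right htT1 hd0.le
      have h7 : 8 * (t : ℝ) ≤ (t * (c - q * (1 + 3 * ε) ^ 2)) * t :=
        mul_le_mul_of_nonneg_right (by linarith) (by positivity)
      linarith
    have h8 : q * (k : ℝ) ^ 2 ≤ q * ((1 + 3 * ε) * t + 1) ^ 2 := mul_le_mul_of_nonneg_left h3 hq0.le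
    have h9 : q * ((1 + 3 * ε) * t + 1) ^ 2 ≤ q * (1 + 3 * ε) ^ 2 * (t : ℝ) ^ 2 + 3 * t := by
      have h10 : q * (2 * ((1 + 3 * ε) * t) + 1) ≤ 1 / 2 * (2 * ((1 + 3 * ε) * t) + 1) :=
        mul_le_mul_of_nonneg_right hq1 (by positivity)
      have h12 : q * ((1 + 3 * ε) * t + 1) ^ 2 =
          q * (1 + 3 * ε) ^ 2 * (t : ℝ) ^ 2 + q * (2 * ((1 + 3 * ε) * t) + 1) := by ring
      rw [h12]
      linarith
    have h11 : (N : ℝ) ≤ n := by linarith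
    exact_mod_cast h11
  have hN2' : 2 ≤ N := by
    have h1 : Real.pi ^ 2 * 2 ≤ Real.pi ^ 2 * N := by
      refine le_trans ?_ hN1
      linarith
    have h2 : (2 : ℝ) ≤ N := le_of_mul_le_mul_left h1 hpi2
    exact_mod_cast h2
  -- the multiplier
  obtain ⟨q, hqd, hq0, hqx⟩ := exists_mult s N hN2'
  obtain ⟨g, hgd, hg⟩ := exists_anti (f * q).natDegree (f * q) (le_refl _)
  have hgd' : (g.natDegree : ℝ) ≤ (1 - ε) * k := by
    have h1 : g.natDegree ≤ t + s := by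
      have := Polynomial.natDegree_mul_le (p := f) (q := q)
      omega
    have h2 : (g.natDegree : ℝ) ≤ t + s := by exact_mod_cast h1
    have h3 : (1 - ε) * ((1 + 3 * ε) * t) ≤ (1 - ε) * k :=
      mul_le_mul_of_nonneg_left hk1 (by linarith)
    have h4 : 16 ≤ ε * t := by
      rw [div_le_iff₀ hε] at hT2
      have h5 := hT2.trans (mul_le_mul_of_nonneg_right htT2 hε.le)
      linarith
    have h5 : ε * (ε * t) ≤ 1 / 4 * (ε * t) := mul_le_mul_of_nonneg_right hε4 hεt0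
    have h6 : (1 - ε) * ((1 + 3 * ε) * t) = t + 2 * (ε * t) - 3 * (ε * (ε * t)) := by ring
    rw [h6] at h3
    linarith
  have hA := hK k (by omega) N hN1 hN2 g hgd'
  -- rewriting
  have hd : ∀ x : ℝ, |g.eval x - g.eval (x + 1)| = |f.eval x| * |q.eval x| := by
    intro x
    rw [hg, Polynomial.eval_mul, abs_mul]
  have hd0 : |g.eval 0 - g.eval 1| = |f.eval 0| := by
    have := hd 0
    rw [zero_add, hq0, abs_one, mul_one] at this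
    exact this
  rw [hd0] at hA
  simp only [hd] at hA
  have hN2r : (2 : ℝ) ≤ N := by exact_mod_cast hN2'
  obtain ⟨S, hS⟩ : ∃ S, S = ∑ j ∈ Ico 1 N, |f.eval (j : ℝ)| := ⟨_, rfl⟩
  have hS0 : 0 ≤ S := by rw [hS]; exact sum_nonneg (fun _ _ => abs_nonneg _)
  -- `1 + ρ ≤ 1 + 2 s² / N`
  have hρN : ρ ≤ 2 * (s : ℝ) ^ 2 / N := by
    rw [le_div_iff₀ (by linarith)]
    have h1 : (N : ℝ) ≤ (k : ℝ) ^ 2 := by
      have h2 : Real.pi ^ 2 * N ≤ Real.pi ^ 2 * (k : ℝ) ^ 2 := by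
        refine hN2.trans ?_
        have h5 : 9.8696 * (k : ℝ) ^ 2 ≤ Real.pi ^ 2 * (k : ℝ) ^ 2 :=
          mul_le_mul_of_nonneg_right hpig (by positivity)
        linarith
      exact le_of_mul_le_mul_left h2 hpi2
    have h2 : (k : ℝ) ≤ 3 * t := by linarith
    have h3 : (k : ℝ) ^ 2 ≤ 9 * (t : ℝ) ^ 2 := by
      have h5 : (k : ℝ) ^ 2 ≤ (3 * t) ^ 2 := pow_le_pow_left₀ (by positivity) h2 2
      linarith
    have h4 : (ε * t) ^ 2 ≤ (s : ℝ) ^ 2 := pow_le_pow_left₀ (by positivity) hs1 2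
    rw [hρ]
    calc ε ^ 2 / 9 * N ≤ ε ^ 2 / 9 * (9 * (t : ℝ) ^ 2) :=
          mul_le_mul_of_nonneg_left (h1.trans h3) (by positivity)
      _ = (ε * t) ^ 2 := by ring
      _ ≤ 2 * (s : ℝ) ^ 2 := by
          have : 0 ≤ (s : ℝ) ^ 2 := by positivity
          linarith
  have hfq : ∀ j ∈ Ico 1 N, |f.eval (j : ℝ)| * |q.eval (j : ℝ)| ≤ (1 + ρ)⁻¹ * |f.eval (j : ℝ)| := by
    intro j hj
    rw [mem_Ico] at hj
    have h1 : (1 : ℝ) ≤ j := by exact_mod_cast hj.1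
    have h2 : (j : ℝ) ≤ N := by exact_mod_cast hj.2.le
    have h3 := hqx j h1 h2
    have h4 : |q.eval (j : ℝ)| * (1 + ρ) ≤ 1 := by
      refine le_trans ?_ h3
      apply mul_le_mul_of_nonneg_left _ (abs_nonneg _)
      linarith
    have h5 : |q.eval (j : ℝ)| ≤ (1 + ρ)⁻¹ := by
      rw [← one_div, le_div_iff₀ (by positivity)]
      exact h4
    rw [mul_comm]
    exact mul_le_mul_of_nonneg_right h5 (abs_nonneg _)
  have hsum1 : ∑ j ∈ Ico 1 N, |f.eval (j : ℝ)| * |q.eval (j : ℝ)| ≤ (1 + ρ)⁻¹ * S := by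
    rw [hS, mul_sum]
    exact sum_le_sum hfq
  have hsum0 : ∑ j ∈ range N, |f.eval (j : ℝ)| * |q.eval (j : ℝ)| =
      |f.eval 0| + ∑ j ∈ Ico 1 N, |f.eval (j : ℝ)| * |q.eval (j : ℝ)| := by
    rw [← sum_range_add_sum_Ico _ (show 1 ≤ N by omega), sum_range_one]
    simp only [Nat.cast_zero, hq0, abs_one, mul_one]
  rw [hsum0] at hA
  have hSn : S ≤ ∑ j ∈ Ico 1 n, |f.eval (j : ℝ)| := by
    rw [hS]
    apply sum_le_sum_of_subset_of_nonneg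
    · intro j hj
      rw [mem_Ico] at hj ⊢
      omega
    · intro _ _ _
      exact abs_nonneg _
  refine le_trans ?_ hSn
  by_contra hcon
  push Not at hcon
  -- `|f 0| ≤ (1+ρ)⁻¹ S + η (|f 0| + (1+ρ)⁻¹ S)`
  have hr : (1 + ρ)⁻¹ = 1 / (1 + ρ) := by rw [one_div]
  obtain ⟨F, hF⟩ : ∃ F, F = |f.eval 0| := ⟨_, rfl⟩
  rw [← hF] at hA hcon
  have hF0 : 0 < F := by linarith
  have h1ρ : 0 < 1 + ρ := by linarith
  have hinv : (1 + ρ)⁻¹ * S ≤ (1 + ρ)⁻¹ * F :=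
    mul_le_mul_of_nonneg_left hcon.le (inv_pos.mpr h1ρ).le
  have hinv1 : (1 + ρ)⁻¹ ≤ 1 := by
    rw [inv_le_one₀ h1ρ]; linarith
  have h2 : F ≤ (1 + ρ)⁻¹ * F + η * (F + (1 + ρ)⁻¹ * F) := by
    have h3 : η * (F + ∑ j ∈ Ico 1 N, |f.eval (j : ℝ)| * |q.eval (j : ℝ)|) ≤
        η * (F + (1 + ρ)⁻¹ * F) := by
      apply mul_le_mul_of_nonneg_left _ hη0.le
      linarith
    linarith
  have h4 : F * (1 + ρ) ≤ F + η * (F * (1 + ρ) + F) := by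
    have h5 := mul_le_mul_of_nonneg_right h2 h1ρ.le
    have h6 : ((1 + ρ)⁻¹ * F + η * (F + (1 + ρ)⁻¹ * F)) * (1 + ρ) =
        F + η * (F * (1 + ρ) + F) := by
      field_simp
    rw [h6] at h5
    exact h5
  have h7 : η * (F * (1 + ρ) + F) < F * ρ := by
    have h8 : η * (4 * (1 + ρ)) = ρ := by rw [hη]; field_simp
    have h9 : F * (1 + ρ) + F ≤ 2 * (F * (1 + ρ)) := by
      have h13 : 0 ≤ F * ρ := mul_nonneg hF0.le hρ0.le
      linarith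
    have h10 : η * (F * (1 + ρ) + F) ≤ η * (2 * (F * (1 + ρ))) :=
      mul_le_mul_of_nonneg_left h9 hη0.le
    have h11 : η * (2 * (F * (1 + ρ))) = F * ρ / 2 := by
      linear_combination (F / 2) * h8
    have h12 : 0 < F * ρ := mul_pos hF0 hρ0
    linarith
  linarith

end Pool.Agent.Work.MP_02e323_xi
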