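import Mathlib
import Pool.Agent.Work.MP_02e323_xi.Main
import Pool.Agent.Work.MP_02e323_xi.LowV
import Pool.Agent.Work.MP_02e323_xi.UpperV
import Pool.Agent.Work.MP_02e323_xi.Dual

/-!
# The exact constant of the moment method
-/

set_option autoImplicit false

open Finset

namespace Pool.Agent.Work.MP_02e323_xi

open Pool.Agent.Work.MP_02e323_helper29 (occ)
open Pool.Agent.Work.MP_02e323_helper33

/-- Dominating polynomials of degree less than `t` for `5 n ≤ 2 (t + 1)²` or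
`n ≤ 4 t (t + 1) / π²`. -/
theorem exists_poly2 {t n : ℕ} (ht : 1 ≤ t)
    (hn : 5 * n ≤ 2 * (t + 1) ^ 2 ∨ (n : ℝ) ≤ 4 / Real.pi ^ 2 * ((t : ℝ) * (t + 1))) :
    ∃ p : Polynomial ℝ, p.natDegree < t ∧
      ∑ j ∈ Ico 1 n, |p.eval ((j : ℕ) : ℝ)| < p.eval 0 := by
  rcases hn with hn | hn
  · exact exists_poly ht hn
  · rcases Nat.lt_or_ge t 75 with h | h
    · apply exists_poly ht
      have h1 : (t : ℝ) ≤ 75 := by exact_mod_cast h.le
      have h0 : (0 : ℝ) ≤ t := by positivity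
      have h2 : 4 / Real.pi ^ 2 ≤ 0.4053 := by
        rw [div_le_iff₀ (by positivity)]
        linarith [pi_sq_ge]
      have h3 : (n : ℝ) ≤ 0.4053 * ((t : ℝ) * (t + 1)) :=
        hn.trans (mul_le_mul_of_nonneg_right h2 (by positivity))
      have h4 : (5 : ℝ) * n ≤ 2 * ((t : ℝ) + 1) ^ 2 := by nlinarith
      exact_mod_cast h4
    · obtain ⟨p, h1, h2⟩ := lowerU (k := t + 1) (n := n) (by omega) (by
        push_cast
        refine hn.trans (le_of_eq ?_)
        ring)
      exact ⟨p, by simpa using h1, h2⟩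

/-- A dominating polynomial excludes bounded solutions of the moment equations. -/
theorem not_moment {t n : ℕ} (hn : 1 ≤ n) (p : Polynomial ℝ) (hp : p.natDegree < t)
    (hs : ∑ j ∈ Ico 1 n, |p.eval ((j : ℕ) : ℝ)| < p.eval 0) :
    ¬ ∃ d : ℕ → ℝ, d 0 = 1 ∧ (∀ j, |d j| ≤ 1) ∧
      ∀ i < t, ∑ j ∈ range n, d j * (j : ℝ) ^ i = 0 := by
  rintro ⟨d, hd0, hd1, hd⟩
  have h1 : ∑ j ∈ range n, d j * p.eval (j : ℝ) = 0 := by
    have e : ∀ j : ℕ, d j * p.eval (j : ℝ) =
        ∑ i ∈ range t, p.coeff i * (d j * (j : ℝ) ^ i) := by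
      intro j
      rw [Polynomial.eval_eq_sum_range' hp, mul_sum]
      apply sum_congr rfl
      intro i _
      ring
    simp only [e]
    rw [sum_comm]
    apply sum_eq_zero
    intro i hi
    rw [mem_range] at hi
    rw [← mul_sum, hd i hi, mul_zero]
  rw [← sum_range_add_sum_Ico _ hn, sum_range_one, hd0, one_mul, Nat.cast_zero] at h1
  have h2 : |∑ j ∈ Ico 1 n, d j * p.eval (j : ℝ)| ≤ ∑ j ∈ Ico 1 n, |p.eval (j : ℝ)| := by
    refine (abs_sum_le_sum_abs _ _).trans ?_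
    apply sum_le_sum
    intro j _
    rw [abs_mul]
    calc |d j| * |p.eval (j : ℝ)| ≤ 1 * |p.eval (j : ℝ)| :=
          mul_le_mul_of_nonneg_right (hd1 j) (abs_nonneg _)
      _ = |p.eval (j : ℝ)| := one_mul _
  have h3 := (abs_le.mp h2).1
  linarith

/-- If the moment equations have no bounded solution, words are determined. -/
theorem det_of_not_moment {α : Type*} [Fintype α] {t n : ℕ} (ht : 1 ≤ t) (hn : 1 ≤ n)
    (hd : ¬ ∃ d : ℕ → ℝ, d 0 = 1 ∧ (∀ j, |d j| ≤ 1) ∧
      ∀ i < t, ∑ j ∈ range n, d j * (j : ℝ) ^ i = 0)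
    (w w' : List α) (hw : w.length ≤ n)
    (h : ∀ u : List α, u.length ≤ t → occ u w = occ u w') : w = w' := by
  have hl := length_eq ht w w' h
  obtain ⟨p, h1, h2⟩ : ∃ p : Polynomial ℝ, p.natDegree < t ∧
      ∑ j ∈ Ico 1 w.length, |p.eval ((j : ℕ) : ℝ)| < p.eval 0 := by
    by_contra hc
    apply hd
    apply duality t n hn
    intro f hf
    by_contra hf2
    push Not at hf2
    apply hc
    have hsub : ∑ j ∈ Ico 1 w.length, |f.eval ((j : ℕ) : ℝ)| ≤ ∑ j ∈ Ico 1 n, |f.eval (j : ℝ)| := by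
      apply sum_le_sum_of_subset_of_nonneg
      · intro j hj
        rw [mem_Ico] at hj ⊢
        omega
      · intro _ _ _
        exact abs_nonneg _
    rcases le_total 0 (f.eval 0) with h0 | h0
    · refine ⟨f, hf, ?_⟩
      rw [abs_of_nonneg h0] at hf2
      linarith
    · refine ⟨-f, by rw [Polynomial.natDegree_neg]; exact hf, ?_⟩
      rw [abs_of_nonpos h0] at hf2
      simp only [Polynomial.eval_neg, abs_neg]
      linarith
  obtain ⟨l, hn'⟩ : ∃ l, l = w.length := ⟨_, rfl⟩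
  have e1 : w = List.ofFn (fun i : Fin l => w.get (i.cast hn')) := by
    subst hn'
    simp
  have e2 : w' = List.ofFn (fun i : Fin l => w'.get (i.cast (hn'.trans hl))) := by
    apply List.ext_get
    · simp [hn', hl]
    · intro m h3 h4
      simp
  rw [← hn'] at h2
  rw [e1, e2] at h
  have := det_of_poly p h1 h2 _ _ h
  rw [e1, e2, this]

/-- Bounded solutions of the moment equations exist beyond `4 t² / π²`. -/
theorem moment_upper (c : ℝ) (hc : 4 / Real.pi ^ 2 < c) : ∃ T : ℕ, ∀ t : ℕ, T ≤ t → ∀ n : ℕ,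
    c * (t : ℝ) ^ 2 ≤ n → ∃ d : ℕ → ℝ, d 0 = 1 ∧ (∀ j, |d j| ≤ 1) ∧
      ∀ i < t, ∑ j ∈ range n, d j * (j : ℝ) ^ i = 0 := by
  obtain ⟨T, hT⟩ := upperV c hc
  refine ⟨T + 1, fun t ht n hn => ?_⟩
  have ht1 : (1 : ℝ) ≤ t := by
    have : 1 ≤ t := by omega
    exact_mod_cast this
  have hc0 : 0 < c := by
    have := Real.pi_pos
    have : 0 < 4 / Real.pi ^ 2 := by positivity
    linarith
  have hn1 : 1 ≤ n := by
    by_contra h
    have h0 : n = 0 := by omega
    rw [h0] at hn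
    push_cast at hn
    have : 0 < c * (t : ℝ) ^ 2 := by positivity
    linarith
  exact duality t n hn1 (fun f hf => hT t (by omega) n hn f hf)

end Pool.Agent.Work.MP_02e323_xi
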